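import Pool.Agent.H40.OWN.Exq

/-!
# The relation between the slopes and the numbers

`ng_one`: in a relation `sg + tu * au = av` of functions `sg`, `tu` of the line in the window with
exact slopes the coefficient `tu` is small. `ng_two`, `ng_thr`: the relation contradicts the numbers
at a smaller window. `ng_rel`: the class theorem.
-/

set_option autoImplicit false

namespace Pool.OWN40

open Finset MvPolynomial
open Pool.Agent.H49.Ent Pool.Agent.H32.Dense Pool.STK Pool.KA Pool.KSAT Pool.K2S Pool.PB Pool.GEN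
open Pool.S6C
open Pool.MIC6 (Dp res_of ActF)
open Pool.OWN72

variable {m n J : ℕ}

/-- The data of the relation. -/
structure RlD (F : Fam m J) (B : F.Ω → Prop) (y u v : Fin m) (n : ℕ) (P Q κ x : ℝ)
    (au cu av cv th : PtT F → ℝ) (th' sg tu : LnT F → ℝ) : Prop where
  bau : ∀ ω, B ω → |au (ptr F J ω)| ≤ Ex J (-x)
  bcu : ∀ ω, B ω → |cu (ptr F J ω)| ≤ Ex J (-x)
  bav : ∀ ω, B ω → |av (ptr F J ω)| ≤ Ex J (-x)
  bcv : ∀ ω, B ω → |cv (ptr F J ω)| ≤ Ex J (-x)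
  bth : ∀ ω, B ω → |th (ptr F J ω)| ≤ Ex J (-x)
  du : ∀ ω, B ω → |F.d ω u - cu (ptr F J ω) - au (ptr F J ω) * F.d ω y| ≤ 2 * Ex J (P + κ)
  dv : ∀ ω, B ω → |F.d ω v - th (ptr F J ω) * F.d ω u - cv (ptr F J ω) -
    av (ptr F J ω) * F.d ω y| ≤ 2 * Ex J (Q + κ)
  cl : ∀ ω, B ω → th (ptr F J ω) = th' (slam F n ω)
  rel : ∀ ω, B ω → |sg (slam F n ω) + tu (slam F n ω) * au (ptr F J ω) - av (ptr F J ω)| ≤
    2 * Ex J (Q + κ) + |tu (slam F n ω)| * (2 * Ex J (P + κ))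

theorem RlD.sub {F : Fam m J} {B B' : F.Ω → Prop} {y u v : Fin m} {n : ℕ} {P Q κ x : ℝ}
    {au cu av cv th : PtT F → ℝ} {th' sg tu : LnT F → ℝ}
    (h : RlD F B y u v n P Q κ x au cu av cv th th' sg tu) (hs : Sub B' B) :
    RlD F B' y u v n P Q κ x au cu av cv th th' sg tu :=
  ⟨fun ω hω => h.bau ω (hs ω hω), fun ω hω => h.bcu ω (hs ω hω), fun ω hω => h.bav ω (hs ω hω),
    fun ω hω => h.bcv ω (hs ω hω), fun ω hω => h.bth ω (hs ω hω), fun ω hω => h.du ω (hs ω hω),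
    fun ω hω => h.dv ω (hs ω hω), fun ω hω => h.cl ω (hs ω hω), fun ω hω => h.rel ω (hs ω hω)⟩

/-- **The coefficient of the relation is small.** -/
theorem ng_one {S : PCl m} {C₀ : ℝ} (htm : TmC S C₀)
    {L : Finset (Fin m) → Fin m → ℝ → ℝ → ℝ} (hL : LamW S L) {y u v : Fin m}
    (hact : ActF S y) {W κ s Q : ℝ} (hW0 : 0 ≤ W) (hs : 0 < s) (hκ : 2 * s ≤ κ)
    (h1 : W ≤ L {y} u W 0) (h2 : L {y} u W 0 + 2 * s ≤ 1) :
    ∃ x₀ : ℝ, 0 < x₀ ∧ ∀ x : ℝ, 0 < x → x ≤ x₀ → ∃ δ₀ : ℝ, 0 < δ₀ ∧ ∀ δ : ℝ, 0 < δ → δ ≤ δ₀ →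
      Bas S (fun J F A => ∀ (B : F.Ω → Prop) (au cu av cv th c a0 : PtT F → ℝ)
        (th' sg tu a0' : LnT F → ℝ), Sub B A → Real.exp (-(δ * J)) * Pe F.p A ≤ Pe F.p B →
        RlD F B y u v ⌊W * J⌋₊ (L {y} u W 0 - W) Q κ x au cu av cv th th' sg tu →
        (∀ ω, B ω → |F.d ω v - c (ptr F J ω) - a0 (ptr F J ω) * F.d ω y -
          th (ptr F J ω) * F.d ω u| ≤ 2 * Ex J (Q - x) ∧
          a0 (ptr F J ω) = a0' (slam F ⌊W * J⌋₊ ω)) →
        ∃ B₂ : F.Ω → Prop, Sub B₂ B ∧ 3 / 4 * Pe F.p B ≤ Pe F.p B₂ ∧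
          ∀ ω, B₂ ω → |tu (slam F ⌊W * J⌋₊ ω)| ≤
            Ex J (Q - (L {y} u W 0 - W) - 5 * x - s)) := by
  classical
  obtain ⟨d, hd, hl⟩ := lvl1 hL hW0 hs h1 h2
  obtain ⟨P, hP⟩ : ∃ P, P = L {y} u W 0 - W := ⟨_, rfl⟩
  rw [← hP] at hl ⊢
  refine ⟨min d s, lt_min hd hs, ?_⟩
  intro x hx hx0
  have hx1 : x ≤ d := hx0.trans (min_le_left _ _)
  have hx2 : x ≤ s := hx0.trans (min_le_right _ _)
  obtain ⟨δ₁, hδ₁, hb₁⟩ := hl x hx hx1
  obtain ⟨τ, hτ, hsp⟩ := bas_lrg (spr_e htm hact (γ := x) (η := 1 / 8) hx (by norm_num))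
  refine ⟨min (δ₁ / 2) τ, lt_min (by linarith) hτ, ?_⟩
  intro δ hδ hδ0
  have hδ1 : 2 * δ ≤ δ₁ := by
    have := hδ0.trans (min_le_left _ _)
    linarith
  have hδ2 : δ ≤ τ := hδ0.trans (min_le_right _ _)
  obtain ⟨J₁, hJ₁⟩ := Ex_ev hx 64
  obtain ⟨J₂, hJ₂⟩ := exp_ev hδ
  refine Bas.mono (max J₁ J₂) (hb₁.and (hsp δ hδ2)) ?_
  rintro J hJ F A ⟨hlv, hspr⟩ B au cu av cv th c a0 th' sg tu a0' hBA hPB hR hc
  have hC := hJ₁ J ((le_max_left _ _).trans hJ)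
  have hE := hJ₂ J ((le_max_right _ _).trans hJ)
  -- the slopes over `y`
  obtain ⟨B₁, b1, b2, b3⟩ := hspr B hBA hPB (fun p => c p - cv p) (fun p => a0 p - av p)
    (fun _ => Ex J (Q - 2 * x)) (by
      intro ω hω
      refine ⟨Ex_pos _ _, ?_⟩
      show |c (ptr F J ω) - cv (ptr F J ω) + (a0 (ptr F J ω) - av (ptr F J ω)) * F.d ω y| ≤ _
      have e1 : c (ptr F J ω) - cv (ptr F J ω) + (a0 (ptr F J ω) - av (ptr F J ω)) * F.d ω y =
          (F.d ω v - th (ptr F J ω) * F.d ω u - cv (ptr F J ω) - av (ptr F J ω) * F.d ω y) -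
          (F.d ω v - c (ptr F J ω) - a0 (ptr F J ω) * F.d ω y -
            th (ptr F J ω) * F.d ω u) := by ring
      rw [e1]
      refine (abs_sub _ _).trans ?_
      have k1 := hR.dv ω hω
      have k2 := (hc ω hω).1
      have k3 : Ex J (Q + κ) ≤ Ex J (Q - x) := Ex_mono (by linarith)
      have k4 : 4 * Ex J (Q - x) ≤ Ex J (Q - 2 * x) := Ex_c hC (by norm_num) (by linarith)
      linarith)
  obtain ⟨T, hT⟩ : ∃ T, T = Ex J (Q - P - 5 * x - s) := ⟨_, rfl⟩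
  obtain ⟨D, hD⟩ : ∃ D : F.Ω → Prop, D = fun ω => B₁ ω ∧ T < |tu (slam F ⌊W * J⌋₊ ω)| :=
    ⟨_, rfl⟩
  have hDB : Sub D B₁ := fun ω hω => by
    rw [hD] at hω
    exact hω.1
  have hPD : Pe F.p D ≤ Real.exp (-(δ₁ * J)) * Pe F.p A := by
    refine hlv D au cu (fun σ => -(sg σ - a0' σ) / tu σ) (fun ω hω => hBA ω (b1 ω (hDB ω hω)))
      fun ω hω => ?_
    have hB1 := hDB ω hω
    have hBω := b1 ω hB1
    rw [hD] at hω
    have hq := hω.2
    rw [hT] at hq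
    refine ⟨hR.bau ω hBω, hR.bcu ω hBω, ?_, ?_⟩
    · refine (hR.du ω hBω).trans ?_
      exact Ex_c hC (by norm_num) (by linarith)
    · refine stp (E1 := 2 * Ex J (Q + κ) + Ex J (Q - 3 * x)) (E2 := 2 * Ex J (P + κ))
        (t := Q - P - 5 * x - s) ?_ hq ?_ ?_
      · have e1 : sg (slam F ⌊W * J⌋₊ ω) - a0' (slam F ⌊W * J⌋₊ ω) +
            tu (slam F ⌊W * J⌋₊ ω) * au (ptr F J ω) =
            (sg (slam F ⌊W * J⌋₊ ω) + tu (slam F ⌊W * J⌋₊ ω) * au (ptr F J ω) -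
              av (ptr F J ω)) - (a0 (ptr F J ω) - av (ptr F J ω)) := by
          rw [(hc ω hBω).2]
          ring
        rw [e1]
        refine (abs_sub _ _).trans ?_
        have k1 := hR.rel ω hBω
        have k2 : |a0 (ptr F J ω) - av (ptr F J ω)| ≤ Ex J (-x) * Ex J (Q - 2 * x) := b3 ω hB1
        rw [Ex_mul, show -x + (Q - 2 * x) = Q - 3 * x by ring] at k2
        linarith
      · have k1 : Ex J (Q + κ) ≤ Ex J (Q - 3 * x) := Ex_mono (by linarith)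
        have k2 : 6 * Ex J (Q - 3 * x) ≤ Ex J (P + s + (Q - P - 5 * x - s)) :=
          Ex_c hC (by norm_num) (by linarith)
        linarith
      · have k2 : 4 * Ex J (P + κ) ≤ Ex J (P + s) := Ex_c hC (by norm_num) (by linarith)
        linarith
  have hPD' := sml_of hδ1 hE hPD hPB
  have hparts := Pe_parts (p := F.p) (B := B₁) (B' := D) hDB
  have hBn := Pe_nonneg F.isLaw B
  refine ⟨fun ω => B₁ ω ∧ ¬ D ω, fun ω hω => b1 ω hω.1, by linarith, fun ω hω => ?_⟩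
  by_contra hcon
  refine hω.2 ?_
  rw [hD, hT]
  exact ⟨hω.1, not_le.1 hcon⟩

/-- The coarsening of the windows. -/
theorem cs_ex (F : Fam m J) {w w' : ℕ} (hw : w ≤ w') (hw' : w' ≤ J) :
    ∃ cs : LnT F → LnT F, ∀ ω, slam F w ω = cs (slam F w' ω) :=
  ⟨fun s => (s.1, s.2.1, s.2.2 / 2 ^ (w' - w)), fun ω => slam_coarse F hw hw' ω⟩

/-- The windows. -/
theorem win_le {W a : ℝ} (hWa : W ≤ a) (ha : a ≤ 1) (J : ℕ) :
    ⌊W * (J : ℝ)⌋₊ ≤ ⌊a * (J : ℝ)⌋₊ ∧ ⌊a * (J : ℝ)⌋₊ ≤ J := by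
  have hJ0 : (0 : ℝ) ≤ J := Nat.cast_nonneg J
  refine ⟨Nat.floor_le_floor (mul_le_mul_of_nonneg_right hWa hJ0), ?_⟩
  refine (Nat.floor_le_floor (mul_le_mul_of_nonneg_right ha hJ0)).trans ?_
  rw [one_mul, Nat.floor_natCast]

/-- **Case 2**: the slopes of `v` are closed at the smaller window. -/
theorem ng_two {S : PCl m} {C₀ : ℝ} (htm : TmC S C₀)
    {L : Finset (Fin m) → Fin m → ℝ → ℝ → ℝ} (hL : LamW S L) {y u v : Fin m} (hyu : y ≠ u)
    (hact : ActF S y) {W a P Q κ s : ℝ} (hW0 : 0 ≤ W) (hWa : W ≤ a) (ha1 : a ≤ 1) (hs : 0 < s)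
    (h1 : a ≤ L {y, u} v a 0) (h2 : L {y, u} v a 0 + 2 * s ≤ 1)
    (h3 : L {y, u} v a 0 - a + 4 * s ≤ Q + κ)
    (h4 : L {y, u} v a 0 - a + 4 * s ≤ Q - P + (L {y} u a 0 - a))
    (hu' : HasA S {y} u a (L {y} u a 0)) :
    ∃ x₀ : ℝ, 0 < x₀ ∧ ∀ x : ℝ, 0 < x → x ≤ x₀ → ∃ δ₀ : ℝ, 0 < δ₀ ∧ ∀ δ : ℝ, 0 < δ → δ ≤ δ₀ →
      Bas S (fun J F A => ∀ (B : F.Ω → Prop) (au cu av cv th : PtT F → ℝ)
        (th' sg tu : LnT F → ℝ), Sub B A → Real.exp (-(δ * J)) * Pe F.p A ≤ Pe F.p B →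
        RlD F B y u v ⌊W * J⌋₊ P Q κ x au cu av cv th th' sg tu →
        (∀ ω, B ω → |tu (slam F ⌊W * J⌋₊ ω)| ≤ Ex J (Q - P - 5 * x - s)) → False) := by
  classical
  obtain ⟨d, hd, hl⟩ := lvl2 hL hyu (hW0.trans hWa) hs h1 h2
  obtain ⟨qD, hqD⟩ : ∃ q, q = L {y, u} v a 0 - a := ⟨_, rfl⟩
  obtain ⟨qU, hqU⟩ : ∃ q, q = L {y} u a 0 - a := ⟨_, rfl⟩
  rw [← hqD] at hl h3 h4
  rw [← hqU] at h4
  refine ⟨min d (s / 8), lt_min hd (by linarith), ?_⟩
  intro x hx hx0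
  have hx1 : x ≤ d := hx0.trans (min_le_left _ _)
  have hx2 : 8 * x ≤ s := by
    have := hx0.trans (min_le_right _ _)
    linarith
  obtain ⟨δ₁, hδ₁, hb₁⟩ := hl x hx hx1
  obtain ⟨τ, hτ, hsp⟩ := bas_lrg (spr_e htm hact (γ := x) (η := 1 / 8) hx (by norm_num))
  obtain ⟨τ', hτ', hha⟩ := bas_lrg (has1 hu' hx)
  refine ⟨min (δ₁ / 2) (min τ τ'), lt_min (by linarith) (lt_min hτ hτ'), ?_⟩
  intro δ hδ hδ0
  have hδ1 : 2 * δ ≤ δ₁ := by
    have := hδ0.trans (min_le_left _ _)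
    linarith
  have hδ2 : δ ≤ τ := hδ0.trans ((min_le_right _ _).trans (min_le_left _ _))
  have hδ3 : δ ≤ τ' := hδ0.trans ((min_le_right _ _).trans (min_le_right _ _))
  obtain ⟨J₁, hJ₁⟩ := Ex_ev hx 64
  obtain ⟨J₂, hJ₂⟩ := exp_ev hδ
  have hpos : Bas S (fun _ F A => 0 < Pe F.p A) := ⟨1, one_pos, 0, fun J _ F A hA =>
    (htm 1 J F A one_pos hA).1⟩
  refine Bas.mono (max J₁ J₂) ((hb₁.and (hsp δ hδ2)).and ((hha δ hδ3).and hpos)) ?_
  rintro J hJ F A ⟨⟨hlv, hspr⟩, hhas, hA0⟩ B au cu av cv th th' sg tu hBA hPB hR htu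
  have hC := hJ₁ J ((le_max_left _ _).trans hJ)
  have hE := hJ₂ J ((le_max_right _ _).trans hJ)
  obtain ⟨ua, ca, ua', hlab⟩ := hhas B hBA hPB
  obtain ⟨w1, w2⟩ := win_le hWa ha1 J
  obtain ⟨cs, hcs⟩ := cs_ex F w1 w2
  -- the slope of `u`
  obtain ⟨B₁, b1, b2, b3⟩ := hspr B hBA hPB (fun p => cu p - ca p) (fun p => au p - ua p)
    (fun _ => 2 * Ex J (P + κ) + 2 * Ex J (qU - x)) (by
      intro ω hω
      have p1 := Ex_pos J (P + κ)
      have p2 := Ex_pos J (qU - x)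
      refine ⟨by linarith, ?_⟩
      show |cu (ptr F J ω) - ca (ptr F J ω) + (au (ptr F J ω) - ua (ptr F J ω)) * F.d ω y| ≤ _
      have e1 : cu (ptr F J ω) - ca (ptr F J ω) + (au (ptr F J ω) - ua (ptr F J ω)) * F.d ω y =
          (F.d ω u - ca (ptr F J ω) - ua (ptr F J ω) * F.d ω y) -
          (F.d ω u - cu (ptr F J ω) - au (ptr F J ω) * F.d ω y) := by ring
      rw [e1]
      refine (abs_sub _ _).trans ?_
      have k1 := hR.du ω hω
      have k2 := (hlab ω hω).2.2.1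
      rw [show L {y} u a 0 - a - x = qU - x by rw [hqU]] at k2
      linarith)
  have hPD : Pe F.p B₁ ≤ Real.exp (-(δ₁ * J)) * Pe F.p A := by
    refine hlv B₁ av th cv (fun σ => sg (cs σ) + tu (cs σ) * ua' σ) (fun σ => th' (cs σ))
      (fun ω hω => hBA ω (b1 ω hω)) fun ω hω => ?_
    have hBω := b1 ω hω
    refine ⟨hR.bav ω hBω, hR.bth ω hBω, hR.bcv ω hBω, ?_, ?_, ?_⟩
    · have k1 := hR.dv ω hBω
      have e1 : F.d ω v - cv (ptr F J ω) - (av (ptr F J ω) * F.d ω y +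
          th (ptr F J ω) * F.d ω u) = F.d ω v - th (ptr F J ω) * F.d ω u - cv (ptr F J ω) -
          av (ptr F J ω) * F.d ω y := by ring
      rw [e1]
      exact k1.trans (Ex_c hC (by norm_num) (by linarith))
    · show |sg (cs (slam F ⌊a * J⌋₊ ω)) + tu (cs (slam F ⌊a * J⌋₊ ω)) *
        ua' (slam F ⌊a * J⌋₊ ω) - av (ptr F J ω)| ≤ _
      rw [← hcs ω, ← (hlab ω hBω).2.2.2]
      have e1 : sg (slam F ⌊W * J⌋₊ ω) + tu (slam F ⌊W * J⌋₊ ω) * ua (ptr F J ω) -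
          av (ptr F J ω) = (sg (slam F ⌊W * J⌋₊ ω) + tu (slam F ⌊W * J⌋₊ ω) *
          au (ptr F J ω) - av (ptr F J ω)) - tu (slam F ⌊W * J⌋₊ ω) *
          (au (ptr F J ω) - ua (ptr F J ω)) := by ring
      rw [e1]
      refine (abs_sub _ _).trans ?_
      have k1 := hR.rel ω hBω
      have k2 := htu ω hBω
      have k3 : |au (ptr F J ω) - ua (ptr F J ω)| ≤
        Ex J (-x) * (2 * Ex J (P + κ) + 2 * Ex J (qU - x)) := b3 ω hω
      rw [abs_mul]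
      have p1 := Ex_pos J (P + κ)
      have p2 := Ex_pos J (qU - x)
      have p3 := Ex_pos J (-x)
      have k4 : |tu (slam F ⌊W * J⌋₊ ω)| * (2 * Ex J (P + κ)) ≤
          Ex J (Q - P - 5 * x - s) * (2 * Ex J (P + κ)) :=
        mul_le_mul_of_nonneg_right k2 (by linarith)
      have k5 : |tu (slam F ⌊W * J⌋₊ ω)| * |au (ptr F J ω) - ua (ptr F J ω)| ≤
          Ex J (Q - P - 5 * x - s) *
            (Ex J (-x) * (2 * Ex J (P + κ) + 2 * Ex J (qU - x))) :=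
        mul_le_mul k2 k3 (abs_nonneg _) (Ex_pos _ _).le
      have e2 : Ex J (Q - P - 5 * x - s) * (2 * Ex J (P + κ)) = 2 * Ex J (Q + κ - 5 * x - s) := by
        rw [mul_left_comm, Ex_mul]
        congr 2
        ring
      have e3 : Ex J (Q - P - 5 * x - s) *
          (Ex J (-x) * (2 * Ex J (P + κ) + 2 * Ex J (qU - x))) =
          2 * Ex J (Q + κ - 6 * x - s) + 2 * Ex J (Q - P + qU - 7 * x - s) := by
        rw [← mul_assoc, Ex_mul, mul_add, mul_left_comm, Ex_mul, mul_left_comm, Ex_mul]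
        congr 3 <;> ring
      rw [e2] at k4
      rw [e3] at k5
      have j1 : 32 * Ex J (Q + κ) ≤ Ex J (qD + s) := Ex_c hC (by norm_num) (by linarith)
      have j2 : 32 * Ex J (Q + κ - 5 * x - s) ≤ Ex J (qD + s) :=
        Ex_c hC (by norm_num) (by linarith)
      have j3 : 32 * Ex J (Q + κ - 6 * x - s) ≤ Ex J (qD + s) :=
        Ex_c hC (by norm_num) (by linarith)
      have j4 : 32 * Ex J (Q - P + qU - 7 * x - s) ≤ Ex J (qD + s) :=
        Ex_c hC (by norm_num) (by linarith)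
      have j5 := Ex_pos J (qD + s)
      linarith
    · show |th' (cs (slam F ⌊a * J⌋₊ ω)) - th (ptr F J ω)| ≤ _
      rw [← hcs ω, ← hR.cl ω hBω, sub_self, abs_zero]
      exact (Ex_pos _ _).le
  have hPD' := sml_of hδ1 hE hPD hPB
  have h5 : 0 < Pe F.p B := lt_of_lt_of_le (mul_pos (Real.exp_pos _) hA0) hPB
  linarith

/-- Parts of large parts. -/
theorem lrg_sub {F : Fam m J} {A B B' : F.Ω → Prop} {δ : ℝ}
    (hJ : Real.exp (-(δ * J)) ≤ 1 / 64) (hB : Real.exp (-(δ * J)) * Pe F.p A ≤ Pe F.p B)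
    (hB' : 1 / 64 * Pe F.p B ≤ Pe F.p B') :
    Real.exp (-((2 * δ) * J)) * Pe F.p A ≤ Pe F.p B' := by
  have hA := Pe_nonneg F.isLaw A
  have e1 : Real.exp (-((2 * δ) * J)) = Real.exp (-(δ * J)) * Real.exp (-(δ * J)) := by
    rw [← Real.exp_add]
    congr 1
    ring
  rw [e1, mul_assoc]
  have hBn := Pe_nonneg F.isLaw B
  calc Real.exp (-(δ * J)) * (Real.exp (-(δ * J)) * Pe F.p A) ≤
      Real.exp (-(δ * J)) * Pe F.p B := mul_le_mul_of_nonneg_left hB (Real.exp_pos _).le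
    _ ≤ 1 / 64 * Pe F.p B := mul_le_mul_of_nonneg_right hJ hBn
    _ ≤ Pe F.p B' := hB'

/-- **Case 1**: the coefficient of `u` over the smaller windows is closed at the larger window. -/
theorem ng_thr {S : PCl m} {C₀ : ℝ} (htm : TmC S C₀)
    {L : Finset (Fin m) → Fin m → ℝ → ℝ → ℝ} (hL : LamW S L) {y u v : Fin m} (hyu : y ≠ u)
    (hact : ActF S y) {W a P Q κ s : ℝ} (hW0 : 0 ≤ W) (hWa : W ≤ a) (ha1 : a ≤ 1) (hs : 0 < s)
    (hP : P = L {y} u W 0 - W) (hQ : Q = L {y, u} v W 0 - W)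
    (g1 : W ≤ L {y, u} v W 0) (g2 : L {y, u} v W 0 + 2 * s ≤ 1)
    (g3 : a ≤ L {y} u a 0) (g4 : L {y} u a 0 + 2 * s ≤ 1)
    (h0 : P + 2 * s ≤ Q) (h1 : 8 * s ≤ κ) (h2 : L {y} u a 0 - a + 8 * s ≤ P + κ)
    (h3 : L {y} u a 0 - a - P + 8 * s ≤ L {y, u} v a 0 - a - Q)
    (hu : HasA S {y} u W (L {y} u W 0)) (hv' : HasA S {y, u} v a (L {y, u} v a 0)) :
    ∃ x₀ : ℝ, 0 < x₀ ∧ ∀ x : ℝ, 0 < x → x ≤ x₀ → ∃ δ₀ : ℝ, 0 < δ₀ ∧ ∀ δ : ℝ, 0 < δ → δ ≤ δ₀ →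
      Bas S (fun J F A => ∀ (B : F.Ω → Prop) (au cu av cv th : PtT F → ℝ)
        (th' sg tu : LnT F → ℝ), Sub B A → Real.exp (-(δ * J)) * Pe F.p A ≤ Pe F.p B →
        RlD F B y u v ⌊W * J⌋₊ P Q κ x au cu av cv th th' sg tu →
        (∀ ω, B ω → |tu (slam F ⌊W * J⌋₊ ω)| ≤ Ex J (Q - P - 5 * x - s)) → False) := by
  classical
  obtain ⟨d, hd, hl⟩ := lvl2 hL hyu hW0 hs g1 g2
  obtain ⟨d', hd', hl'⟩ := lvl1 hL (hW0.trans hWa) hs g3 g4
  obtain ⟨qD, hqD⟩ : ∃ q, q = L {y, u} v a 0 - a := ⟨_, rfl⟩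
  obtain ⟨qU, hqU⟩ : ∃ q, q = L {y} u a 0 - a := ⟨_, rfl⟩
  rw [← hqD] at h3
  rw [← hqU] at h2 h3 hl'
  rw [← hQ] at hl
  refine ⟨min (d / 2) (min d' (s / 8)), lt_min (by linarith) (lt_min hd' (by linarith)), ?_⟩
  intro x hx hx0
  have hx1 : 2 * x ≤ d := by
    have := hx0.trans (min_le_left _ _)
    linarith
  have hx1' : x ≤ d' := hx0.trans ((min_le_right _ _).trans (min_le_left _ _))
  have hx2 : 8 * x ≤ s := by
    have := hx0.trans ((min_le_right _ _).trans (min_le_right _ _))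
    linarith
  obtain ⟨δ₁, hδ₁, hb₁⟩ := hl (2 * x) (by linarith) hx1
  obtain ⟨δ₂, hδ₂, hb₂⟩ := hl' x hx hx1'
  obtain ⟨τ, hτ, hsp⟩ := bas_lrg (spr_e htm hact (γ := x) (η := 1 / 8) hx (by norm_num))
  obtain ⟨τ', hτ', hha⟩ := bas_lrg (has1 hu hx)
  obtain ⟨τ'', hτ'', hhb⟩ := bas_lrg (has2 hyu hv' hx)
  refine ⟨min (min (δ₁ / 2) (δ₂ / 2)) (min (τ / 2) (min τ' τ'')),
    lt_min (lt_min (by linarith) (by linarith)) (lt_min (by linarith) (lt_min hτ' hτ'')), ?_⟩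
  intro δ hδ hδ0
  have hδ1 : 2 * δ ≤ δ₁ := by
    have := hδ0.trans ((min_le_left _ _).trans (min_le_left _ _))
    linarith
  have hδ1' : 2 * δ ≤ δ₂ := by
    have := hδ0.trans ((min_le_left _ _).trans (min_le_right _ _))
    linarith
  have hδ2 : 2 * δ ≤ τ := by
    have := hδ0.trans ((min_le_right _ _).trans (min_le_left _ _))
    linarith
  have hδ3 : δ ≤ τ' :=
    hδ0.trans ((min_le_right _ _).trans ((min_le_right _ _).trans (min_le_left _ _)))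
  have hδ4 : δ ≤ τ'' :=
    hδ0.trans ((min_le_right _ _).trans ((min_le_right _ _).trans (min_le_right _ _)))
  obtain ⟨J₁, hJ₁⟩ := Ex_ev hx 64
  obtain ⟨J₂, hJ₂⟩ := exp_ev hδ
  have hpos : Bas S (fun _ F A => 0 < Pe F.p A) := ⟨1, one_pos, 0, fun J _ F A hA =>
    (htm 1 J F A one_pos hA).1⟩
  refine Bas.mono (max J₁ J₂) (((hb₁.and hb₂).and (hsp (2 * δ) hδ2)).and
    (((hha δ hδ3).and (hhb δ hδ4)).and hpos)) ?_
  rintro J hJ F A ⟨⟨⟨hlv, hlv'⟩, hspr⟩, ⟨hhas, hhas'⟩, hA0⟩ B au cu av cv th th' sg tu hBA hPB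
    hR htu
  have hC := hJ₁ J ((le_max_left _ _).trans hJ)
  have hE := hJ₂ J ((le_max_right _ _).trans hJ)
  obtain ⟨uw, cw, uw', hlab⟩ := hhas B hBA hPB
  obtain ⟨va, vb, ca, va', vb', hlab'⟩ := hhas' B hBA hPB
  obtain ⟨w1, w2⟩ := win_le hWa ha1 J
  obtain ⟨cs, hcs⟩ := cs_ex F w1 w2
  have hBp : 0 < Pe F.p B := lt_of_lt_of_le (mul_pos (Real.exp_pos _) hA0) hPB
  have hlrg : ∀ B' : F.Ω → Prop, 1 / 64 * Pe F.p B ≤ Pe F.p B' →
      Real.exp (-((2 * δ) * J)) * Pe F.p A ≤ Pe F.p B' := fun B' h => lrg_sub hE hPB h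
  -- the slopes of `v`
  obtain ⟨B₁, b1, b2, b3⟩ := hspr B hBA (hlrg B (by linarith))
    (fun p => ca p - cv p + (vb p - th p) * cu p) (fun p => va p - av p + (vb p - th p) * au p)
    (fun p => 2 * Ex J (Q + κ) + 2 * Ex J (qD - x) + |vb p - th p| * (2 * Ex J (P + κ))) (by
      intro ω hω
      have p1 := Ex_pos J (P + κ)
      have p2 := Ex_pos J (qD - x)
      have p3 := Ex_pos J (Q + κ)
      have p4 : 0 ≤ |vb (ptr F J ω) - th (ptr F J ω)| * (2 * Ex J (P + κ)) := by positivity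
      refine ⟨by linarith, ?_⟩
      show |ca (ptr F J ω) - cv (ptr F J ω) + (vb (ptr F J ω) - th (ptr F J ω)) *
        cu (ptr F J ω) + (va (ptr F J ω) - av (ptr F J ω) + (vb (ptr F J ω) -
        th (ptr F J ω)) * au (ptr F J ω)) * F.d ω y| ≤ _
      have e1 : ca (ptr F J ω) - cv (ptr F J ω) + (vb (ptr F J ω) - th (ptr F J ω)) *
          cu (ptr F J ω) + (va (ptr F J ω) - av (ptr F J ω) + (vb (ptr F J ω) -
          th (ptr F J ω)) * au (ptr F J ω)) * F.d ω y =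
          (F.d ω v - th (ptr F J ω) * F.d ω u - cv (ptr F J ω) - av (ptr F J ω) * F.d ω y) -
          (F.d ω v - ca (ptr F J ω) - (va (ptr F J ω) * F.d ω y +
            vb (ptr F J ω) * F.d ω u)) - (vb (ptr F J ω) - th (ptr F J ω)) *
          (F.d ω u - cu (ptr F J ω) - au (ptr F J ω) * F.d ω y) := by ring
      rw [e1]
      have k1 := hR.du ω hω
      have k2 := hR.dv ω hω
      have k3 := (hlab' ω hω).2.2.2.1
      rw [show L {y, u} v a 0 - a - x = qD - x by rw [hqD]] at k3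
      refine (abs_sub _ _).trans (add_le_add ((abs_sub _ _).trans (add_le_add k2 k3)) ?_)
      rw [abs_mul]
      exact mul_le_mul_of_nonneg_left k1 (abs_nonneg _))
  -- the coefficient of `u`
  obtain ⟨T, hT⟩ : ∃ T, T = Ex J (Q - P + 4 * s) := ⟨_, rfl⟩
  have hT0 : 0 < T := by rw [hT]; exact Ex_pos _ _
  obtain ⟨D, hD⟩ : ∃ D : F.Ω → Prop, D = fun ω => B₁ ω ∧
    T < |tu (slam F ⌊W * J⌋₊ ω) - (vb (ptr F J ω) - th (ptr F J ω))| := ⟨_, rfl⟩
  have hDB : Sub D B₁ := fun ω hω => by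
    rw [hD] at hω
    exact hω.1
  have hPD : Pe F.p D ≤ Real.exp (-(δ₂ * J)) * Pe F.p A := by
    refine hlv' D au cu (fun σ => -(sg (cs σ) - va' σ) / (tu (cs σ) - (vb' σ - th' (cs σ))))
      (fun ω hω => hBA ω (b1 ω (hDB ω hω))) fun ω hω => ?_
    have hB1 := hDB ω hω
    have hBω := b1 ω hB1
    rw [hD] at hω
    have hq := hω.2
    rw [hT] at hq
    refine ⟨hR.bau ω hBω, hR.bcu ω hBω, ?_, ?_⟩
    · refine (hR.du ω hBω).trans ?_
      exact Ex_c hC (by norm_num) (by linarith)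
    · show |-(sg (cs (slam F ⌊a * J⌋₊ ω)) - va' (slam F ⌊a * J⌋₊ ω)) /
        (tu (cs (slam F ⌊a * J⌋₊ ω)) - (vb' (slam F ⌊a * J⌋₊ ω) -
        th' (cs (slam F ⌊a * J⌋₊ ω)))) - au (ptr F J ω)| ≤ _
      rw [← hcs ω, ← hR.cl ω hBω, ← (hlab' ω hBω).2.2.2.2.1, ← (hlab' ω hBω).2.2.2.2.2]
      obtain ⟨t, ht⟩ : ∃ t, t = tu (slam F ⌊W * J⌋₊ ω) := ⟨_, rfl⟩
      obtain ⟨De, hDe⟩ : ∃ De, De = vb (ptr F J ω) - th (ptr F J ω) := ⟨_, rfl⟩
      have k0 := htu ω hBω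
      have k1 := hR.rel ω hBω
      have k2 : |va (ptr F J ω) - av (ptr F J ω) + (vb (ptr F J ω) - th (ptr F J ω)) *
          au (ptr F J ω)| ≤ Ex J (-x) * (2 * Ex J (Q + κ) + 2 * Ex J (qD - x) +
          |vb (ptr F J ω) - th (ptr F J ω)| * (2 * Ex J (P + κ))) := b3 ω hB1
      rw [← ht, ← hDe] at hq ⊢
      rw [← ht] at k0 k1
      rw [← hDe] at k2
      refine stp (E1 := 2 * Ex J (Q + κ) + |t| * (2 * Ex J (P + κ)) +
        (Ex J (-x) * (2 * Ex J (Q + κ) + 2 * Ex J (qD - x)) +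
          |t| * (Ex J (-x) * (2 * Ex J (P + κ)))))
        (E2 := Ex J (-x) * (2 * Ex J (P + κ))) (t := Q - P + 4 * s) ?_ hq ?_ ?_
      · have e1 : sg (slam F ⌊W * J⌋₊ ω) - va (ptr F J ω) + (t - De) * au (ptr F J ω) =
            (sg (slam F ⌊W * J⌋₊ ω) + t * au (ptr F J ω) - av (ptr F J ω)) -
            (va (ptr F J ω) - av (ptr F J ω) + De * au (ptr F J ω)) := by ring
        rw [e1]
        refine (abs_sub _ _).trans ?_
        have p1 : 0 ≤ Ex J (-x) * (2 * Ex J (P + κ)) :=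
          mul_nonneg (Ex_pos _ _).le (mul_nonneg (by norm_num) (Ex_pos _ _).le)
        have k3 : |De| ≤ |t| + |t - De| := by
          have e2 : De = t - (t - De) := by ring
          calc |De| = |t - (t - De)| := by rw [← e2]
            _ ≤ |t| + |t - De| := abs_sub _ _
        have k4 : |De| * (Ex J (-x) * (2 * Ex J (P + κ))) ≤ (|t| + |t - De|) *
          (Ex J (-x) * (2 * Ex J (P + κ))) := mul_le_mul_of_nonneg_right k3 p1
        have e3 : Ex J (-x) * (2 * Ex J (Q + κ) + 2 * Ex J (qD - x) +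
            |De| * (2 * Ex J (P + κ))) = Ex J (-x) * (2 * Ex J (Q + κ) + 2 * Ex J (qD - x)) +
            |De| * (Ex J (-x) * (2 * Ex J (P + κ))) := by ring
        rw [e3] at k2
        have e4 : (|t| + |t - De|) * (Ex J (-x) * (2 * Ex J (P + κ))) =
          |t| * (Ex J (-x) * (2 * Ex J (P + κ))) +
          |t - De| * (Ex J (-x) * (2 * Ex J (P + κ))) := by ring
        rw [e4] at k4
        linarith
      · have p1 := Ex_pos J (P + κ)
        have p2 : 0 ≤ Ex J (-x) * (2 * Ex J (P + κ)) :=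
          mul_nonneg (Ex_pos _ _).le (mul_nonneg (by norm_num) (Ex_pos _ _).le)
        have i1 : |t| * (2 * Ex J (P + κ)) ≤ Ex J (Q - P - 5 * x - s) * (2 * Ex J (P + κ)) :=
          mul_le_mul_of_nonneg_right k0 (by linarith)
        have i2 : |t| * (Ex J (-x) * (2 * Ex J (P + κ))) ≤ Ex J (Q - P - 5 * x - s) *
          (Ex J (-x) * (2 * Ex J (P + κ))) := mul_le_mul_of_nonneg_right k0 p2
        have e1 : Ex J (Q - P - 5 * x - s) * (2 * Ex J (P + κ)) =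
            2 * Ex J (Q + κ - 5 * x - s) := by
          rw [mul_left_comm, Ex_mul]
          congr 2
          ring
        have e2 : Ex J (Q - P - 5 * x - s) * (Ex J (-x) * (2 * Ex J (P + κ))) =
            2 * Ex J (Q + κ - 6 * x - s) := by
          rw [← mul_assoc, Ex_mul, mul_left_comm, Ex_mul]
          congr 2
          ring
        have e3 : Ex J (-x) * (2 * Ex J (Q + κ) + 2 * Ex J (qD - x)) =
            2 * Ex J (Q + κ - x) + 2 * Ex J (qD - 2 * x) := by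
          rw [mul_add, mul_left_comm, Ex_mul, mul_left_comm, Ex_mul]
          congr 3 <;> ring
        rw [e1] at i1
        rw [e2] at i2
        rw [e3]
        have j0 := Ex_pos J (qU + s + (Q - P + 4 * s))
        have j1 : 32 * Ex J (Q + κ) ≤ Ex J (qU + s + (Q - P + 4 * s)) :=
          Ex_c hC (by norm_num) (by linarith)
        have j2 : 32 * Ex J (Q + κ - 5 * x - s) ≤ Ex J (qU + s + (Q - P + 4 * s)) :=
          Ex_c hC (by norm_num) (by linarith)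
        have j3 : 32 * Ex J (Q + κ - 6 * x - s) ≤ Ex J (qU + s + (Q - P + 4 * s)) :=
          Ex_c hC (by norm_num) (by linarith)
        have j4 : 32 * Ex J (Q + κ - x) ≤ Ex J (qU + s + (Q - P + 4 * s)) :=
          Ex_c hC (by norm_num) (by linarith)
        have j5 : 32 * Ex J (qD - 2 * x) ≤ Ex J (qU + s + (Q - P + 4 * s)) :=
          Ex_c hC (by norm_num) (by linarith)
        linarith
      · have e1 : Ex J (-x) * (2 * Ex J (P + κ)) = 2 * Ex J (P + κ - x) := by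
          rw [mul_left_comm, Ex_mul]
          congr 2
          ring
        rw [e1]
        have k5 : 4 * Ex J (P + κ - x) ≤ Ex J (qU + s) := Ex_c hC (by norm_num) (by linarith)
        linarith
  have hPD' := sml_of hδ1' hE hPD hPB
  have hparts := Pe_parts (p := F.p) (B := B₁) (B' := D) hDB
  obtain ⟨B₂, hB₂⟩ : ∃ B₂ : F.Ω → Prop, B₂ = fun ω => B₁ ω ∧ ¬ D ω := ⟨_, rfl⟩
  rw [← hB₂] at hparts
  have hB₂1 : Sub B₂ B₁ := fun ω hω => by
    rw [hB₂] at hω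
    exact hω.1
  have hB₂T : ∀ ω, B₂ ω → |tu (slam F ⌊W * J⌋₊ ω) - (vb (ptr F J ω) - th (ptr F J ω))| ≤ T := by
    intro ω hω
    rw [hB₂] at hω
    by_contra hcon
    refine hω.2 ?_
    rw [hD]
    exact ⟨hω.1, not_le.1 hcon⟩
  have hPB₂ : 3 / 4 * Pe F.p B ≤ Pe F.p B₂ := by linarith
  -- the slope of `u`
  obtain ⟨B₃, c1, c2, c3⟩ := hspr B₂ (fun ω hω => hBA ω (b1 ω (hB₂1 ω hω)))
    (hlrg B₂ (by linarith)) (fun p => cu p - cw p) (fun p => au p - uw p)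
    (fun _ => 2 * Ex J (P + κ) + 2 * Ex J (P - x)) (by
      intro ω hω
      have hBω := b1 ω (hB₂1 ω hω)
      have p1 := Ex_pos J (P + κ)
      have p2 := Ex_pos J (P - x)
      refine ⟨by linarith, ?_⟩
      show |cu (ptr F J ω) - cw (ptr F J ω) + (au (ptr F J ω) - uw (ptr F J ω)) * F.d ω y| ≤ _
      have e1 : cu (ptr F J ω) - cw (ptr F J ω) + (au (ptr F J ω) - uw (ptr F J ω)) * F.d ω y =
          (F.d ω u - cw (ptr F J ω) - uw (ptr F J ω) * F.d ω y) -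
          (F.d ω u - cu (ptr F J ω) - au (ptr F J ω) * F.d ω y) := by ring
      rw [e1]
      refine (abs_sub _ _).trans ?_
      have k1 := hR.du ω hBω
      have k2 := (hlab ω hBω).2.2.1
      rw [← hP] at k2
      linarith)
  -- rounding
  obtain ⟨M, hM⟩ : ∃ M, M = ⌊(Q - P + 4 * s) * (J : ℝ)⌋₊ := ⟨_, rfl⟩
  have pM : (0 : ℝ) < 2 ^ M := by positivity
  have hTM : T ≤ 1 / 2 ^ M := by
    rw [hT, hM]
    exact Ex_lo (by linarith)
  have hMT : 1 / 2 ^ M ≤ 2 * T := by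
    rw [hT]
    exact Ex_hi (by rw [hM])
  obtain ⟨B₄, d1, d2, φ, d3⟩ := Pool.S6K.exact_label F.isLaw (n := 1) 3
    (slam F ⌊W * J⌋₊) (fun ω _ => ⌊(2 : ℝ) ^ M * vb (ptr F J ω)⌋) B₃ (by
      intro ω ω' hω hω' hs' _
      have k1 := hB₂T ω (c1 ω hω)
      have k2 := hB₂T ω' (c1 ω' hω')
      have k3 := hR.cl ω (b1 ω (hB₂1 ω (c1 ω hω)))
      have k4 := hR.cl ω' (b1 ω' (hB₂1 ω' (c1 ω' hω')))
      have k5 : |vb (ptr F J ω) - vb (ptr F J ω')| ≤ 2 / 2 ^ M := by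
        rw [k3] at k1
        rw [k4, ← hs'] at k2
        have e1 : vb (ptr F J ω) - vb (ptr F J ω') =
            (tu (slam F ⌊W * J⌋₊ ω) - (vb (ptr F J ω') - th' (slam F ⌊W * J⌋₊ ω))) -
            (tu (slam F ⌊W * J⌋₊ ω) - (vb (ptr F J ω) - th' (slam F ⌊W * J⌋₊ ω))) := by ring
        rw [e1]
        refine (abs_sub _ _).trans ?_
        have e2 : (2 : ℝ) / 2 ^ M = 1 / 2 ^ M + 1 / 2 ^ M := by ring
        linarith
      have k6 := floor_near k5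
      have k7 : |((⌊(2 : ℝ) ^ M * vb (ptr F J ω)⌋ - ⌊(2 : ℝ) ^ M * vb (ptr F J ω')⌋ : ℤ) : ℝ)| ≤
          ((3 : ℤ) : ℝ) := by
        push_cast at k6 ⊢
        linarith
      rw [← Int.cast_abs] at k7
      exact_mod_cast k7)
  obtain ⟨tt, htt⟩ : ∃ tt : PtT F → ℝ, tt = fun p => (⌊(2 : ℝ) ^ M * vb p⌋ : ℝ) / 2 ^ M :=
    ⟨_, rfl⟩
  have htt1 : ∀ p, |tt p - vb p| ≤ 1 / 2 ^ M := by
    intro p
    rw [htt]
    show |(⌊(2 : ℝ) ^ M * vb p⌋ : ℝ) / 2 ^ M - vb p| ≤ _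
    have e1 : (⌊(2 : ℝ) ^ M * vb p⌋ : ℝ) / 2 ^ M - vb p =
        (⌊(2 : ℝ) ^ M * vb p⌋ - 2 ^ M * vb p) / 2 ^ M := by field_simp
    rw [e1, abs_div, abs_of_pos pM]
    refine div_le_div_of_nonneg_right ?_ pM.le
    rw [abs_le]
    constructor <;> linarith [Int.floor_le ((2 : ℝ) ^ M * vb p),
      Int.lt_floor_add_one ((2 : ℝ) ^ M * vb p)]
  have htt2 : ∀ ω, B₄ ω → tt (ptr F J ω) = (φ (slam F ⌊W * J⌋₊ ω) 0 : ℝ) / 2 ^ M := by
    intro ω hω
    have k1 : ⌊(2 : ℝ) ^ M * vb (ptr F J ω)⌋ = φ (slam F ⌊W * J⌋₊ ω) 0 := congrFun (d3 ω hω) 0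
    rw [htt, ← k1]
  have hPD2 : Pe F.p B₄ ≤ Real.exp (-(δ₁ * J)) * Pe F.p A := by
    refine hlv B₄ (fun p => av p + (th p - tt p) * au p) tt (fun p => cv p + (th p - tt p) * cu p)
      (fun σ => sg σ + (tu σ + th' σ - (φ σ 0 : ℝ) / 2 ^ M) * uw' σ)
      (fun σ => (φ σ 0 : ℝ) / 2 ^ M)
      (fun ω hω => hBA ω (b1 ω (hB₂1 ω (c1 ω (d1 ω hω))))) fun ω hω => ?_
    have hω3 := d1 ω hω
    have hω2 := c1 ω hω3
    have hBω := b1 ω (hB₂1 ω hω2)
    have k1 := hB₂T ω hω2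
    have k2 := htt1 (ptr F J ω)
    have k3 := htu ω hBω
    obtain ⟨X, hX⟩ : ∃ X, X = Ex J (-x) := ⟨_, rfl⟩
    have hX1 : 1 ≤ X := by
      have := hC
      rw [← hX] at this
      linarith
    obtain ⟨t, ht⟩ : ∃ t, t = tu (slam F ⌊W * J⌋₊ ω) := ⟨_, rfl⟩
    obtain ⟨θ, hθ⟩ : ∃ θ, θ = th (ptr F J ω) := ⟨_, rfl⟩
    obtain ⟨θ', hθ'⟩ : ∃ θ', θ' = tt (ptr F J ω) := ⟨_, rfl⟩
    rw [← ht, ← hθ] at k1
    rw [← ht] at k3
    rw [← hθ'] at k2
    have k4 : |t + θ - θ'| ≤ 3 * T := by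
      have e1 : t + θ - θ' = (t - (vb (ptr F J ω) - θ)) - (θ' - vb (ptr F J ω)) := by ring
      rw [e1]
      refine (abs_sub _ _).trans ?_
      linarith
    have hTle : T ≤ Ex J (Q - P - 5 * x - s) := by
      rw [hT]
      exact Ex_mono (by linarith)
    have k5 : |θ - θ'| ≤ 4 * Ex J (Q - P - 5 * x - s) := by
      have e1 : θ - θ' = (t + θ - θ') - t := by ring
      rw [e1]
      refine (abs_sub _ _).trans ?_
      linarith
    have k6 : Ex J (Q - P - 5 * x - s) ≤ 1 := Ex_le1 (by linarith)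
    have k7 : |θ - θ'| ≤ 4 := by linarith
    have hX2 : 5 * X ≤ Ex J (-(2 * x)) := by
      rw [hX]
      exact Ex_c hC (by norm_num) (by linarith)
    have m1 := hR.bau ω hBω
    have m2 := hR.bcu ω hBω
    have m3 := hR.bav ω hBω
    have m4 := hR.bcv ω hBω
    have m5 := hR.bth ω hBω
    rw [← hX] at m1 m2 m3 m4 m5
    rw [← hθ] at m5
    have m6 : ∀ z : ℝ, |z| ≤ X → |(θ - θ') * z| ≤ 4 * X := by
      intro z hz
      rw [abs_mul]
      exact mul_le_mul k7 hz (abs_nonneg _) (by norm_num)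
    show |av (ptr F J ω) + (th (ptr F J ω) - tt (ptr F J ω)) * au (ptr F J ω)| ≤ _ ∧
      |tt (ptr F J ω)| ≤ _ ∧
      |cv (ptr F J ω) + (th (ptr F J ω) - tt (ptr F J ω)) * cu (ptr F J ω)| ≤ _ ∧
      |F.d ω v - (cv (ptr F J ω) + (th (ptr F J ω) - tt (ptr F J ω)) * cu (ptr F J ω)) -
        ((av (ptr F J ω) + (th (ptr F J ω) - tt (ptr F J ω)) * au (ptr F J ω)) * F.d ω y +
        tt (ptr F J ω) * F.d ω u)| ≤ _ ∧
      |sg (slam F ⌊W * J⌋₊ ω) + (tu (slam F ⌊W * J⌋₊ ω) + th' (slam F ⌊W * J⌋₊ ω) -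
        (φ (slam F ⌊W * J⌋₊ ω) 0 : ℝ) / 2 ^ M) * uw' (slam F ⌊W * J⌋₊ ω) -
        (av (ptr F J ω) + (th (ptr F J ω) - tt (ptr F J ω)) * au (ptr F J ω))| ≤ _ ∧
      |(φ (slam F ⌊W * J⌋₊ ω) 0 : ℝ) / 2 ^ M - tt (ptr F J ω)| ≤ _
    rw [← htt2 ω hω, ← hR.cl ω hBω, ← (hlab ω hBω).2.2.2, ← ht, ← hθ, ← hθ']
    refine ⟨?_, ?_, ?_, ?_, ?_, ?_⟩
    · refine (abs_add_le _ _).trans ?_
      have := m6 _ m1
      linarith
    · have e1 : θ' = θ - (θ - θ') := by ring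
      have h5 : |θ'| ≤ |θ| + |θ - θ'| := by
        calc |θ'| = |θ - (θ - θ')| := by rw [← e1]
          _ ≤ |θ| + |θ - θ'| := abs_sub _ _
      linarith
    · refine (abs_add_le _ _).trans ?_
      have := m6 _ m2
      linarith
    · have e1 : F.d ω v - (cv (ptr F J ω) + (θ - θ') * cu (ptr F J ω)) -
          ((av (ptr F J ω) + (θ - θ') * au (ptr F J ω)) * F.d ω y + θ' * F.d ω u) =
          (F.d ω v - θ * F.d ω u - cv (ptr F J ω) - av (ptr F J ω) * F.d ω y) +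
          (θ - θ') * (F.d ω u - cu (ptr F J ω) - au (ptr F J ω) * F.d ω y) := by ring
      rw [e1]
      refine (abs_add_le _ _).trans ?_
      have n1 := hR.dv ω hBω
      rw [← hθ] at n1
      have n2 := hR.du ω hBω
      have p1 := Ex_pos J (P + κ)
      have p2 := Ex_pos J (Q - P - 5 * x - s)
      have n3 : |(θ - θ') * (F.d ω u - cu (ptr F J ω) - au (ptr F J ω) * F.d ω y)| ≤
          (4 * Ex J (Q - P - 5 * x - s)) * (2 * Ex J (P + κ)) := by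
        rw [abs_mul]
        exact mul_le_mul k5 n2 (abs_nonneg _) (by linarith)
      have e2 : (4 * Ex J (Q - P - 5 * x - s)) * (2 * Ex J (P + κ)) =
          8 * Ex J (Q + κ - 5 * x - s) := by
        have e3 : (4 * Ex J (Q - P - 5 * x - s)) * (2 * Ex J (P + κ)) =
          8 * (Ex J (Q - P - 5 * x - s) * Ex J (P + κ)) := by ring
        rw [e3, Ex_mul]
        congr 2
        ring
      rw [e2] at n3
      have j0 := Ex_pos J (Q + s)
      have j1 : 32 * Ex J (Q + κ) ≤ Ex J (Q + s) := Ex_c hC (by norm_num) (by linarith)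
      have j2 : 32 * Ex J (Q + κ - 5 * x - s) ≤ Ex J (Q + s) :=
        Ex_c hC (by norm_num) (by linarith)
      linarith
    · have e1 : sg (slam F ⌊W * J⌋₊ ω) + (t + θ - θ') * uw (ptr F J ω) -
          (av (ptr F J ω) + (θ - θ') * au (ptr F J ω)) =
          (sg (slam F ⌊W * J⌋₊ ω) + t * au (ptr F J ω) - av (ptr F J ω)) -
          (t + θ - θ') * (au (ptr F J ω) - uw (ptr F J ω)) := by ring
      rw [e1]
      refine (abs_sub _ _).trans ?_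
      have n1 := hR.rel ω hBω
      rw [← ht] at n1
      have n2 : |au (ptr F J ω) - uw (ptr F J ω)| ≤ Ex J (-x) *
        (2 * Ex J (P + κ) + 2 * Ex J (P - x)) := c3 ω hω3
      have p1 := Ex_pos J (P + κ)
      have p2 := Ex_pos J (P - x)
      have n4 : Ex J (P + κ) ≤ Ex J (P - x) := Ex_mono (by linarith)
      have n5 : |au (ptr F J ω) - uw (ptr F J ω)| ≤ Ex J (-x) * (4 * Ex J (P - x)) :=
        n2.trans (mul_le_mul_of_nonneg_left (by linarith) (Ex_pos _ _).le)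
      have n6 : |(t + θ - θ') * (au (ptr F J ω) - uw (ptr F J ω))| ≤
          3 * T * (Ex J (-x) * (4 * Ex J (P - x))) := by
        rw [abs_mul]
        exact mul_le_mul k4 n5 (abs_nonneg _) (by linarith)
      have e2 : 3 * T * (Ex J (-x) * (4 * Ex J (P - x))) = 12 * Ex J (Q + 4 * s - 2 * x) := by
        have e3 : 3 * T * (Ex J (-x) * (4 * Ex J (P - x))) =
          12 * (T * Ex J (-x) * Ex J (P - x)) := by ring
        rw [e3, hT, Ex_mul, Ex_mul]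
        congr 2
        ring
      rw [e2] at n6
      have n7 : |t| * (2 * Ex J (P + κ)) ≤ Ex J (Q - P - 5 * x - s) * (2 * Ex J (P + κ)) :=
        mul_le_mul_of_nonneg_right k3 (by linarith)
      have e4 : Ex J (Q - P - 5 * x - s) * (2 * Ex J (P + κ)) =
          2 * Ex J (Q + κ - 5 * x - s) := by
        rw [mul_left_comm, Ex_mul]
        congr 2
        ring
      rw [e4] at n7
      have j0 := Ex_pos J (Q + s)
      have j1 : 32 * Ex J (Q + κ) ≤ Ex J (Q + s) := Ex_c hC (by norm_num) (by linarith)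
      have j2 : 32 * Ex J (Q + κ - 5 * x - s) ≤ Ex J (Q + s) :=
        Ex_c hC (by norm_num) (by linarith)
      have j3 : 32 * Ex J (Q + 4 * s - 2 * x) ≤ Ex J (Q + s) :=
        Ex_c hC (by norm_num) (by linarith)
      linarith
    · rw [sub_self, abs_zero]
      exact (Ex_pos _ _).le
  have hPD2' := sml_of hδ1 hE hPD2 hPB
  have d2' : Pe F.p B₃ ≤ 7 * Pe F.p B₄ := by
    refine d2.trans (le_of_eq ?_)
    norm_num
  linarith

/-- The relation with a small coefficient is impossible on large parts. -/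
def NgF (S : PCl m) (y u v : Fin m) (W P Q κ s : ℝ) : Prop :=
  ∃ x₀ : ℝ, 0 < x₀ ∧ ∀ x : ℝ, 0 < x → x ≤ x₀ → ∃ δ₀ : ℝ, 0 < δ₀ ∧ ∀ δ : ℝ, 0 < δ → δ ≤ δ₀ →
    Bas S (fun J F A => ∀ (B : F.Ω → Prop) (au cu av cv th : PtT F → ℝ)
      (th' sg tu : LnT F → ℝ), Sub B A → Real.exp (-(δ * J)) * Pe F.p A ≤ Pe F.p B →
      RlD F B y u v ⌊W * J⌋₊ P Q κ x au cu av cv th th' sg tu →
      (∀ ω, B ω → |tu (slam F ⌊W * J⌋₊ ω)| ≤ Ex J (Q - P - 5 * x - s)) → False)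

/-- The conclusion of the class theorem. -/
def NgC (S : PCl m) (y u v : Fin m) (W U D ka : ℝ) : Prop :=
  ∃ e0 : ℝ, 0 < e0 ∧ ∃ delta : ℝ, 0 < delta ∧ Bas S (fun J F A =>
    ∀ (B : F.Ω → Prop) (au cu av cv th : PtT F → ℝ) (sg tu : LnT F → ℝ) (e Mu Mv : ℕ),
      Sub B A → e ≤ ⌊e0 * J⌋₊ → ⌊(U - W + ka) * J⌋₊ ≤ Mu → ⌊(D - W + ka) * J⌋₊ ≤ Mv →
      Dp F B y u e Mu au cu →
      (∀ ω, B ω → |th (ptr F J ω)| ≤ 2 ^ e ∧ |av (ptr F J ω)| ≤ 2 ^ e ∧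
        |cv (ptr F J ω)| ≤ 2 ^ e ∧
        |F.d ω v - th (ptr F J ω) * F.d ω u - cv (ptr F J ω) - av (ptr F J ω) * F.d ω y| ≤
          1 / 2 ^ Mv) →
      Cl1 F B ⌊W * J⌋₊ th →
      (∃ c a0 : PtT F → ℝ, Cl1 F B ⌊W * J⌋₊ c ∧ Cl1 F B ⌊W * J⌋₊ a0 ∧ ∀ ω, B ω →
        |F.d ω v - c (ptr F J ω) - a0 (ptr F J ω) * F.d ω y - th (ptr F J ω) * F.d ω u| ≤
          1 / 2 ^ ⌊(D - W - e0) * J⌋₊) →
      (∀ ω, B ω → |sg (slam F ⌊W * J⌋₊ ω) + tu (slam F ⌊W * J⌋₊ ω) * au (ptr F J ω) -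
        av (ptr F J ω)| ≤ 1 / 2 ^ ⌊(D - W + ka) * J⌋₊ +
          |tu (slam F ⌊W * J⌋₊ ω)| / 2 ^ ⌊(U - W + ka) * J⌋₊) →
      Pe F.p B ≤ Real.exp (-(delta * J)) * Pe F.p A)

/-- The assembly. -/
theorem ng_asm {S : PCl m} {C₀ : ℝ} (htm : TmC S C₀)
    {L : Finset (Fin m) → Fin m → ℝ → ℝ → ℝ} (hL : LamW S L) {y u v : Fin m}
    (hact : ActF S y) {W κ s D : ℝ} (hW0 : 0 ≤ W) (hs : 0 < s) (hκ : 2 * s ≤ κ)
    (h1 : W ≤ L {y} u W 0) (h2 : L {y} u W 0 + 2 * s ≤ 1)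
    (hf : NgF S y u v W (L {y} u W 0 - W) (D - W) κ s) :
    NgC S y u v W (L {y} u W 0) D κ := by
  classical
  obtain ⟨x₁, hx₁, hone⟩ := ng_one htm hL (v := v) (Q := D - W) hact hW0 hs hκ h1 h2
  obtain ⟨x₂, hx₂, htwo⟩ := hf
  obtain ⟨x, hx⟩ : ∃ x, x = min x₁ x₂ := ⟨_, rfl⟩
  have hx0 : 0 < x := by rw [hx]; exact lt_min hx₁ hx₂
  obtain ⟨δ₁, hδ₁, h3⟩ := hone x hx0 (by rw [hx]; exact min_le_left _ _)
  obtain ⟨δ₂, hδ₂, h4⟩ := htwo x hx0 (by rw [hx]; exact min_le_right _ _)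
  obtain ⟨δ, hδ⟩ : ∃ δ, δ = min δ₁ (δ₂ / 2) := ⟨_, rfl⟩
  have hδ0 : 0 < δ := by rw [hδ]; exact lt_min hδ₁ (by linarith)
  have hd1 : δ ≤ δ₁ := by rw [hδ]; exact min_le_left _ _
  have hd2 : 2 * δ ≤ δ₂ := by
    have : δ ≤ δ₂ / 2 := by rw [hδ]; exact min_le_right _ _
    linarith
  obtain ⟨J₂, hJ₂⟩ := exp_ev hδ0
  refine ⟨x, hx0, δ, hδ0, Bas.mono J₂ ((h3 δ hδ0 hd1).and (h4 (2 * δ) (by linarith) hd2)) ?_⟩
  rintro J hJ F A ⟨ha, hb⟩ B au cu av cv th sg tu e Mu Mv hBA he hMu hMv hdu hdv hcl hca hrel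
  by_contra hcon
  push Not at hcon
  obtain ⟨th', hth'⟩ := hcl
  obtain ⟨c, a0, -, ⟨a0', ha0'⟩, hc⟩ := hca
  have he' : (2 : ℝ) ^ e ≤ Ex J (-x) :=
    (pow_le_pow_right₀ (by norm_num) he).trans (Ex_up hx0.le)
  have hR : RlD F B y u v ⌊W * J⌋₊ (L {y} u W 0 - W) (D - W) κ x au cu av cv th th' sg tu := by
    refine ⟨fun ω hω => (hdu ω hω).1.trans he', fun ω hω => (hdu ω hω).2.1.trans he',
      fun ω hω => (hdv ω hω).2.1.trans he', fun ω hω => (hdv ω hω).2.2.1.trans he',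
      fun ω hω => (hdv ω hω).1.trans he', fun ω hω => (hdu ω hω).2.2.trans (Ex_hi hMu),
      fun ω hω => (hdv ω hω).2.2.2.trans (Ex_hi hMv), hth', fun ω hω => ?_⟩
    refine (hrel ω hω).trans (add_le_add (Ex_hi le_rfl) ?_)
    rw [div_eq_mul_one_div]
    exact mul_le_mul_of_nonneg_left (Ex_hi le_rfl) (abs_nonneg _)
  obtain ⟨B₂, c1, c2, c3⟩ := ha B au cu av cv th c a0 th' sg tu a0' hBA hcon.le hR
    fun ω hω => ⟨(hc ω hω).trans (Ex_hi le_rfl), ha0' ω hω⟩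
  have hBn := Pe_nonneg F.isLaw B
  exact hb B₂ au cu av cv th th' sg tu (fun ω hω => hBA ω (c1 ω hω))
    (lrg_sub (hJ₂ J hJ) hcon.le (by linarith)) (hR.sub c1) c3

/-- **The relation and the numbers** (72's literal). -/
theorem ng_rel {S : PCl m} {C₀ : ℝ} (htm : TmC S C₀)
    {L : Finset (Fin m) → Fin m → ℝ → ℝ → ℝ} (hL : LamW S L) {y u v : Fin m} (hyu : y ≠ u)
    (hact : ActF S y) {W a ka : ℝ} (hW0 : 0 ≤ W) (hWa : W ≤ a) (ha1 : a ≤ 1) (hka : 0 < ka)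
    (h1 : W ≤ L {y} u W 0) (h2 : L {y} u W 0 < L {y, u} v W 0) (h3 : a ≤ L {y} u a 0)
    (h4 : a ≤ L {y, u} v a 0) (h5 : L {y} u a 0 < 1) (h6 : L {y, u} v a 0 < 1)
    (h7 : L {y, u} v W 0 < 1) (hu : HasA S {y} u W (L {y} u W 0))
    (hu' : HasA S {y} u a (L {y} u a 0)) (hv' : HasA S {y, u} v a (L {y, u} v a 0))
    (hcase : (L {y} u a 0 - a < L {y} u W 0 - W + ka ∧
        L {y} u a 0 - L {y} u W 0 < L {y, u} v a 0 - L {y, u} v W 0) ∨
      (L {y, u} v a 0 - a < L {y, u} v W 0 - W + ka ∧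
        L {y, u} v a 0 - a < L {y, u} v W 0 - W + (L {y} u a 0 - a - (L {y} u W 0 - W)))) :
    NgC S y u v W (L {y} u W 0) (L {y, u} v W 0) ka := by
  rcases hcase with ⟨hc1, hc2⟩ | ⟨hc1, hc2⟩
  · obtain ⟨s, hs⟩ : ∃ s, s = min (min (ka / 8) ((L {y} u W 0 - W + ka -
        (L {y} u a 0 - a)) / 8)) (min (min (((L {y, u} v a 0 - L {y, u} v W 0) -
        (L {y} u a 0 - L {y} u W 0)) / 8) ((L {y, u} v W 0 - L {y} u W 0) / 2))
        (min ((1 - L {y, u} v W 0) / 2) ((1 - L {y} u a 0) / 2))) := ⟨_, rfl⟩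
    have hs0 : 0 < s := by
      rw [hs]
      exact lt_min (lt_min (by linarith) (by linarith)) (lt_min (lt_min (by linarith)
        (by linarith)) (lt_min (by linarith) (by linarith)))
    have s1 : s ≤ ka / 8 := by rw [hs]; exact (min_le_left _ _).trans (min_le_left _ _)
    have s2 : s ≤ (L {y} u W 0 - W + ka - (L {y} u a 0 - a)) / 8 := by
      rw [hs]; exact (min_le_left _ _).trans (min_le_right _ _)
    have s3 : s ≤ ((L {y, u} v a 0 - L {y, u} v W 0) - (L {y} u a 0 - L {y} u W 0)) / 8 := by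
      rw [hs]
      exact (min_le_right _ _).trans ((min_le_left _ _).trans (min_le_left _ _))
    have s4 : s ≤ (L {y, u} v W 0 - L {y} u W 0) / 2 := by
      rw [hs]
      exact (min_le_right _ _).trans ((min_le_left _ _).trans (min_le_right _ _))
    have s5 : s ≤ (1 - L {y, u} v W 0) / 2 := by
      rw [hs]
      exact (min_le_right _ _).trans ((min_le_right _ _).trans (min_le_left _ _))
    have s6 : s ≤ (1 - L {y} u a 0) / 2 := by
      rw [hs]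
      exact (min_le_right _ _).trans ((min_le_right _ _).trans (min_le_right _ _))
    refine ng_asm htm hL hact hW0 hs0 (by linarith) h1 (by linarith) ?_
    exact ng_thr htm hL hyu hact hW0 hWa ha1 hs0 rfl rfl (by linarith) (by linarith) h3
      (by linarith) (by linarith) (by linarith) (by linarith) (by linarith) hu hv'
  · obtain ⟨s, hs⟩ : ∃ s, s = min (min (ka / 8) ((L {y, u} v W 0 - W + ka -
        (L {y, u} v a 0 - a)) / 4)) (min ((L {y, u} v W 0 - W + (L {y} u a 0 - a -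
        (L {y} u W 0 - W)) - (L {y, u} v a 0 - a)) / 4)
        (min ((1 - L {y, u} v W 0) / 2) ((1 - L {y, u} v a 0) / 2))) := ⟨_, rfl⟩
    have hs0 : 0 < s := by
      rw [hs]
      exact lt_min (lt_min (by linarith) (by linarith)) (lt_min (by linarith)
        (lt_min (by linarith) (by linarith)))
    have s1 : s ≤ ka / 8 := by rw [hs]; exact (min_le_left _ _).trans (min_le_left _ _)
    have s2 : s ≤ (L {y, u} v W 0 - W + ka - (L {y, u} v a 0 - a)) / 4 := by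
      rw [hs]; exact (min_le_left _ _).trans (min_le_right _ _)
    have s3 : s ≤ (L {y, u} v W 0 - W + (L {y} u a 0 - a - (L {y} u W 0 - W)) -
        (L {y, u} v a 0 - a)) / 4 := by
      rw [hs]; exact (min_le_right _ _).trans (min_le_left _ _)
    have s4 : s ≤ (1 - L {y, u} v W 0) / 2 := by
      rw [hs]
      exact (min_le_right _ _).trans ((min_le_right _ _).trans (min_le_left _ _))
    have s5 : s ≤ (1 - L {y, u} v a 0) / 2 := by
      rw [hs]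
      exact (min_le_right _ _).trans ((min_le_right _ _).trans (min_le_right _ _))
    refine ng_asm htm hL hact hW0 hs0 (by linarith) h1 (by linarith) ?_
    exact ng_two htm hL hyu hact hW0 hWa ha1 hs0 h4 (by linarith) (by linarith) (by linarith) hu'

end Pool.OWN40
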