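import Pool.Agent.H40.OWN.Ngg

/-!
# The contradiction for the second greedy order

`Dat21`: own velocities of `u` over `v` and `y`, with the sizes. `core21`: if they exist on large
parts of all events, then the number of `u` over `y` and `v` in the zoom is bounded.
-/

set_option autoImplicit false

namespace Pool.OWN72

open Finset MvPolynomial
open Pool.Agent.H49.Ent Pool.Agent.H32.Dense Pool.STK Pool.KA Pool.KSAT Pool.K2S Pool.PB Pool.GEN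
open Pool.S6C
open Pool.JVE (DpI)
open Pool.MIC6 (res_of Dp Dt ActF ActZ)
open Pool.GRW (bas_part)
open Pool.REX

variable {m n J : ℕ}

/-- **The own velocity of `u` over `v` and `y`**, with the sizes. -/
structure Dat21 (F : Fam m J) (A : F.Ω → Prop) (y u v : Fin m) (W X Mq MV n1 n2 nD nU : ℕ)
    (au av cu cv th t2 c2 r r' : PtT F → ℝ) : Prop where
  ct : Cl1 F A W t2
  cr : Cl1 F A W r
  cr' : Cl1 F A W r'
  bt : ∀ ω, A ω → |t2 (ptr F J ω)| ≤ 2 ^ X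
  ba : ∀ ω, A ω → |r (ptr F J ω) * au (ptr F J ω) - r' (ptr F J ω) * av (ptr F J ω)| ≤ 2 ^ X
  du : ∀ ω, A ω → |F.d ω u - t2 (ptr F J ω) * F.d ω v - c2 (ptr F J ω) -
    (r (ptr F J ω) * au (ptr F J ω) - r' (ptr F J ω) * av (ptr F J ω)) * F.d ω y| ≤ 1 / 2 ^ Mq
  dv : ∀ ω, A ω → |F.d ω v - (cv (ptr F J ω) + th (ptr F J ω) * cu (ptr F J ω)) -
    (av (ptr F J ω) + th (ptr F J ω) * au (ptr F J ω)) * F.d ω y| ≤ 1 / 2 ^ MV
  al : ∀ ω, A ω → ∀ t : ℝ, |t| ≤ 2 * 2 ^ X →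
    (t * th (ptr F J ω) - r (ptr F J ω) ≠ 0 ∨ t + r' (ptr F J ω) ≠ 0) ∧
    1 / 2 ^ n1 + |t| * (1 / 2 ^ n2) ≤ |t + r' (ptr F J ω)| / 2 ^ nD +
      |t * th (ptr F J ω) - r (ptr F J ω)| / 2 ^ nU

/-- **The contradiction.** -/
theorem core21 {S : PCl m} (hne : S.Ne) {C₀ : ℝ} (hC₀ : 0 ≤ C₀) (htm : TmC S C₀)
    {L : Finset (Fin m) → Fin m → ℝ → ℝ → ℝ} (hL : LamW S L) (v : Vz m)
    (ε : Fin n → Fin m) {L' : Finset (Fin n) → Fin n → ℝ → ℝ → ℝ} (hL' : LamW (RecV S v ε) L')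
    {κ ι k : Fin n} (hκk : κ ≠ k) (hact : ActZ S v ε κ) (hactF : ActF S (ε κ))
    {w' w r' x q : ℝ} (hw' : w' < w) (hw0 : 0 < w) (hw1 : w < 1) (hx : 0 < x)
    (hxw : x ≤ (1 - v.b) * (1 - v.p) * w) (hqx : x ≤ q)
    (hLz : q + x ≤ v.sc (L' {κ, k} ι w' r') - v.p * (1 - v.b) - v.tm w)
    (hcont : ContinuousAt (fun W => L {ε κ} (ε k) W 0) (v.tm w))
    (hVt : v.tm w < L {ε κ} (ε k) (v.tm w) 0)
    (hVx : L {ε κ} (ε k) (v.tm w) 0 + v.p * (1 - v.b) + x ≤ 1)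
    (hUt : v.tm w ≤ L {ε κ} (ε ι) (v.tm w) 0) {D Pd ka : ℝ} (hka : 0 < ka) (hkaP : ka ≤ Pd)
    (hU1 : L {ε κ} (ε ι) (v.tm w) 0 + 2 * ka ≤ 1)
    (hng : Pool.OWN40.NgC S (ε κ) (ε ι) (ε k) (v.tm w) (L {ε κ} (ε ι) (v.tm w) 0) D ka)
    (hdat : ∀ e₁ : ℝ, 0 < e₁ → Bas S (fun J F A => ∃ B : F.Ω → Prop, Sub B A ∧
      Pe F.p A ≤ 4 * Pe F.p B ∧ ∃ au cu av cv th a0 c0 t2 c2 r r' : PtT F → ℝ,
        OwE F B (ε κ) (ε ι) (ε k) ⌊v.tm w * J⌋₊ ⌊e₁ * J⌋₊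
          ⌊(L {ε κ} (ε ι) (v.tm w) 0 - v.tm w + Pd) * J⌋₊ ⌊(D - v.tm w + Pd) * J⌋₊
          ⌊(D - v.tm w - e₁) * J⌋₊ au cu av cv th a0 c0 ∧
        Dat21 F B (ε κ) (ε ι) (ε k) ⌊v.tm w * J⌋₊ ⌊x / 32 * J⌋₊
          ⌊(q + v.p * (1 - v.b) + x) * J⌋₊
          ⌊(L {ε κ} (ε k) (v.tm w) 0 - v.tm w + v.p * (1 - v.b) + x) * J⌋₊ ⌊(q - x) * J⌋₊
          ⌊(L {ε κ} (ε k) (v.tm w) 0 - v.tm w + x / 2) * J⌋₊ ⌊(D - v.tm w + ka) * J⌋₊
          ⌊(L {ε κ} (ε ι) (v.tm w) 0 - v.tm w + ka) * J⌋₊ au av cu cv th t2 c2 r r')) :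
    False := by
  obtain ⟨e₁, he₁, hrel⟩ := rel_cut hC₀ htm hL v ε hL' (k := ι) hκk hact hactF hw' hw0 hw1 hx hxw
    hqx hLz hcont hVt hVx
  have htm0 : 0 ≤ v.tm w := by
    have h1 := v.b1
    have h2 := v.p1
    have h3 := v.b0
    have : 0 ≤ (1 - v.b) * (1 - v.p) * w :=
      mul_nonneg (mul_nonneg (by linarith) (by linarith)) hw0.le
    unfold Vz.tm
    linarith
  obtain ⟨e₂, he₂, δ, hδ, hgen⟩ := ng_gen hL htm0 hka hUt hU1 hng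
  obtain ⟨e, he⟩ : ∃ e, e = min (e₁ / 4) e₂ := ⟨_, rfl⟩
  have he0 : 0 < e := by rw [he]; exact lt_min (by linarith) he₂
  have he1 : e ≤ e₁ / 4 := by rw [he]; exact min_le_left _ _
  have he2 : e ≤ e₂ := by rw [he]; exact min_le_right _ _
  obtain ⟨J₁, hJ₁⟩ := exists_nat_ge (65536 / δ)
  obtain ⟨J₂, hJ₂⟩ := exists_nat_ge (8 / e₁)
  have hfalse : Bas S (fun _ _ _ => False) := by
    refine Bas.mono (max J₁ J₂) (((hdat e he0).and (bas_part hrel (c := 4) (by norm_num))).and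
      (hgen.and ⟨1, one_pos, 0, fun J _ F A hA => (htm 1 J F A one_pos hA).1⟩)) ?_
    rintro J hJ F A ⟨⟨⟨B, s1, t1, au, cu, av, cv, th, a0, c0, t2, c2, r, r', ho, hd⟩, hr⟩,
      ⟨hn, hA0⟩⟩
    have j1 : (J₁ : ℝ) ≤ J := by exact_mod_cast (le_max_left _ _).trans hJ
    have j2 : (J₂ : ℝ) ≤ J := by exact_mod_cast (le_max_right _ _).trans hJ
    have hJ0 : (0 : ℝ) ≤ J := Nat.cast_nonneg J
    have hfl : ∀ a b : ℝ, a ≤ b → ⌊a * (J : ℝ)⌋₊ ≤ ⌊b * (J : ℝ)⌋₊ := fun a b h =>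
      Nat.floor_le_floor (mul_le_mul_of_nonneg_right h hJ0)
    have hee : 2 * ⌊e * (J : ℝ)⌋₊ + 1 ≤ ⌊e₁ * (J : ℝ)⌋₊ := by
      have h1 := hJ₂.trans j2
      rw [div_le_iff₀ he₁] at h1
      have f1 : (⌊e * (J : ℝ)⌋₊ : ℝ) ≤ e * J := Nat.floor_le (by positivity)
      have f2 : e₁ * (J : ℝ) - 1 < ⌊e₁ * (J : ℝ)⌋₊ := Nat.sub_one_lt_floor _
      have f3 : e * (J : ℝ) ≤ e₁ / 4 * J := mul_le_mul_of_nonneg_right he1 hJ0
      rw [← Nat.cast_le (α := ℝ)]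
      push_cast
      linarith
    obtain ⟨W, hW⟩ : ∃ W, W = ⌊v.tm w * (J : ℝ)⌋₊ := ⟨_, rfl⟩
    rw [← hW] at ho hd hr hn
    obtain ⟨E, hE⟩ : ∃ E, E = ⌊e * (J : ℝ)⌋₊ := ⟨_, rfl⟩
    rw [← hE] at ho hee
    have hEE : (2 : ℝ) ^ E + 2 ^ E * 2 ^ E ≤ 2 ^ ⌊e₁ * (J : ℝ)⌋₊ := by
      have h1 : (2 : ℝ) ^ (2 * E + 1) ≤ 2 ^ ⌊e₁ * (J : ℝ)⌋₊ :=
        pow_le_pow_right₀ (by norm_num) hee
      have h2 : (2 : ℝ) ^ (2 * E + 1) = 2 * (2 ^ E * 2 ^ E) := by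
        rw [pow_succ, two_mul, pow_add]
        ring
      have h3 : (1 : ℝ) ≤ 2 ^ E := one_le_pow₀ (by norm_num)
      have h4 : (2 : ℝ) ^ E * 1 ≤ 2 ^ E * 2 ^ E := mul_le_mul_of_nonneg_left h3 (by positivity)
      linarith
    have hbd : ∀ a b c : ℝ, |a| ≤ 2 ^ E → |b| ≤ 2 ^ E → |c| ≤ 2 ^ E →
        |a + b * c| ≤ 2 ^ ⌊e₁ * (J : ℝ)⌋₊ := by
      intro a b c ha hb hc
      refine (abs_add_le _ _).trans (le_trans (add_le_add ha ?_) hEE)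
      rw [abs_mul]
      exact mul_le_mul hb hc (abs_nonneg _) (by positivity)
    obtain ⟨B₂, s2, u2, sg, tu, hst⟩ := hr B s1 t1 (fun p => av p + th p * au p)
      (fun p => cv p + th p * cu p) (fun p => r p * au p - r' p * av p) c2 t2
      ⌊e₁ * (J : ℝ)⌋₊ ⌊x / 32 * (J : ℝ)⌋₊
      ⌊(L {ε κ} (ε k) (v.tm w) 0 - v.tm w + v.p * (1 - v.b) + x) * J⌋₊
      ⌊(q + v.p * (1 - v.b) + x) * J⌋₊ le_rfl le_rfl le_rfl le_rfl
      (fun ω hω => ⟨hbd _ _ _ (ho.bv ω hω).2.1 (ho.bv ω hω).1 (ho.bu ω hω).1,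
        hbd _ _ _ (ho.bv ω hω).2.2 (ho.bv ω hω).1 (ho.bu ω hω).2, hd.dv ω hω⟩) hd.ct
      (fun ω hω => ⟨hd.bt ω hω, hd.ba ω hω, hd.du ω hω⟩)
    obtain ⟨th', hth'⟩ := ho.cth
    obtain ⟨r1, hr1⟩ := hd.cr
    obtain ⟨r1', hr1'⟩ := hd.cr'
    have ho2 := ho.sub s2
    have s2A : Sub B₂ A := fun ω hω => s1 ω (s2 ω hω)
    have key := hn B₂ au cu av cv th (fun s => tu s * th' s - r1 s) (fun s => tu s + r1' s) sg E
      ⌊(L {ε κ} (ε ι) (v.tm w) 0 - v.tm w + Pd) * J⌋₊ ⌊(D - v.tm w + Pd) * J⌋₊ s2A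
      (by rw [hE]; exact hfl _ _ he2) (hfl _ _ (by linarith)) (hfl _ _ (by linarith))
      (fun ω hω => ⟨(ho2.bu ω hω).1, (ho2.bu ω hω).2, ho2.du ω hω⟩)
      (fun ω hω => ⟨(ho2.bv ω hω).1, (ho2.bv ω hω).2.1, (ho2.bv ω hω).2.2, ho2.dv ω hω⟩)
      ho2.cth ⟨c0, a0, ho2.cc0, ho2.ca0, fun ω hω => (ho2.d0 ω hω).trans
        (one_div_le_one_div_of_le (by positivity) (pow_le_pow_right₀ (by norm_num)
          (hfl _ _ (by linarith))))⟩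
      (fun ω hω => by
        have h1 := (hd.al ω (s2 ω hω) _ (hst ω hω).1).1
        rw [hth' ω (s2 ω hω), hr1 ω (s2 ω hω), hr1' ω (s2 ω hω)] at h1
        exact h1)
      (fun ω hω => by
        have h1 := (hd.al ω (s2 ω hω) _ (hst ω hω).1).2
        have h2 := (hst ω hω).2
        show |sg (slam F W ω) + (tu (slam F W ω) * th' (slam F W ω) - r1 (slam F W ω)) *
          au (ptr F J ω) + (tu (slam F W ω) + r1' (slam F W ω)) * av (ptr F J ω)| ≤ _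
        have e1 : sg (slam F W ω) + (tu (slam F W ω) * th' (slam F W ω) - r1 (slam F W ω)) *
            au (ptr F J ω) + (tu (slam F W ω) + r1' (slam F W ω)) * av (ptr F J ω) =
            sg (slam F W ω) + tu (slam F W ω) * (av (ptr F J ω) + th (ptr F J ω) *
              au (ptr F J ω)) - (r (ptr F J ω) * au (ptr F J ω) -
                r' (ptr F J ω) * av (ptr F J ω)) := by
          rw [hth' ω (s2 ω hω), hr1 ω (s2 ω hω), hr1' ω (s2 ω hω)]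
          ring
        rw [e1]
        rw [hth' ω (s2 ω hω), hr1 ω (s2 ω hω), hr1' ω (s2 ω hω)] at h1
        rw [hth' ω (s2 ω hω), hr1 ω (s2 ω hω), hr1' ω (s2 ω hω)]
        have h3 : |sg (slam F W ω) + tu (slam F W ω) * (av (ptr F J ω) + th' (slam F W ω) *
              au (ptr F J ω)) - (r1 (slam F W ω) * au (ptr F J ω) -
                r1' (slam F W ω) * av (ptr F J ω))| ≤ 1 / 2 ^ ⌊(q - x) * (J : ℝ)⌋₊ +
            |tu (slam F W ω)| * (1 / 2 ^ ⌊(L {ε κ} (ε k) (v.tm w) 0 - v.tm w + x / 2) *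
              (J : ℝ)⌋₊) := by
          have h4 : |sg (slam F W ω) + tu (slam F W ω) * (av (ptr F J ω) + th (ptr F J ω) *
              au (ptr F J ω)) - (r (ptr F J ω) * au (ptr F J ω) -
                r' (ptr F J ω) * av (ptr F J ω))| ≤ _ := h2
          rw [hth' ω (s2 ω hω), hr1 ω (s2 ω hω), hr1' ω (s2 ω hω)] at h4
          exact h4
        exact h3.trans h1)
    have h2 : Pe F.p A ≤ 4 * (8192 * Pe F.p B₂) := by
      have := mul_le_mul_of_nonneg_left u2 (by norm_num : (0 : ℝ) ≤ 4)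
      linarith
    have h3 : Real.exp (-(δ * J)) < 1 / 65536 := by
      have h4 : 65536 ≤ δ * J := by
        have h1 := hJ₁.trans j1
        rw [div_le_iff₀ hδ] at h1
        linarith
      have h5 : (65536 : ℝ) < Real.exp (δ * J) := by
        have := Real.add_one_le_exp (δ * J)
        linarith
      rw [Real.exp_neg, ← one_div]
      exact one_div_lt_one_div_of_lt (by norm_num) h5
    have h4 : 2 * Real.exp (-(δ * J)) * Pe F.p A < 1 / 32768 * Pe F.p A :=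
      mul_lt_mul_of_pos_right (by linarith) hA0
    linarith
  obtain ⟨τ, hτ, J₀, hb⟩ := hfalse
  obtain ⟨J, hJ, F, A, hA⟩ := hne τ hτ J₀
  exact hb J hJ F A hA

end Pool.OWN72
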