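import Pool.Agent.H40.OWN.T021

/-!
# The data for the second greedy order

`dat_one`, `dat_two`, `dat_thr`: the own velocities of `u` over `v` and `y` with their sizes, in the
three cases: the number of `v` over `y` is larger than that of `u`; the closed slope of `v` over `u`
has its natural size; the number of `v` over `y` and `u` is that of `v` over `y`.
-/

set_option autoImplicit false

namespace Pool.OWN72

open Finset MvPolynomial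
open Pool.Agent.H49.Ent Pool.Agent.H32.Dense Pool.STK Pool.KA Pool.KSAT Pool.K2S Pool.PB Pool.GEN
open Pool.S6C
open Pool.JVE (DpI)
open Pool.MIC6 (res_of Dp Dt ActF ActZ)
open Pool.GRW (bas_part)
open Pool.REX

variable {m n J : ℕ}

theorem OwE.mono {F : Fam m J} {A : F.Ω → Prop} {y u v : Fin m} {W e e' Mu Mv Nv Nv' : ℕ}
    {au cu av cv th a0 c0 : PtT F → ℝ} (h : OwE F A y u v W e Mu Mv Nv au cu av cv th a0 c0)
    (he : e ≤ e') (hN : Nv' ≤ Nv) : OwE F A y u v W e' Mu Mv Nv' au cu av cv th a0 c0 := by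
  have hp : (2 : ℝ) ^ e ≤ 2 ^ e' := pow_le_pow_right₀ (by norm_num) he
  exact ⟨fun ω hω => ⟨(h.bu ω hω).1.trans hp, (h.bu ω hω).2.trans hp⟩,
    fun ω hω => ⟨(h.bv ω hω).1.trans hp, (h.bv ω hω).2.1.trans hp, (h.bv ω hω).2.2.trans hp⟩,
    h.du, h.dv, fun ω hω => (h.d0 ω hω).trans (inv_mono hN), h.cth, h.ca0, h.cc0⟩

/-- The own velocity of `v` over `y`. -/
theorem OwE.va {F : Fam m J} {A : F.Ω → Prop} {y u v : Fin m} {W e Mu Mv Nv G N MV : ℕ}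
    {au cu av cv th a0 c0 : PtT F → ℝ} (h : OwE F A y u v W e Mu Mv Nv au cu av cv th a0 c0)
    (h1 : MV + 1 ≤ Mv) (h2 : G + MV + 1 ≤ N + Mu) {ω : F.Ω} (hω : A ω)
    (hth : |th (ptr F J ω)| * 2 ^ N ≤ 2 ^ G) :
    |F.d ω v - (cv (ptr F J ω) + th (ptr F J ω) * cu (ptr F J ω)) -
      (av (ptr F J ω) + th (ptr F J ω) * au (ptr F J ω)) * F.d ω y| ≤ 1 / 2 ^ MV := by
  have e1 : F.d ω v - (cv (ptr F J ω) + th (ptr F J ω) * cu (ptr F J ω)) -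
      (av (ptr F J ω) + th (ptr F J ω) * au (ptr F J ω)) * F.d ω y =
      (F.d ω v - th (ptr F J ω) * F.d ω u - cv (ptr F J ω) - av (ptr F J ω) * F.d ω y) +
      th (ptr F J ω) * (F.d ω u - cu (ptr F J ω) - au (ptr F J ω) * F.d ω y) := by ring
  have k1 : |th (ptr F J ω) * (F.d ω u - cu (ptr F J ω) - au (ptr F J ω) * F.d ω y)| ≤
      1 / 2 ^ (MV + 1) := by
    rw [abs_mul]
    have h3 := mul_le_mul_of_nonneg_left (h.du ω hω) (abs_nonneg (th (ptr F J ω)))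
    refine h3.trans ?_
    rw [mul_one_div, div_le_div_iff₀ (by positivity) (by positivity), one_mul]
    have h4 : (2 : ℝ) ^ (G + MV + 1) ≤ 2 ^ (N + Mu) := pow_le_pow_right₀ (by norm_num) h2
    have h5 : |th (ptr F J ω)| * 2 ^ (MV + 1) * 2 ^ N ≤ 2 ^ Mu * 2 ^ N := by
      calc |th (ptr F J ω)| * 2 ^ (MV + 1) * 2 ^ N = |th (ptr F J ω)| * 2 ^ N * 2 ^ (MV + 1) := by
            ring
        _ ≤ 2 ^ G * 2 ^ (MV + 1) := mul_le_mul_of_nonneg_right hth (by positivity)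
        _ = 2 ^ (G + MV + 1) := by rw [add_assoc, pow_add 2 G]
        _ ≤ 2 ^ (N + Mu) := h4
        _ = 2 ^ Mu * 2 ^ N := by rw [pow_add]; ring
    exact le_of_mul_le_mul_right h5 (by positivity)
  have k2 : |F.d ω v - th (ptr F J ω) * F.d ω u - cv (ptr F J ω) -
      av (ptr F J ω) * F.d ω y| ≤ 1 / 2 ^ (MV + 1) := (h.dv ω hω).trans (inv_mono h1)
  have h9 : (1 : ℝ) / 2 ^ (MV + 1) + 1 / 2 ^ (MV + 1) = 1 / 2 ^ MV := by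
    rw [pow_succ]
    field_simp
    norm_num
  rw [e1]
  refine (abs_add_le _ _).trans ?_
  linarith

/-- The number of `v` over `y` is larger than that of `u`. -/
theorem dat_one {S : PCl m} {C₀ : ℝ} (htm : TmC S C₀) {y u v : Fin m} (hyu : y ≠ u)
    (hact : ActF S y) {W U V D P Pz ka : ℝ} (hka : 0 < ka) (hWU : W ≤ U) (hUV : U + ka ≤ V)
    (hVD : V ≤ D) (hPz : 0 ≤ Pz) (hP : Pz + 8 * ka ≤ P)
    (hu : HasA S {y} u W U) (hv1 : HasA S {y} v W V) (hv : HasA S {y, u} v W D)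
    (hcf : CfP S {y, u} W (U - W)) (ru : RepP S y {y} u W U P) (rv : RepP S y {y, u} v W D P)
    (e₁ : ℝ) (he₁ : 0 < e₁) : Bas S (fun J F A => ∃ B : F.Ω → Prop, Sub B A ∧
      Pe F.p A ≤ 4 * Pe F.p B ∧ ∃ au cu av cv th a0 c0 t2 c2 r r' : PtT F → ℝ,
        OwE F B y u v ⌊W * J⌋₊ ⌊e₁ * J⌋₊ ⌊(U - W + P) * J⌋₊ ⌊(D - W + P) * J⌋₊
          ⌊(D - W - e₁) * J⌋₊ au cu av cv th a0 c0 ∧
        Dat21 F B y u v ⌊W * J⌋₊ ⌊ka / 32 * J⌋₊ ⌊(U - W + 3 * ka + Pz + ka) * J⌋₊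
          ⌊(V - W + Pz + ka) * J⌋₊ ⌊(U - W + 3 * ka - ka) * J⌋₊ ⌊(V - W + ka / 2) * J⌋₊
          ⌊(D - W + ka) * J⌋₊ ⌊(U - W + ka) * J⌋₊ au av cu cv th t2 c2 r r') := by
  obtain ⟨e₂, he₂, hup⟩ := th_up hyu (s := ka / 8) (by linarith) hcf hv1 hVD hWU
  obtain ⟨e, he⟩ : ∃ e, e = min (min e₁ e₂) (ka / 64) := ⟨_, rfl⟩
  have he0 : 0 < e := by rw [he]; exact lt_min (lt_min he₁ he₂) (by linarith)
  have he1 : e ≤ e₁ := by rw [he]; exact (min_le_left _ _).trans (min_le_left _ _)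
  have he2 : e ≤ e₂ := by rw [he]; exact (min_le_left _ _).trans (min_le_right _ _)
  have he3 : e ≤ ka / 64 := by rw [he]; exact min_le_right _ _
  have hown := own_ev htm hyu hact hu hv ru rv (e₀ := e) (η := 1 / 2) (x := e) he0
    (by norm_num) he0
  obtain ⟨J₁, hJ₁⟩ := exists_nat_ge (1024 / ka)
  refine Bas.mono J₁ (hown.and hup) ?_
  rintro J hJ F A ⟨⟨B₁, au, cu, av, cv, th, a0, c0, s1, t1, ho⟩, hup⟩
  have j1 : (J₁ : ℝ) ≤ J := by exact_mod_cast hJ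
  have hJ0 : (0 : ℝ) ≤ J := Nat.cast_nonneg J
  have q1 : 1024 ≤ ka * J := by
    have h1 := hJ₁.trans j1
    rw [div_le_iff₀ hka] at h1
    linarith
  have t1' : Pe F.p A ≤ 2 * Pe F.p B₁ := by linarith
  have hfl : ∀ a b : ℝ, a ≤ b → ⌊a * (J : ℝ)⌋₊ ≤ ⌊b * (J : ℝ)⌋₊ := fun a b h =>
    Nat.floor_le_floor (mul_le_mul_of_nonneg_right h hJ0)
  obtain ⟨B, s2, t2, hth⟩ := hup B₁ th a0 c0 s1 t1' ho.cth ho.ca0 ho.cc0 (fun ω hω =>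
    (ho.d0 ω hω).trans (inv_mono (hfl _ _ (by linarith))))
  have hoB := ho.sub s2
  have hcast : ∀ a b : ℕ, (a : ℝ) ≤ b → a ≤ b := fun a b h => by exact_mod_cast h
  have g0 : ∀ z : ℝ, 0 ≤ z → ((⌊z * J⌋₊ : ℕ) : ℝ) ≤ z * J := fun z hz =>
    Nat.floor_le (mul_nonneg hz hJ0)
  have g1 : ∀ z : ℝ, z * J - 1 < ((⌊z * J⌋₊ : ℕ) : ℝ) := fun z => Nat.sub_one_lt_floor _
  obtain ⟨N3, hN3⟩ : ∃ N, N = ⌊(V - W - ka / 8) * (J : ℝ)⌋₊ := ⟨_, rfl⟩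
  have f1 : (V - W - ka / 8) * (J : ℝ) - 1 < N3 := by rw [hN3]; exact g1 _
  obtain ⟨G, hG⟩ : ∃ N, N = ⌊(U - W + ka / 8) * (J : ℝ)⌋₊ := ⟨_, rfl⟩
  have f2 : (G : ℝ) ≤ (U - W + ka / 8) * J := by rw [hG]; exact g0 _ (by linarith)
  rw [← hN3, ← hG] at hth
  obtain ⟨X, hX⟩ : ∃ N, N = ⌊ka / 32 * (J : ℝ)⌋₊ := ⟨_, rfl⟩
  have f3 : (X : ℝ) ≤ ka / 32 * J := by rw [hX]; exact g0 _ (by linarith)
  have f3' : ka / 32 * (J : ℝ) - 1 < X := by rw [hX]; exact g1 _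
  obtain ⟨Mq, hMq⟩ : ∃ N, N = ⌊(U - W + 3 * ka + Pz + ka) * (J : ℝ)⌋₊ := ⟨_, rfl⟩
  obtain ⟨MV, hMV⟩ : ∃ N, N = ⌊(V - W + Pz + ka) * (J : ℝ)⌋₊ := ⟨_, rfl⟩
  have f4 : (MV : ℝ) ≤ (V - W + Pz + ka) * J := by rw [hMV]; exact g0 _ (by linarith)
  obtain ⟨n1, hn1⟩ : ∃ N, N = ⌊(U - W + 3 * ka - ka) * (J : ℝ)⌋₊ := ⟨_, rfl⟩
  have f5 : (U - W + 3 * ka - ka) * (J : ℝ) - 1 < n1 := by rw [hn1]; exact g1 _
  obtain ⟨n2, hn2⟩ : ∃ N, N = ⌊(V - W + ka / 2) * (J : ℝ)⌋₊ := ⟨_, rfl⟩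
  have f6 : (V - W + ka / 2) * (J : ℝ) - 1 < n2 := by rw [hn2]; exact g1 _
  obtain ⟨nD, hnD⟩ : ∃ N, N = ⌊(D - W + ka) * (J : ℝ)⌋₊ := ⟨_, rfl⟩
  obtain ⟨nU, hnU⟩ : ∃ N, N = ⌊(U - W + ka) * (J : ℝ)⌋₊ := ⟨_, rfl⟩
  have f7 : (nU : ℝ) ≤ (U - W + ka) * J := by rw [hnU]; exact g0 _ (by linarith)
  obtain ⟨Mu, hMu⟩ : ∃ N, N = ⌊(U - W + P) * (J : ℝ)⌋₊ := ⟨_, rfl⟩
  have f8 : (U - W + P) * (J : ℝ) - 1 < Mu := by rw [hMu]; exact g1 _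
  obtain ⟨Mv, hMv⟩ : ∃ N, N = ⌊(D - W + P) * (J : ℝ)⌋₊ := ⟨_, rfl⟩
  have f9 : (D - W + P) * (J : ℝ) - 1 < Mv := by rw [hMv]; exact g1 _
  obtain ⟨E, hE⟩ : ∃ N, N = ⌊e * (J : ℝ)⌋₊ := ⟨_, rfl⟩
  have f10 : (E : ℝ) ≤ e * J := by rw [hE]; exact g0 _ he0.le
  have q2 : (U + ka) * J ≤ V * J := mul_le_mul_of_nonneg_right hUV hJ0
  have q3 : V * J ≤ D * J := mul_le_mul_of_nonneg_right hVD hJ0
  have q4 : (Pz + 8 * ka) * J ≤ P * J := mul_le_mul_of_nonneg_right hP hJ0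
  have q5 : e * J ≤ ka / 64 * J := mul_le_mul_of_nonneg_right he3 hJ0
  have m1 : G + (X + 2) ≤ N3 := hcast _ _ (by
    push_cast
    linarith only [f1, f2, f3, q1, q2])
  have m2 : E ≤ X := hcast _ _ (by linarith only [f10, f3', q5, q1])
  have m3 : Mq ≤ Mu := by
    rw [hMq, hMu]
    exact hfl _ _ (by linarith)
  have m4 : MV + 1 ≤ Mv := hcast _ _ (by
    push_cast
    linarith only [f4, f9, q1, q3, q4])
  have m5 : G + MV + 1 ≤ N3 + Mu := hcast _ _ (by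
    push_cast
    linarith only [f1, f2, f4, f8, q1, q4])
  have m6 : nU + 2 ≤ n1 := hcast _ _ (by
    push_cast
    linarith only [f5, f7, q1])
  have m7 : nU + X + 3 ≤ n2 := hcast _ _ (by
    push_cast
    linarith only [f6, f7, f3, q1, q2])
  rw [← hE, ← hMu, ← hMv] at hoB
  rw [← hX, ← hMq, ← hMV, ← hn1, ← hn2, ← hnD, ← hnU, ← hMu, ← hMv]
  refine ⟨B, fun ω hω => s1 ω (s2 ω hω), by linarith, au, cu, av, cv, th, a0, c0, fun _ => 0, cu,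
    fun _ => 1, fun _ => 0, hoB.mono (by rw [hE]; exact hfl _ _ he1) (hfl _ _ (by linarith)),
    ⟨fun _ => 0, fun _ _ => rfl⟩, ⟨fun _ => 1, fun _ _ => rfl⟩, ⟨fun _ => 0, fun _ _ => rfl⟩,
    fun ω hω => ?_, fun ω hω => ?_, fun ω hω => ?_, fun ω hω => ?_, fun ω hω t ht => ?_⟩
  · show |(0 : ℝ)| ≤ 2 ^ X
    rw [abs_zero]
    positivity
  · show |1 * au (ptr F J ω) - 0 * av (ptr F J ω)| ≤ 2 ^ X
    rw [one_mul, zero_mul, sub_zero]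
    exact (hoB.bu ω hω).1.trans (pow_le_pow_right₀ (by norm_num) m2)
  · show |F.d ω u - 0 * F.d ω v - cu (ptr F J ω) - (1 * au (ptr F J ω) - 0 * av (ptr F J ω)) *
      F.d ω y| ≤ 1 / 2 ^ Mq
    rw [zero_mul, one_mul, zero_mul, sub_zero, sub_zero]
    exact (hoB.du ω hω).trans (inv_mono m3)
  · exact hoB.va m4 m5 hω (hth ω hω)
  · refine alg_one ht ?_ m6 m7
    have h1 := hth ω hω
    rw [le_div_iff₀ (by positivity)]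
    have h2 : (2 : ℝ) ^ (G + (X + 2)) ≤ 2 ^ N3 := pow_le_pow_right₀ (by norm_num) m1
    rw [pow_add] at h2
    have h3 : |th (ptr F J ω)| * 2 ^ (X + 2) * 2 ^ G ≤ 1 * 2 ^ G := by
      calc |th (ptr F J ω)| * 2 ^ (X + 2) * 2 ^ G = |th (ptr F J ω)| * (2 ^ G * 2 ^ (X + 2)) := by
            ring
        _ ≤ |th (ptr F J ω)| * 2 ^ N3 := mul_le_mul_of_nonneg_left h2 (abs_nonneg _)
        _ ≤ 2 ^ G := h1
        _ = 1 * 2 ^ G := (one_mul _).symm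
    exact le_of_mul_le_mul_right h3 (by positivity)

/-- The number of `v` over `y` and `u` is that of `v` over `y`. -/
theorem dat_thr {S : PCl m} {C₀ : ℝ} (htm : TmC S C₀) {y u v : Fin m} (hyu : y ≠ u)
    (hact : ActF S y) {W U V D P Pz ka x : ℝ} (hka : 0 < ka) (hWU : W ≤ U)
    (hUV : U ≤ V + ka / 4) (hVU : V ≤ U + ka) (hVD : V ≤ D) (hDV : D ≤ V + ka) (hWV : W ≤ V)
    (hPz : 0 ≤ Pz) (hP : Pz + 2 * x ≤ P) (hkx : 64 * ka ≤ x)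
    (hu : HasA S {y} u W U) (hv : HasA S {y, u} v W D) (ru : RepP S y {y} u W U P)
    (rv : RepP S y {y, u} v W D P) (e₁ : ℝ) (he₁ : 0 < e₁) :
    Bas S (fun J F A => ∃ B : F.Ω → Prop, Sub B A ∧
      Pe F.p A ≤ 4 * Pe F.p B ∧ ∃ au cu av cv th a0 c0 t2 c2 r r' : PtT F → ℝ,
        OwE F B y u v ⌊W * J⌋₊ ⌊e₁ * J⌋₊ ⌊(U - W + P) * J⌋₊ ⌊(D - W + P) * J⌋₊
          ⌊(D - W - e₁) * J⌋₊ au cu av cv th a0 c0 ∧
        Dat21 F B y u v ⌊W * J⌋₊ ⌊x / 2 / 32 * J⌋₊ ⌊(D - W + 4 * ka + x / 2 + Pz + x / 2) * J⌋₊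
          ⌊(V - W + Pz + x / 2) * J⌋₊ ⌊(D - W + 4 * ka + x / 2 - x / 2) * J⌋₊
          ⌊(V - W + x / 2 / 2) * J⌋₊
          ⌊(D - W + ka) * J⌋₊ ⌊(U - W + ka) * J⌋₊ au av cu cv th t2 c2 r r') := by
  obtain ⟨e, he⟩ : ∃ e, e = min e₁ (ka / 64) := ⟨_, rfl⟩
  have he0 : 0 < e := by rw [he]; exact lt_min he₁ (by linarith)
  have he1 : e ≤ e₁ := by rw [he]; exact min_le_left _ _
  have he3 : e ≤ ka / 64 := by rw [he]; exact min_le_right _ _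
  have hown := own_ev htm hyu hact hu hv ru rv (e₀ := e) (η := 1 / 2) (x := e) he0
    (by norm_num) he0
  obtain ⟨J₁, hJ₁⟩ := exists_nat_ge (1024 / ka)
  refine Bas.mono J₁ hown ?_
  rintro J hJ F A ⟨B, au, cu, av, cv, th, a0, c0, s1, t1, hoB⟩
  have j1 : (J₁ : ℝ) ≤ J := by exact_mod_cast hJ
  have hJ0 : (0 : ℝ) ≤ J := Nat.cast_nonneg J
  have q1 : 1024 ≤ ka * J := by
    have h1 := hJ₁.trans j1
    rw [div_le_iff₀ hka] at h1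
    linarith
  have hB0 := Pe_nonneg F.isLaw B
  have t1' : Pe F.p A ≤ 4 * Pe F.p B := by linarith
  have hfl : ∀ a b : ℝ, a ≤ b → ⌊a * (J : ℝ)⌋₊ ≤ ⌊b * (J : ℝ)⌋₊ := fun a b h =>
    Nat.floor_le_floor (mul_le_mul_of_nonneg_right h hJ0)
  have hcast : ∀ a b : ℕ, (a : ℝ) ≤ b → a ≤ b := fun a b h => by exact_mod_cast h
  have g0 : ∀ z : ℝ, 0 ≤ z → ((⌊z * J⌋₊ : ℕ) : ℝ) ≤ z * J := fun z hz =>
    Nat.floor_le (mul_nonneg hz hJ0)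
  have g1 : ∀ z : ℝ, z * J - 1 < ((⌊z * J⌋₊ : ℕ) : ℝ) := fun z => Nat.sub_one_lt_floor _
  obtain ⟨X, hX⟩ : ∃ N, N = ⌊x / 2 / 32 * (J : ℝ)⌋₊ := ⟨_, rfl⟩
  have f3' : x / 2 / 32 * (J : ℝ) - 1 < X := by rw [hX]; exact g1 _
  obtain ⟨Mq, hMq⟩ : ∃ N, N = ⌊(D - W + 4 * ka + x / 2 + Pz + x / 2) * (J : ℝ)⌋₊ := ⟨_, rfl⟩
  obtain ⟨MV, hMV⟩ : ∃ N, N = ⌊(V - W + Pz + x / 2) * (J : ℝ)⌋₊ := ⟨_, rfl⟩
  have f4 : (MV : ℝ) ≤ (V - W + Pz + x / 2) * J := by rw [hMV]; exact g0 _ (by linarith)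
  obtain ⟨n1, hn1⟩ : ∃ N, N = ⌊(D - W + 4 * ka + x / 2 - x / 2) * (J : ℝ)⌋₊ := ⟨_, rfl⟩
  have f5 : (D - W + 4 * ka + x / 2 - x / 2) * (J : ℝ) - 1 < n1 := by rw [hn1]; exact g1 _
  obtain ⟨n2, hn2⟩ : ∃ N, N = ⌊(V - W + x / 2 / 2) * (J : ℝ)⌋₊ := ⟨_, rfl⟩
  have f6 : (V - W + x / 2 / 2) * (J : ℝ) - 1 < n2 := by rw [hn2]; exact g1 _
  obtain ⟨nD, hnD⟩ : ∃ N, N = ⌊(D - W + ka) * (J : ℝ)⌋₊ := ⟨_, rfl⟩
  have f11 : (nD : ℝ) ≤ (D - W + ka) * J := by rw [hnD]; exact g0 _ (by linarith)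
  obtain ⟨nU, hnU⟩ : ∃ N, N = ⌊(U - W + ka) * (J : ℝ)⌋₊ := ⟨_, rfl⟩
  have f7 : (nU : ℝ) ≤ (U - W + ka) * J := by rw [hnU]; exact g0 _ (by linarith)
  obtain ⟨Mu, hMu⟩ : ∃ N, N = ⌊(U - W + P) * (J : ℝ)⌋₊ := ⟨_, rfl⟩
  have f8 : (U - W + P) * (J : ℝ) - 1 < Mu := by rw [hMu]; exact g1 _
  obtain ⟨Mv, hMv⟩ : ∃ N, N = ⌊(D - W + P) * (J : ℝ)⌋₊ := ⟨_, rfl⟩
  have f9 : (D - W + P) * (J : ℝ) - 1 < Mv := by rw [hMv]; exact g1 _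
  obtain ⟨E, hE⟩ : ∃ N, N = ⌊e * (J : ℝ)⌋₊ := ⟨_, rfl⟩
  have f10 : (E : ℝ) ≤ e * J := by rw [hE]; exact g0 _ he0.le
  obtain ⟨K, hK⟩ : ∃ N, N = ⌊ka * (J : ℝ)⌋₊ := ⟨_, rfl⟩
  have f12 : (K : ℝ) ≤ ka * J := by rw [hK]; exact g0 _ hka.le
  have f12' : ka * (J : ℝ) - 1 < K := by rw [hK]; exact g1 _
  have q2 : U * J ≤ (V + ka / 4) * J := mul_le_mul_of_nonneg_right hUV hJ0
  have q2' : V * J ≤ (U + ka) * J := mul_le_mul_of_nonneg_right hVU hJ0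
  have q3 : V * J ≤ D * J := mul_le_mul_of_nonneg_right hVD hJ0
  have q3' : D * J ≤ (V + ka) * J := mul_le_mul_of_nonneg_right hDV hJ0
  have q4 : (Pz + 2 * x) * J ≤ P * J := mul_le_mul_of_nonneg_right hP hJ0
  have q5 : e * J ≤ ka / 64 * J := mul_le_mul_of_nonneg_right he3 hJ0
  have q6 : 64 * ka * J ≤ x * J := mul_le_mul_of_nonneg_right hkx hJ0
  have m2 : E ≤ X := hcast _ _ (by linarith only [f10, f3', q5, q1, q6])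
  have m3 : Mq ≤ Mu := by
    rw [hMq, hMu]
    exact hfl _ _ (by linarith)
  have m4 : MV + 1 ≤ Mv := hcast _ _ (by
    push_cast
    linarith only [f4, f9, q1, q3, q4, q6])
  have m5 : E + MV + 1 ≤ 0 + Mu := hcast _ _ (by
    push_cast
    linarith only [f10, f4, f8, q1, q4, q5, q2', q6])
  have m6 : nD + K + 1 ≤ n1 := hcast _ _ (by
    push_cast
    linarith only [f5, f11, f12, q1])
  have m7 : nU + 1 ≤ n1 := hcast _ _ (by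
    push_cast
    linarith only [f5, f7, q1, q2, q3])
  have m8 : nD + 1 ≤ n2 := hcast _ _ (by
    push_cast
    linarith only [f6, f11, q1, q3', q6])
  have m9 : E + 1 ≤ K := hcast _ _ (by
    push_cast
    linarith only [f10, f12', q5, q1])
  rw [← hE, ← hMu, ← hMv] at hoB
  rw [← hX, ← hMq, ← hMV, ← hn1, ← hn2, ← hnD, ← hnU, ← hMu, ← hMv]
  refine ⟨B, s1, t1', au, cu, av, cv, th, a0, c0, fun _ => 0, cu,
    fun _ => 1, fun _ => 0, hoB.mono (by rw [hE]; exact hfl _ _ he1) (hfl _ _ (by linarith)),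
    ⟨fun _ => 0, fun _ _ => rfl⟩, ⟨fun _ => 1, fun _ _ => rfl⟩, ⟨fun _ => 0, fun _ _ => rfl⟩,
    fun ω hω => ?_, fun ω hω => ?_, fun ω hω => ?_, fun ω hω => ?_, fun ω hω t ht => ?_⟩
  · show |(0 : ℝ)| ≤ 2 ^ X
    rw [abs_zero]
    positivity
  · show |1 * au (ptr F J ω) - 0 * av (ptr F J ω)| ≤ 2 ^ X
    rw [one_mul, zero_mul, sub_zero]
    exact (hoB.bu ω hω).1.trans (pow_le_pow_right₀ (by norm_num) m2)
  · show |F.d ω u - 0 * F.d ω v - cu (ptr F J ω) - (1 * au (ptr F J ω) - 0 * av (ptr F J ω)) *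
      F.d ω y| ≤ 1 / 2 ^ Mq
    rw [zero_mul, one_mul, zero_mul, sub_zero, sub_zero]
    exact (hoB.du ω hω).trans (inv_mono m3)
  · exact hoB.va m4 m5 hω (by
      rw [pow_zero, mul_one]
      exact (hoB.bv ω hω).1)
  · exact alg_thr (hoB.bv ω hω).1 m9 m6 m7 m8

/-- The closed slope of `v` over `u` has its natural size. -/
theorem dat_two {S : PCl m} {C₀ : ℝ} (htm : TmC S C₀)
    {L : Finset (Fin m) → Fin m → ℝ → ℝ → ℝ} (hL : LamW S L) {y u v : Fin m} (hyu : y ≠ u)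
    (hact : ActF S y) {W U V D P Pz ka x q : ℝ} (hW0 : 0 ≤ W) (hU : L {y} u W 0 = U)
    (hV : L {y} v W 0 = V) (hka : 0 < ka) (hWU : W ≤ U)
    (hUV : U ≤ V + ka / 4) (hVU : V ≤ U + ka) (hDV : V + ka ≤ D) (hWV : W ≤ V)
    (hV1 : V + ka ≤ 1)
    (hPz : 0 ≤ Pz) (hP : Pz + 2 * x ≤ P) (hkx : 64 * ka ≤ x) (hq1 : D - W + 4 * ka + x ≤ q)
    (hq2 : q + Pz + 2 * x ≤ D - W + P)
    (hu : HasA S {y} u W U) (hv : HasA S {y, u} v W D) (ru : RepP S y {y} u W U P)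
    (rv : RepP S y {y, u} v W D P) (e₁ : ℝ) (he₁ : 0 < e₁) :
    Bas S (fun J F A => ∃ B : F.Ω → Prop, Sub B A ∧
      Pe F.p A ≤ 4 * Pe F.p B ∧ ∃ au cu av cv th a0 c0 t2 c2 r r' : PtT F → ℝ,
        OwE F B y u v ⌊W * J⌋₊ ⌊e₁ * J⌋₊ ⌊(U - W + P) * J⌋₊ ⌊(D - W + P) * J⌋₊
          ⌊(D - W - e₁) * J⌋₊ au cu av cv th a0 c0 ∧
        Dat21 F B y u v ⌊W * J⌋₊ ⌊x / 32 * J⌋₊ ⌊(q + Pz + x) * J⌋₊
          ⌊(V - W + Pz + x) * J⌋₊ ⌊(q - x) * J⌋₊ ⌊(V - W + x / 2) * J⌋₊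
          ⌊(D - W + ka) * J⌋₊ ⌊(U - W + ka) * J⌋₊ au av cu cv th t2 c2 r r') := by
  obtain ⟨e₂, he₂, hlow⟩ := th_low htm hL hact (D := D) (s := ka / 2) hW0 (by linarith)
    (by rw [hV]; exact hWV) (by rw [hV]; linarith) (by rw [hV]; linarith)
    (by rw [hU]; exact hu)
  rw [hU, hV] at hlow
  obtain ⟨e, he⟩ : ∃ e, e = min (min e₁ e₂) (ka / 64) := ⟨_, rfl⟩
  have he0 : 0 < e := by rw [he]; exact lt_min (lt_min he₁ he₂) (by linarith)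
  have he1 : e ≤ e₁ := by rw [he]; exact (min_le_left _ _).trans (min_le_left _ _)
  have he2 : e ≤ e₂ := by rw [he]; exact (min_le_left _ _).trans (min_le_right _ _)
  have he3 : e ≤ ka / 64 := by rw [he]; exact min_le_right _ _
  have hown := own_ev htm hyu hact hu hv ru rv (e₀ := e) (η := 1 / 2) (x := e) he0
    (by norm_num) he0
  obtain ⟨J₁, hJ₁⟩ := exists_nat_ge (1024 / ka)
  refine Bas.mono J₁ (hown.and hlow) ?_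
  rintro J hJ F A ⟨⟨B₁, au, cu, av, cv, th, a0, c0, s1, t1, ho⟩, hlow⟩
  have j1 : (J₁ : ℝ) ≤ J := by exact_mod_cast hJ
  have hJ0 : (0 : ℝ) ≤ J := Nat.cast_nonneg J
  have q1 : 1024 ≤ ka * J := by
    have h1 := hJ₁.trans j1
    rw [div_le_iff₀ hka] at h1
    linarith
  have t1' : Pe F.p A ≤ 2 * Pe F.p B₁ := by linarith
  have hfl : ∀ a b : ℝ, a ≤ b → ⌊a * (J : ℝ)⌋₊ ≤ ⌊b * (J : ℝ)⌋₊ := fun a b h =>
    Nat.floor_le_floor (mul_le_mul_of_nonneg_right h hJ0)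
  obtain ⟨B, s2, t2, hth⟩ := hlow B₁ th a0 c0 ⌊e * (J : ℝ)⌋₊ s1 t1' (hfl _ _ he2)
    (fun ω hω => (ho.bv ω hω).1) ho.cth ho.ca0 ho.cc0 (fun ω hω =>
    (ho.d0 ω hω).trans (inv_mono (hfl _ _ (by linarith))))
  have hoB := ho.sub s2
  have hcast : ∀ a b : ℕ, (a : ℝ) ≤ b → a ≤ b := fun a b h => by exact_mod_cast h
  have g0 : ∀ z : ℝ, 0 ≤ z → ((⌊z * J⌋₊ : ℕ) : ℝ) ≤ z * J := fun z hz =>
    Nat.floor_le (mul_nonneg hz hJ0)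
  have g1 : ∀ z : ℝ, z * J - 1 < ((⌊z * J⌋₊ : ℕ) : ℝ) := fun z => Nat.sub_one_lt_floor _
  obtain ⟨X, hX⟩ : ∃ N, N = ⌊x / 32 * (J : ℝ)⌋₊ := ⟨_, rfl⟩
  have f3' : x / 32 * (J : ℝ) - 1 < X := by rw [hX]; exact g1 _
  have hmx : max (V - U) 0 ≤ ka := max_le (by linarith) hka.le
  obtain ⟨T, hT⟩ : ∃ N, N = ⌊(max (V - U) 0 + ka / 2) * (J : ℝ)⌋₊ := ⟨_, rfl⟩
  have f1 : (T : ℝ) ≤ (ka + ka / 2) * J := by
    have h1 : (T : ℝ) ≤ (max (V - U) 0 + ka / 2) * J := by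
      rw [hT]
      exact g0 _ (by
        have := le_max_right (V - U) 0
        linarith)
    exact h1.trans (mul_le_mul_of_nonneg_right (by linarith) hJ0)
  rw [← hT] at hth
  obtain ⟨Mq, hMq⟩ : ∃ N, N = ⌊(q + Pz + x) * (J : ℝ)⌋₊ := ⟨_, rfl⟩
  have f2 : (Mq : ℝ) ≤ (q + Pz + x) * J := by
    rw [hMq]
    exact g0 _ (by linarith)
  obtain ⟨MV, hMV⟩ : ∃ N, N = ⌊(V - W + Pz + x) * (J : ℝ)⌋₊ := ⟨_, rfl⟩
  have f4 : (MV : ℝ) ≤ (V - W + Pz + x) * J := by rw [hMV]; exact g0 _ (by linarith)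
  obtain ⟨n1, hn1⟩ : ∃ N, N = ⌊(q - x) * (J : ℝ)⌋₊ := ⟨_, rfl⟩
  have f5 : (q - x) * (J : ℝ) - 1 < n1 := by rw [hn1]; exact g1 _
  obtain ⟨n2, hn2⟩ : ∃ N, N = ⌊(V - W + x / 2) * (J : ℝ)⌋₊ := ⟨_, rfl⟩
  have f6 : (V - W + x / 2) * (J : ℝ) - 1 < n2 := by rw [hn2]; exact g1 _
  obtain ⟨nD, hnD⟩ : ∃ N, N = ⌊(D - W + ka) * (J : ℝ)⌋₊ := ⟨_, rfl⟩
  have f11 : (nD : ℝ) ≤ (D - W + ka) * J := by rw [hnD]; exact g0 _ (by linarith)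
  obtain ⟨nU, hnU⟩ : ∃ N, N = ⌊(U - W + ka) * (J : ℝ)⌋₊ := ⟨_, rfl⟩
  have f7 : (nU : ℝ) ≤ (U - W + ka) * J := by rw [hnU]; exact g0 _ (by linarith)
  obtain ⟨Mu, hMu⟩ : ∃ N, N = ⌊(U - W + P) * (J : ℝ)⌋₊ := ⟨_, rfl⟩
  have f8 : (U - W + P) * (J : ℝ) - 1 < Mu := by rw [hMu]; exact g1 _
  obtain ⟨Mv, hMv⟩ : ∃ N, N = ⌊(D - W + P) * (J : ℝ)⌋₊ := ⟨_, rfl⟩
  have f9 : (D - W + P) * (J : ℝ) - 1 < Mv := by rw [hMv]; exact g1 _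
  obtain ⟨E, hE⟩ : ∃ N, N = ⌊e * (J : ℝ)⌋₊ := ⟨_, rfl⟩
  have f10 : (E : ℝ) ≤ e * J := by rw [hE]; exact g0 _ he0.le
  obtain ⟨K, hK⟩ : ∃ N, N = ⌊ka * (J : ℝ)⌋₊ := ⟨_, rfl⟩
  have f12 : (K : ℝ) ≤ ka * J := by rw [hK]; exact g0 _ hka.le
  have f12' : ka * (J : ℝ) - 1 < K := by rw [hK]; exact g1 _
  have q2 : U * J ≤ (V + ka / 4) * J := mul_le_mul_of_nonneg_right hUV hJ0
  have q2' : V * J ≤ (U + ka) * J := mul_le_mul_of_nonneg_right hVU hJ0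
  have q3 : (V + ka) * J ≤ D * J := mul_le_mul_of_nonneg_right hDV hJ0
  have q4 : (Pz + 2 * x) * J ≤ P * J := mul_le_mul_of_nonneg_right hP hJ0
  have q5 : e * J ≤ ka / 64 * J := mul_le_mul_of_nonneg_right he3 hJ0
  have q6 : 64 * ka * J ≤ x * J := mul_le_mul_of_nonneg_right hkx hJ0
  have q7 : (D - W + 4 * ka + x) * J ≤ q * J := mul_le_mul_of_nonneg_right hq1 hJ0
  have q8 : (q + Pz + 2 * x) * J ≤ (D - W + P) * J := mul_le_mul_of_nonneg_right hq2 hJ0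
  have m2 : E + T ≤ X := hcast _ _ (by
    push_cast
    linarith only [f10, f3', f1, q5, q1, q6])
  have m3 : T + Mq ≤ Mv := hcast _ _ (by
    push_cast
    linarith only [f1, f2, f9, q1, q6, q8])
  have m4 : MV + 1 ≤ Mv := hcast _ _ (by
    push_cast
    linarith only [f4, f9, q1, q3, q4, q6])
  have m5 : E + MV + 1 ≤ 0 + Mu := hcast _ _ (by
    push_cast
    linarith only [f10, f4, f8, q1, q4, q5, q2', q6])
  have m6 : nD + K ≤ n1 := hcast _ _ (by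
    push_cast
    linarith only [f5, f11, f12, q1, q7])
  have m7 : nU + 2 ≤ n1 := hcast _ _ (by
    push_cast
    linarith only [f5, f7, q1, q2, q3, q7])
  have m8 : nU + T + 1 ≤ n2 := hcast _ _ (by
    push_cast
    linarith only [f6, f7, f1, q1, q2, q6])
  have m9 : E + 1 ≤ K := hcast _ _ (by
    push_cast
    linarith only [f10, f12', q5, q1])
  rw [← hE, ← hMu, ← hMv] at hoB
  rw [← hX, ← hMq, ← hMV, ← hn1, ← hn2, ← hnD, ← hnU, ← hMu, ← hMv]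
  have hpos : ∀ ω, B ω → 0 < |th (ptr F J ω)| := fun ω hω =>
    lt_of_lt_of_le (by positivity) (hth ω hω)
  have hinv : ∀ ω, B ω → |1 / th (ptr F J ω)| ≤ 2 ^ T := by
    intro ω hω
    have h1 := hpos ω hω
    have h2 := hth ω hω
    rw [abs_div, abs_one, div_le_iff₀ h1]
    rw [div_le_iff₀ (by positivity)] at h2
    linarith
  obtain ⟨th', hth'⟩ := hoB.cth
  refine ⟨B, fun ω hω => s1 ω (s2 ω hω), by linarith, au, cu, av, cv, th, a0, c0,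
    fun p => 1 / th p, fun p => -(cv p / th p),
    fun _ => 0, fun p => 1 / th p, hoB.mono (by rw [hE]; exact hfl _ _ he1)
      (hfl _ _ (by linarith)),
    ⟨fun s => 1 / th' s, fun ω hω => congrArg (fun z : ℝ => 1 / z) (hth' ω hω)⟩,
    ⟨fun _ => 0, fun _ _ => rfl⟩,
    ⟨fun s => 1 / th' s, fun ω hω => congrArg (fun z : ℝ => 1 / z) (hth' ω hω)⟩,
    fun ω hω => ?_, fun ω hω => ?_, fun ω hω => ?_, fun ω hω => ?_, fun ω hω t ht => ?_⟩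
  · exact (hinv ω hω).trans (pow_le_pow_right₀ (by norm_num) (by omega))
  · show |0 * au (ptr F J ω) - 1 / th (ptr F J ω) * av (ptr F J ω)| ≤ 2 ^ X
    rw [zero_mul, zero_sub, abs_neg, abs_mul]
    have h1 := mul_le_mul (hinv ω hω) (hoB.bv ω hω).2.1 (abs_nonneg _) (by positivity)
    refine h1.trans ?_
    rw [← pow_add]
    exact pow_le_pow_right₀ (by norm_num) (by omega)
  · show |F.d ω u - 1 / th (ptr F J ω) * F.d ω v - -(cv (ptr F J ω) / th (ptr F J ω)) -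
      (0 * au (ptr F J ω) - 1 / th (ptr F J ω) * av (ptr F J ω)) * F.d ω y| ≤ 1 / 2 ^ Mq
    have hne : th (ptr F J ω) ≠ 0 := abs_pos.1 (hpos ω hω)
    have e1 : F.d ω u - 1 / th (ptr F J ω) * F.d ω v - -(cv (ptr F J ω) / th (ptr F J ω)) -
        (0 * au (ptr F J ω) - 1 / th (ptr F J ω) * av (ptr F J ω)) * F.d ω y =
        -(1 / th (ptr F J ω) * (F.d ω v - th (ptr F J ω) * F.d ω u - cv (ptr F J ω) -
          av (ptr F J ω) * F.d ω y)) := by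
      field_simp
      ring
    rw [e1, abs_neg, abs_mul]
    have h1 := mul_le_mul (hinv ω hω) (hoB.dv ω hω) (abs_nonneg _) (by positivity)
    refine h1.trans ?_
    rw [mul_one_div, div_le_div_iff₀ (by positivity) (by positivity), one_mul, ← pow_add]
    exact pow_le_pow_right₀ (by norm_num) m3
  · exact hoB.va m4 m5 hω (by
      rw [pow_zero, mul_one]
      exact (hoB.bv ω hω).1)
  · exact alg_two (hoB.bv ω hω).1 (hth ω hω) m9 m6 m7 m8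

end Pool.OWN72
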