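import Pool.Agent.H72.OWN.Cfl
import Pool.Agent.H6.STAT.RateC

/-!
# Closed gradients and spread, with real exponents

`Ex J z = 2 ^ (-(z J))`. The statements `lvl_cls`, `spr_cls`, `HasA` in this form, for one and for
two coordinates; large and small parts of an event.
-/

set_option autoImplicit false

namespace Pool.OWN40

open Finset MvPolynomial
open Pool.Agent.H49.Ent Pool.Agent.H32.Dense Pool.STK Pool.KA Pool.KSAT Pool.K2S Pool.PB Pool.GEN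
open Pool.S6C
open Pool.JVE (DpI)
open Pool.MIC6 (Dp res_of ActF)
open Pool.OWN72

variable {m n J : ℕ}

/-- The precision `2 ^ (-(z J))`. -/
noncomputable def Ex (J : ℕ) (z : ℝ) : ℝ := (2 : ℝ) ^ (-(z * (J : ℝ)))

theorem Ex_pos (J : ℕ) (z : ℝ) : 0 < Ex J z := Real.rpow_pos_of_pos two_pos _

theorem Ex_mul (J : ℕ) (z z' : ℝ) : Ex J z * Ex J z' = Ex J (z + z') := by
  unfold Ex
  rw [← Real.rpow_add two_pos]
  congr 1
  ring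

theorem Ex_mono {J : ℕ} {z z' : ℝ} (h : z' ≤ z) : Ex J z ≤ Ex J z' := by
  unfold Ex
  refine Real.rpow_le_rpow_of_exponent_le one_le_two ?_
  have := mul_le_mul_of_nonneg_right h (Nat.cast_nonneg (α := ℝ) J)
  linarith

theorem Ex_le1 {J : ℕ} {z : ℝ} (h : 0 ≤ z) : Ex J z ≤ 1 := by
  have h1 := Ex_mono (J := J) h
  have h2 : Ex J 0 = 1 := by
    unfold Ex
    rw [zero_mul, neg_zero, Real.rpow_zero]
  rwa [h2] at h1

/-- Constants are absorbed. -/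
theorem Ex_c {J : ℕ} {C x z z' : ℝ} (hC : 64 ≤ Ex J (-x)) (hC' : C ≤ 64) (h : z' + x ≤ z) :
    C * Ex J z ≤ Ex J z' := by
  have h1 := Ex_mono (J := J) (by linarith : z' + x ≤ z)
  have h2 : Ex J (z' + x) * Ex J (-x) = Ex J z' := by
    rw [Ex_mul]
    congr 1
    ring
  have h3 := Ex_pos J z
  have h4 := Ex_pos J (z' + x)
  calc C * Ex J z ≤ 64 * Ex J z := mul_le_mul_of_nonneg_right hC' h3.le
    _ ≤ 64 * Ex J (z' + x) := by linarith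
    _ ≤ Ex J (-x) * Ex J (z' + x) := mul_le_mul_of_nonneg_right hC h4.le
    _ = Ex J z' := by rw [mul_comm, h2]

theorem pow_ex (n : ℕ) : (1 : ℝ) / 2 ^ n = (2 : ℝ) ^ (-(n : ℝ)) := by
  rw [Real.rpow_neg two_pos.le, Real.rpow_natCast, one_div]

theorem Ex_lo {J : ℕ} {z : ℝ} (hz : 0 ≤ z) : Ex J z ≤ 1 / 2 ^ ⌊z * (J : ℝ)⌋₊ := by
  rw [pow_ex]
  unfold Ex
  refine Real.rpow_le_rpow_of_exponent_le one_le_two ?_
  have h1 : (⌊z * (J : ℝ)⌋₊ : ℝ) ≤ z * J :=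
    Nat.floor_le (mul_nonneg hz (Nat.cast_nonneg J))
  linarith

theorem Ex_hi {J M : ℕ} {z : ℝ} (h : ⌊z * (J : ℝ)⌋₊ ≤ M) : 1 / 2 ^ M ≤ 2 * Ex J z := by
  have h0 : (2 : ℝ) * Ex J z = (2 : ℝ) ^ (1 - z * (J : ℝ)) := by
    unfold Ex
    rw [show (1 : ℝ) - z * J = 1 + -(z * J) by ring, Real.rpow_add two_pos, Real.rpow_one]
  rw [pow_ex, h0]
  refine Real.rpow_le_rpow_of_exponent_le one_le_two ?_
  have h1 : z * (J : ℝ) - 1 < ⌊z * (J : ℝ)⌋₊ := Nat.sub_one_lt_floor _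
  have h2 : (⌊z * (J : ℝ)⌋₊ : ℝ) ≤ M := by exact_mod_cast h
  linarith

theorem Ex_up {J : ℕ} {x : ℝ} (hx : 0 ≤ x) : (2 : ℝ) ^ ⌊x * (J : ℝ)⌋₊ ≤ Ex J (-x) := by
  unfold Ex
  rw [← Real.rpow_natCast]
  refine Real.rpow_le_rpow_of_exponent_le one_le_two ?_
  have h1 : (⌊x * (J : ℝ)⌋₊ : ℝ) ≤ x * J :=
    Nat.floor_le (mul_nonneg hx (Nat.cast_nonneg J))
  linarith

theorem Ex_dn {J : ℕ} {x y : ℝ} (h : x * J + 1 ≤ y * J) :
    Ex J (-x) ≤ (2 : ℝ) ^ ⌊y * (J : ℝ)⌋₊ := by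
  unfold Ex
  rw [← Real.rpow_natCast]
  refine Real.rpow_le_rpow_of_exponent_le one_le_two ?_
  have h1 : y * (J : ℝ) - 1 < ⌊y * (J : ℝ)⌋₊ := Nat.sub_one_lt_floor _
  linarith

theorem Ex_ev {x : ℝ} (hx : 0 < x) (C : ℝ) : ∃ J₁ : ℕ, ∀ J ≥ J₁, C ≤ Ex J (-x) := by
  have hl2 : 0 < Real.log 2 := Real.log_pos one_lt_two
  obtain ⟨J₁, hJ₁⟩ := exists_nat_ge (C / (x * Real.log 2))
  refine ⟨J₁, fun J hJ => ?_⟩
  have hJr : (J₁ : ℝ) ≤ J := by exact_mod_cast hJ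
  have h1 := hJ₁.trans hJr
  rw [div_le_iff₀ (mul_pos hx hl2)] at h1
  have h2 : Ex J (-x) = Real.exp (Real.log 2 * (x * J)) := by
    unfold Ex
    rw [Real.rpow_def_of_pos two_pos]
    congr 1
    ring
  rw [h2]
  have h3 := Real.add_one_le_exp (Real.log 2 * (x * J))
  linarith

/-- **Closed gradients finer than the numbers.** -/
theorem lvl_e {S : PCl m} {L : Finset (Fin m) → Fin m → ℝ → ℝ → ℝ} (hL : LamW S L)
    {I : Finset (Fin m)} {v : Fin m} {W s : ℝ} (hW0 : 0 ≤ W) (hs : 0 < s)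
    (hLW : W ≤ L I v W 0) (hLs : L I v W 0 + 2 * s ≤ 1) :
    ∃ d : ℝ, 0 < d ∧ ∀ e : ℝ, 0 < e → e ≤ d → ∃ δ : ℝ, 0 < δ ∧ Bas S (fun J F A =>
      ∀ (B : F.Ω → Prop) (a : PtT F → Fin m → ℝ) (c : PtT F → ℝ) (th : LnT F → Fin m → ℝ),
        Sub B A → (∀ ω, B ω → (∀ k ∈ I, |a (ptr F J ω) k| ≤ Ex J (-e)) ∧
          |c (ptr F J ω)| ≤ Ex J (-e) ∧
          |F.d ω v - c (ptr F J ω) - ∑ k ∈ I, a (ptr F J ω) k * F.d ω k| ≤
            Ex J (L I v W 0 - W + s) ∧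
          ∀ k ∈ I, |th (slam F ⌊W * J⌋₊ ω) k - a (ptr F J ω) k| ≤ Ex J (L I v W 0 - W + s)) →
        Pe F.p B ≤ Real.exp (-(δ * J)) * Pe F.p A) := by
  obtain ⟨d, hd, h⟩ := lvl_cls hL hW0 hs hLW hLs
  refine ⟨d / 2, by linarith, fun e he hed => ?_⟩
  obtain ⟨δ, hδ, hb⟩ := h (2 * e) (by linarith) (by linarith)
  obtain ⟨J₁, hJ₁⟩ := exists_nat_ge (1 / e)
  refine ⟨δ, hδ, Bas.mono J₁ hb ?_⟩
  intro J hJ F A hA B a c th hBA hB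
  have hJr : (J₁ : ℝ) ≤ J := by exact_mod_cast hJ
  have h1 := hJ₁.trans hJr
  rw [div_le_iff₀ he] at h1
  have h2 : Ex J (-e) ≤ (2 : ℝ) ^ ⌊2 * e * (J : ℝ)⌋₊ := Ex_dn (by linarith)
  have h3 : Ex J (L I v W 0 - W + s) ≤ 1 / 2 ^ ⌊(L I v W 0 - W + s) * (J : ℝ)⌋₊ :=
    Ex_lo (by linarith)
  refine hA B ⌊(L I v W 0 - W + s) * (J : ℝ)⌋₊ a c th hBA (fun ω hω => ?_)
    (fun ω hω k hk => ((hB ω hω).2.2.2 k hk).trans h3) le_rfl
  obtain ⟨b1, b2, b3, -⟩ := hB ω hω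
  exact ⟨fun k hk => (b1 k hk).trans h2, b2.trans h2, b3.trans h3⟩

/-- One coordinate. -/
theorem lvl1 {S : PCl m} {L : Finset (Fin m) → Fin m → ℝ → ℝ → ℝ} (hL : LamW S L)
    {y u : Fin m} {W s : ℝ} (hW0 : 0 ≤ W) (hs : 0 < s)
    (hLW : W ≤ L {y} u W 0) (hLs : L {y} u W 0 + 2 * s ≤ 1) :
    ∃ d : ℝ, 0 < d ∧ ∀ e : ℝ, 0 < e → e ≤ d → ∃ δ : ℝ, 0 < δ ∧ Bas S (fun J F A =>
      ∀ (B : F.Ω → Prop) (a c : PtT F → ℝ) (th : LnT F → ℝ),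
        Sub B A → (∀ ω, B ω → |a (ptr F J ω)| ≤ Ex J (-e) ∧ |c (ptr F J ω)| ≤ Ex J (-e) ∧
          |F.d ω u - c (ptr F J ω) - a (ptr F J ω) * F.d ω y| ≤ Ex J (L {y} u W 0 - W + s) ∧
          |th (slam F ⌊W * J⌋₊ ω) - a (ptr F J ω)| ≤ Ex J (L {y} u W 0 - W + s)) →
        Pe F.p B ≤ Real.exp (-(δ * J)) * Pe F.p A) := by
  obtain ⟨d, hd, h⟩ := lvl_e hL hW0 hs hLW hLs
  refine ⟨d, hd, fun e he hed => ?_⟩
  obtain ⟨δ, hδ, hb⟩ := h e he hed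
  refine ⟨δ, hδ, Bas.mono 0 hb ?_⟩
  intro J _ F A hA B a c th hBA hB
  refine hA B (fun p _ => a p) c (fun s _ => th s) hBA fun ω hω => ?_
  obtain ⟨b1, b2, b3, b4⟩ := hB ω hω
  refine ⟨fun _ _ => b1, b2, ?_, fun _ _ => b4⟩
  rwa [Finset.sum_singleton]

/-- Two coordinates. -/
theorem lvl2 {S : PCl m} {L : Finset (Fin m) → Fin m → ℝ → ℝ → ℝ} (hL : LamW S L)
    {y u v : Fin m} (hyu : y ≠ u) {W s : ℝ} (hW0 : 0 ≤ W) (hs : 0 < s)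
    (hLW : W ≤ L {y, u} v W 0) (hLs : L {y, u} v W 0 + 2 * s ≤ 1) :
    ∃ d : ℝ, 0 < d ∧ ∀ e : ℝ, 0 < e → e ≤ d → ∃ δ : ℝ, 0 < δ ∧ Bas S (fun J F A =>
      ∀ (B : F.Ω → Prop) (a b c : PtT F → ℝ) (tha thb : LnT F → ℝ),
        Sub B A → (∀ ω, B ω → |a (ptr F J ω)| ≤ Ex J (-e) ∧ |b (ptr F J ω)| ≤ Ex J (-e) ∧
          |c (ptr F J ω)| ≤ Ex J (-e) ∧
          |F.d ω v - c (ptr F J ω) - (a (ptr F J ω) * F.d ω y + b (ptr F J ω) * F.d ω u)| ≤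
            Ex J (L {y, u} v W 0 - W + s) ∧
          |tha (slam F ⌊W * J⌋₊ ω) - a (ptr F J ω)| ≤ Ex J (L {y, u} v W 0 - W + s) ∧
          |thb (slam F ⌊W * J⌋₊ ω) - b (ptr F J ω)| ≤ Ex J (L {y, u} v W 0 - W + s)) →
        Pe F.p B ≤ Real.exp (-(δ * J)) * Pe F.p A) := by
  classical
  obtain ⟨d, hd, h⟩ := lvl_e hL hW0 hs hLW hLs
  refine ⟨d, hd, fun e he hed => ?_⟩
  obtain ⟨δ, hδ, hb⟩ := h e he hed
  refine ⟨δ, hδ, Bas.mono 0 hb ?_⟩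
  intro J _ F A hA B a b c tha thb hBA hB
  refine hA B (fun p k => if k = y then a p else b p) c
    (fun s k => if k = y then tha s else thb s) hBA fun ω hω => ?_
  obtain ⟨b1, b2, b3, b4, b5, b6⟩ := hB ω hω
  refine ⟨fun k _ => ?_, b3, ?_, fun k _ => ?_⟩
  · by_cases hk : k = y
    · rw [if_pos hk]
      exact b1
    · rw [if_neg hk]
      exact b2
  · rw [Finset.sum_pair hyu, if_pos rfl, if_neg hyu.symm]
    exact b4
  · by_cases hk : k = y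
    · rw [if_pos hk, if_pos hk]
      exact b5
    · rw [if_neg hk, if_neg hk]
      exact b6

/-- **Spread**, with a bound which is a function of the exact point. -/
theorem spr_e {S : PCl m} {C₀ : ℝ} (htm : TmC S C₀) {y : Fin m} (hact : ActF S y) {γ η : ℝ}
    (hγ : 0 < γ) (hη : 0 < η) :
    Bas S (fun J F A => ∀ (f g R : PtT F → ℝ),
      (∀ ω, A ω → 0 < R (ptr F J ω) ∧
        |f (ptr F J ω) + g (ptr F J ω) * F.d ω y| ≤ R (ptr F J ω)) →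
      ∃ B : F.Ω → Prop, Sub B A ∧ (1 - η) * Pe F.p A ≤ Pe F.p B ∧
        ∀ ω, B ω → |g (ptr F J ω)| ≤ Ex J (-γ) * R (ptr F J ω)) := by
  refine Bas.mono 0 (spr_cls htm hact hγ hη) ?_
  intro J _ F A hA f g R h
  obtain ⟨B, b1, b2, b3⟩ := hA (fun p => f p / R p) (fun p => g p / R p) 1 one_pos (by
    intro ω hω
    obtain ⟨h1, h2⟩ := h ω hω
    have e1 : f (ptr F J ω) / R (ptr F J ω) + g (ptr F J ω) / R (ptr F J ω) * F.d ω y =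
        (f (ptr F J ω) + g (ptr F J ω) * F.d ω y) / R (ptr F J ω) := by
      field_simp
    show |f (ptr F J ω) / R (ptr F J ω) + g (ptr F J ω) / R (ptr F J ω) * F.d ω y| ≤ 1
    rw [e1, abs_div, abs_of_pos h1, div_le_one h1]
    exact h2)
  refine ⟨B, b1, b2, fun ω hω => ?_⟩
  have h1 := (h ω (b1 ω hω)).1
  have h2 : |g (ptr F J ω) / R (ptr F J ω)| ≤ 2 ^ ⌊γ * (J : ℝ)⌋₊ * 1 := b3 ω hω
  rw [abs_div, abs_of_pos h1, div_le_iff₀ h1, mul_one] at h2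
  exact h2.trans (mul_le_mul_of_nonneg_right (Ex_up hγ.le) h1.le)

/-- One coordinate. -/
theorem has1 {S : PCl m} {y u : Fin m} {w N x : ℝ} (h : HasA S {y} u w N) (hx : 0 < x) :
    Bas S (fun J F A => ∃ (a c : PtT F → ℝ) (a' : LnT F → ℝ), ∀ ω, A ω →
      |a (ptr F J ω)| ≤ Ex J (-x) ∧ |c (ptr F J ω)| ≤ Ex J (-x) ∧
      |F.d ω u - c (ptr F J ω) - a (ptr F J ω) * F.d ω y| ≤ 2 * Ex J (N - w - x) ∧
      a (ptr F J ω) = a' (slam F ⌊w * J⌋₊ ω)) := by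
  refine Bas.mono 0 (h x hx) ?_
  rintro J - F A ⟨a, c, h⟩
  obtain ⟨a', ha'⟩ := h.ca y (Finset.mem_singleton_self y)
  refine ⟨fun p => a p y, c, a', fun ω hω => ?_⟩
  obtain ⟨b1, b2, b3⟩ := h.dp ω hω
  rw [Finset.sum_singleton] at b3
  exact ⟨(b1 y (Finset.mem_singleton_self y)).trans (Ex_up hx.le), b2.trans (Ex_up hx.le),
    b3.trans (Ex_hi le_rfl), ha' ω hω⟩

/-- Two coordinates. -/
theorem has2 {S : PCl m} {y u v : Fin m} (hyu : y ≠ u) {w N x : ℝ} (h : HasA S {y, u} v w N)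
    (hx : 0 < x) :
    Bas S (fun J F A => ∃ (a b c : PtT F → ℝ) (a' b' : LnT F → ℝ), ∀ ω, A ω →
      |a (ptr F J ω)| ≤ Ex J (-x) ∧ |b (ptr F J ω)| ≤ Ex J (-x) ∧ |c (ptr F J ω)| ≤ Ex J (-x) ∧
      |F.d ω v - c (ptr F J ω) - (a (ptr F J ω) * F.d ω y + b (ptr F J ω) * F.d ω u)| ≤
        2 * Ex J (N - w - x) ∧
      a (ptr F J ω) = a' (slam F ⌊w * J⌋₊ ω) ∧ b (ptr F J ω) = b' (slam F ⌊w * J⌋₊ ω)) := by
  refine Bas.mono 0 (h x hx) ?_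
  rintro J - F A ⟨a, c, h⟩
  have m1 : y ∈ ({y, u} : Finset (Fin m)) := by simp
  have m2 : u ∈ ({y, u} : Finset (Fin m)) := by simp
  obtain ⟨a', ha'⟩ := h.ca y m1
  obtain ⟨b', hb'⟩ := h.ca u m2
  refine ⟨fun p => a p y, fun p => a p u, c, a', b', fun ω hω => ?_⟩
  obtain ⟨b1, b2, b3⟩ := h.dp ω hω
  rw [Finset.sum_pair hyu] at b3
  exact ⟨(b1 y m1).trans (Ex_up hx.le), (b1 u m2).trans (Ex_up hx.le), b2.trans (Ex_up hx.le),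
    b3.trans (Ex_hi le_rfl), ha' ω hω, hb' ω hω⟩

/-- Statements for all the large parts. -/
theorem bas_lrg {S : PCl m} {Φ : Stat m} (h : Bas S Φ) : ∃ τ : ℝ, 0 < τ ∧ ∀ δ ≤ τ,
    Bas S (fun J F A => ∀ B : F.Ω → Prop, Sub B A →
      Real.exp (-(δ * J)) * Pe F.p A ≤ Pe F.p B → Φ J F B) := by
  obtain ⟨τ, hτ, hb⟩ := Pool.GEN.Bas.her h
  refine ⟨τ, hτ, fun δ hδ => Bas.mono 0 hb ?_⟩
  intro J _ F A hA B hB hP
  refine hA B hB (le_trans (mul_le_mul_of_nonneg_right (Real.exp_le_exp.2 ?_)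
    (Pe_nonneg F.isLaw A)) hP)
  have := mul_le_mul_of_nonneg_right hδ (Nat.cast_nonneg (α := ℝ) J)
  linarith

/-- A small part of the event is a small part of a large part. -/
theorem sml_of {F : Fam m J} {A B D : F.Ω → Prop} {δ δ₁ : ℝ} (hδ : 2 * δ ≤ δ₁)
    (hJ : Real.exp (-(δ * J)) ≤ 1 / 64) (hD : Pe F.p D ≤ Real.exp (-(δ₁ * J)) * Pe F.p A)
    (hB : Real.exp (-(δ * J)) * Pe F.p A ≤ Pe F.p B) : Pe F.p D ≤ 1 / 64 * Pe F.p B := by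
  have hA := Pe_nonneg F.isLaw A
  have hBn := Pe_nonneg F.isLaw B
  have h1 : Real.exp (-(δ₁ * J)) ≤ Real.exp (-(δ * J)) * Real.exp (-(δ * J)) := by
    rw [← Real.exp_add]
    refine Real.exp_le_exp.2 ?_
    have := mul_le_mul_of_nonneg_right hδ (Nat.cast_nonneg (α := ℝ) J)
    linarith
  calc Pe F.p D ≤ Real.exp (-(δ₁ * J)) * Pe F.p A := hD
    _ ≤ Real.exp (-(δ * J)) * Real.exp (-(δ * J)) * Pe F.p A :=
        mul_le_mul_of_nonneg_right h1 hA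
    _ = Real.exp (-(δ * J)) * (Real.exp (-(δ * J)) * Pe F.p A) := by ring
    _ ≤ Real.exp (-(δ * J)) * Pe F.p B :=
        mul_le_mul_of_nonneg_left hB (Real.exp_pos _).le
    _ ≤ 1 / 64 * Pe F.p B := mul_le_mul_of_nonneg_right hJ hBn

/-- The constants at large `J`. -/
theorem exp_ev {δ : ℝ} (hδ : 0 < δ) : ∃ J₁ : ℕ, ∀ J ≥ J₁, Real.exp (-(δ * (J : ℝ))) ≤ 1 / 64 := by
  obtain ⟨J₁, hJ₁⟩ := exists_nat_ge (Real.log 64 / δ)
  refine ⟨J₁, fun J hJ => ?_⟩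
  have hJr : (J₁ : ℝ) ≤ J := by exact_mod_cast hJ
  have h1 := hJ₁.trans hJr
  rw [div_le_iff₀ hδ] at h1
  have h2 : Real.exp (-(δ * (J : ℝ))) ≤ Real.exp (-Real.log 64) := Real.exp_le_exp.2 (by linarith)
  rw [Real.exp_neg (Real.log 64), Real.exp_log (by norm_num)] at h2
  rw [one_div]
  exact h2

/-- **A steep relation gives a closed slope.** -/
theorem stp {J : ℕ} {p q au E1 E2 t z : ℝ} (h : |p + q * au| ≤ E1 + |q| * E2)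
    (hq : Ex J t < |q|) (h1 : E1 ≤ Ex J (z + t) / 2) (h2 : E2 ≤ Ex J z / 2) :
    |-p / q - au| ≤ Ex J z := by
  have hq0 : 0 < |q| := (Ex_pos J t).trans hq
  have hq1 : q ≠ 0 := abs_pos.1 hq0
  have e1 : -p / q - au = -(p + q * au) / q := by
    field_simp
    ring
  rw [e1, abs_div, abs_neg, div_le_iff₀ hq0]
  have h3 : Ex J (z + t) = Ex J z * Ex J t := (Ex_mul J z t).symm
  have h4 : Ex J z * Ex J t ≤ Ex J z * |q| := mul_le_mul_of_nonneg_left hq.le (Ex_pos J z).le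
  have h5 : |q| * E2 ≤ |q| * (Ex J z / 2) := mul_le_mul_of_nonneg_left h2 hq0.le
  rw [h3] at h1
  linarith

end Pool.OWN40
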