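import Pool.Agent.H40.OWN.D021

/-!
# The number of `u` over `y` and `v` in a tube

`num_021`: in the greedy order `y`, `v`, `u` of a zoom the number of `u` is at most the number of `v`
over `y` and `u` in the class plus the tube.
-/

set_option autoImplicit false

namespace Pool.OWN72

open Finset MvPolynomial
open Pool.Agent.H49.Ent Pool.Agent.H32.Dense Pool.STK Pool.KA Pool.KSAT Pool.K2S Pool.PB Pool.GEN
open Pool.S6C
open Pool.MIC6 (ActF ActZ)
open Pool.REX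

variable {m n J : ℕ}

/-- **The number of `u` over `y` and `v` in a tube** is at most the number `D` of `v` over `y` and
`u` in the class plus the tube, up to small errors. -/
theorem num_021 {S : PCl m} (hne : S.Ne) {C₀ : ℝ} (hC₀ : 0 ≤ C₀) (htm : TmC S C₀)
    {L : Finset (Fin m) → Fin m → ℝ → ℝ → ℝ} (hL : LamW S L) (v : Vz m)
    (ε : Fin n → Fin m) {L' : Finset (Fin n) → Fin n → ℝ → ℝ → ℝ} (hL' : LamW (RecV S v ε) L')
    {κ ι k : Fin n} (hκk : κ ≠ k) (hyu : ε κ ≠ ε ι) (hact : ActZ S v ε κ)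
    (hactF : ActF S (ε κ)) {w' w r' x q : ℝ} (hw' : w' < w) (hw0 : 0 < w) (hw1 : w < 1)
    (hx : 0 < x) (hxw : x ≤ (1 - v.b) * (1 - v.p) * w)
    (hcont : ContinuousAt (fun W => L {ε κ} (ε k) W 0) (v.tm w))
    (hUt : v.tm w < L {ε κ} (ε ι) (v.tm w) 0) (hVt : v.tm w < L {ε κ} (ε k) (v.tm w) 0)
    (hVx : L {ε κ} (ε k) (v.tm w) 0 + v.p * (1 - v.b) + x ≤ 1) {D P ka : ℝ}
    (hVD : L {ε κ} (ε k) (v.tm w) 0 ≤ D)
    (hu : HasA S {ε κ} (ε ι) (v.tm w) (L {ε κ} (ε ι) (v.tm w) 0))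
    (hv1 : HasA S {ε κ} (ε k) (v.tm w) (L {ε κ} (ε k) (v.tm w) 0))
    (hv : HasA S {ε κ, ε ι} (ε k) (v.tm w) D)
    (hcf : CfP S {ε κ, ε ι} (v.tm w) (L {ε κ} (ε ι) (v.tm w) 0 - v.tm w))
    (ru : RepP S (ε κ) {ε κ} (ε ι) (v.tm w) (L {ε κ} (ε ι) (v.tm w) 0) P)
    (rv : RepP S (ε κ) {ε κ, ε ι} (ε k) (v.tm w) D P)
    (hPx : v.p * (1 - v.b) + 2 * x ≤ P) (hPq : q + v.p * (1 - v.b) + 2 * x ≤ D - v.tm w + P)
    (hka : 0 < ka) (hkax : 64 * ka ≤ x) (hqk : D - v.tm w + 4 * ka + x ≤ q)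
    (hUV : L {ε κ} (ε ι) (v.tm w) 0 ≤ L {ε κ} (ε k) (v.tm w) 0 + ka / 4)
    (hU1 : L {ε κ} (ε ι) (v.tm w) 0 + 2 * ka ≤ 1)
    (hng : Pool.OWN40.NgC S (ε κ) (ε ι) (ε k) (v.tm w) (L {ε κ} (ε ι) (v.tm w) 0) D ka) :
    v.sc (L' {κ, k} ι w' r') - v.p * (1 - v.b) - v.tm w < q + x := by
  by_contra hcon
  push Not at hcon
  have hp0 : 0 ≤ v.p * (1 - v.b) := mul_nonneg v.p0 (by linarith [v.b1])
  have htm0 : 0 ≤ v.tm w := by
    have h1 := v.b1
    have h2 := v.p1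
    have h3 := v.b0
    have : 0 ≤ (1 - v.b) * (1 - v.p) * w :=
      mul_nonneg (mul_nonneg (by linarith) (by linarith)) hw0.le
    unfold Vz.tm
    linarith
  by_cases h1 : L {ε κ} (ε ι) (v.tm w) 0 + ka ≤ L {ε κ} (ε k) (v.tm w) 0
  · -- the number of `v` over `y` is larger than that of `u`
    exact core21 hne hC₀ htm hL v ε hL' hκk hact hactF (x := ka) (r' := r')
      (q := L {ε κ} (ε ι) (v.tm w) 0 - v.tm w + 3 * ka) hw' hw0 hw1 hka (by linarith)
      (by linarith) (by linarith) hcont hVt (by linarith) hUt.le hka (by linarith) hU1 hng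
      (fun e₁ he₁ => dat_one htm hyu hactF hka hUt.le h1 hVD hp0 (by linarith) hu hv1 hv hcf ru rv
        e₁ he₁)
  push Not at h1
  by_cases h2 : L {ε κ} (ε k) (v.tm w) 0 + ka ≤ D
  · -- the closed slope of `v` over `u` has its natural size
    exact core21 hne hC₀ htm hL v ε hL' hκk hact hactF (r' := r') (x := x) (q := q) hw' hw0 hw1 hx hxw
      (by linarith) hcon hcont hVt hVx hUt.le hka (by linarith) hU1 hng
      (fun e₁ he₁ => dat_two htm hL hyu hactF htm0 rfl rfl hka hUt.le hUV h1.le h2 hVt.le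
        (by linarith) hp0 hPx hkax hqk hPq hu hv ru rv e₁ he₁)
  · -- the number of `v` over `y` and `u` is that of `v` over `y`
    push Not at h2
    exact core21 hne hC₀ htm hL v ε hL' hκk hact hactF (x := x / 2) (r' := r')
      (q := D - v.tm w + 4 * ka + x / 2) hw' hw0 hw1 (by linarith) (by linarith) (by linarith)
      (by linarith) hcont hVt (by linarith) hUt.le hka (by linarith) hU1 hng
      (fun e₁ he₁ => dat_thr htm hyu hactF hka hUt.le hUV h1.le hVD h2.le hVt.le hp0 hPx hkax hu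
        hv ru rv e₁ he₁)

end Pool.OWN72
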