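import Pool.Agent.H72.OWN.Own3
import Pool.Agent.H40.OWN.Rce

/-!
# Closed relations between the slopes, homogeneous form

`ng_gen`: in a class with `NgC`, closed `al au + be av + ga` of the natural sizes live on
exponentially small events. `rel_cut`: the relation of the slopes in a zoom, closed in the window of
the class. `Dat21`, `core21`: the contradiction.
-/

set_option autoImplicit false

namespace Pool.OWN72

open Finset MvPolynomial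
open Pool.Agent.H49.Ent Pool.Agent.H32.Dense Pool.STK Pool.KA Pool.KSAT Pool.K2S Pool.PB Pool.GEN
open Pool.S6C
open Pool.JVE (DpI)
open Pool.MIC6 (res_of Dp Dt ActF ActZ)
open Pool.GRW (bas_part)
open Pool.REX

variable {m n J : ℕ}

/-- **Closed relations of natural size are impossible**, homogeneous form. -/
theorem ng_gen {S : PCl m} {L : Finset (Fin m) → Fin m → ℝ → ℝ → ℝ} (hL : LamW S L)
    {y u v : Fin m} {W D ka : ℝ} (hW0 : 0 ≤ W) (hka : 0 < ka) (hWU : W ≤ L {y} u W 0)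
    (hU1 : L {y} u W 0 + 2 * ka ≤ 1) (hng : Pool.OWN40.NgC S y u v W (L {y} u W 0) D ka) :
    ∃ e0 : ℝ, 0 < e0 ∧ ∃ δ : ℝ, 0 < δ ∧ Bas S (fun J F A =>
      ∀ (B : F.Ω → Prop) (au cu av cv th : PtT F → ℝ) (al be ga : LnT F → ℝ) (e Mu Mv : ℕ),
        Sub B A → e ≤ ⌊e0 * J⌋₊ → ⌊(L {y} u W 0 - W + ka) * J⌋₊ ≤ Mu →
        ⌊(D - W + ka) * J⌋₊ ≤ Mv → Dp F B y u e Mu au cu →
        (∀ ω, B ω → |th (ptr F J ω)| ≤ 2 ^ e ∧ |av (ptr F J ω)| ≤ 2 ^ e ∧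
          |cv (ptr F J ω)| ≤ 2 ^ e ∧
          |F.d ω v - th (ptr F J ω) * F.d ω u - cv (ptr F J ω) - av (ptr F J ω) * F.d ω y| ≤
            1 / 2 ^ Mv) →
        Cl1 F B ⌊W * J⌋₊ th →
        (∃ c a0 : PtT F → ℝ, Cl1 F B ⌊W * J⌋₊ c ∧ Cl1 F B ⌊W * J⌋₊ a0 ∧ ∀ ω, B ω →
          |F.d ω v - c (ptr F J ω) - a0 (ptr F J ω) * F.d ω y - th (ptr F J ω) * F.d ω u| ≤
            1 / 2 ^ ⌊(D - W - e0) * J⌋₊) →
        (∀ ω, B ω → al (slam F ⌊W * J⌋₊ ω) ≠ 0 ∨ be (slam F ⌊W * J⌋₊ ω) ≠ 0) →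
        (∀ ω, B ω → |ga (slam F ⌊W * J⌋₊ ω) + al (slam F ⌊W * J⌋₊ ω) * au (ptr F J ω) +
          be (slam F ⌊W * J⌋₊ ω) * av (ptr F J ω)| ≤
          |be (slam F ⌊W * J⌋₊ ω)| / 2 ^ ⌊(D - W + ka) * J⌋₊ +
            |al (slam F ⌊W * J⌋₊ ω)| / 2 ^ ⌊(L {y} u W 0 - W + ka) * J⌋₊) →
        Pe F.p B ≤ 2 * Real.exp (-(δ * J)) * Pe F.p A) := by
  classical
  obtain ⟨e1, he1, δ₁, hδ₁, h1⟩ := hng
  obtain ⟨d, hd, hlvl⟩ := lvl_cls hL (I := {y}) (v := u) (W := W) (r := 0) hW0 hka hWU hU1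
  obtain ⟨δ₂, hδ₂, h2⟩ := hlvl d hd le_rfl
  refine ⟨min e1 d, lt_min he1 hd, min δ₁ δ₂, lt_min hδ₁ hδ₂, ?_⟩
  refine Bas.mono 0 (h1.and h2) ?_
  rintro J - F A ⟨k1, k2⟩ B au cu av cv th al be ga e Mu Mv hBA he hMu hMv hdu hdv hth hca hne hrel
  have hJ0 : (0 : ℝ) ≤ J := Nat.cast_nonneg J
  have hpA : 0 ≤ Pe F.p A := Pe_nonneg F.isLaw A
  have hfl : ∀ a b : ℝ, a ≤ b → ⌊a * (J : ℝ)⌋₊ ≤ ⌊b * (J : ℝ)⌋₊ := fun a b h =>
    Nat.floor_le_floor (mul_le_mul_of_nonneg_right h hJ0)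
  obtain ⟨w, hw⟩ : ∃ w, w = ⌊W * (J : ℝ)⌋₊ := ⟨_, rfl⟩
  rw [← hw] at k1 k2 hth hca hne hrel
  obtain ⟨nU, hnU⟩ : ∃ n, n = ⌊(L {y} u W 0 - W + ka) * (J : ℝ)⌋₊ := ⟨_, rfl⟩
  rw [← hnU] at k1 k2 hMu hrel
  obtain ⟨nD, hnD⟩ : ∃ n, n = ⌊(D - W + ka) * (J : ℝ)⌋₊ := ⟨_, rfl⟩
  rw [← hnD] at k1 hMv hrel
  have ex1 : Real.exp (-(δ₁ * J)) ≤ Real.exp (-(min δ₁ δ₂ * J)) :=
    Real.exp_le_exp.2 (neg_le_neg (mul_le_mul_of_nonneg_right (min_le_left _ _) hJ0))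
  have ex2 : Real.exp (-(δ₂ * J)) ≤ Real.exp (-(min δ₁ δ₂ * J)) :=
    Real.exp_le_exp.2 (neg_le_neg (mul_le_mul_of_nonneg_right (min_le_right _ _) hJ0))
  -- the part where the coefficient of `v` is not zero
  obtain ⟨B₁, hB₁⟩ : ∃ B₁ : F.Ω → Prop, B₁ = fun ω => B ω ∧ be (slam F w ω) ≠ 0 := ⟨_, rfl⟩
  have s1 : Sub B₁ B := fun ω hω => by
    rw [hB₁] at hω
    exact hω.1
  have hp1 : Pe F.p B₁ ≤ Real.exp (-(δ₁ * J)) * Pe F.p A := by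
    obtain ⟨c, a0, hc, ha0, hd0⟩ := hca
    refine k1 B₁ au cu av cv th (fun s => -(ga s / be s)) (fun s => -(al s / be s)) e Mu Mv
      (fun ω hω => hBA ω (s1 ω hω)) (he.trans (hfl _ _ (min_le_left _ _))) hMu hMv (hdu.sub s1)
      (fun ω hω => hdv ω (s1 ω hω)) (hth.sub s1) ⟨c, a0, hc.sub s1, ha0.sub s1, fun ω hω =>
        (hd0 ω (s1 ω hω)).trans (one_div_le_one_div_of_le (by positivity)
          (pow_le_pow_right₀ (by norm_num) (hfl _ _ (by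
            have := min_le_left e1 d
            linarith))))⟩ (fun ω hω => ?_)
    have h3 := hrel ω (s1 ω hω)
    rw [hB₁] at hω
    have hb := hω.2
    obtain ⟨b, hbd⟩ : ∃ b, b = be (slam F w ω) := ⟨_, rfl⟩
    obtain ⟨a, had⟩ : ∃ a, a = al (slam F w ω) := ⟨_, rfl⟩
    obtain ⟨g, hgd⟩ : ∃ g, g = ga (slam F w ω) := ⟨_, rfl⟩
    rw [← hbd] at hb h3
    rw [← had, ← hgd] at h3
    show |-(ga (slam F w ω) / be (slam F w ω)) + -(al (slam F w ω) / be (slam F w ω)) *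
      au (ptr F J ω) - av (ptr F J ω)| ≤ 1 / 2 ^ nD +
        |-(al (slam F w ω) / be (slam F w ω))| / 2 ^ nU
    rw [← hbd, ← had, ← hgd]
    have hb0 : 0 < |b| := abs_pos.2 hb
    have e1 : -(g / b) + -(a / b) * au (ptr F J ω) - av (ptr F J ω) =
        -((g + a * au (ptr F J ω) + b * av (ptr F J ω)) / b) := by
      field_simp
      ring
    rw [e1, abs_neg, abs_neg, abs_div, abs_div, div_le_iff₀ hb0]
    refine h3.trans (le_of_eq ?_)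
    field_simp
  -- the rest
  have hp2 : Pe F.p (fun ω => B ω ∧ ¬ B₁ ω) ≤ Real.exp (-(δ₂ * J)) * Pe F.p A := by
    have s2 : Sub (fun ω => B ω ∧ ¬ B₁ ω) B := fun ω hω => hω.1
    have hdu' : DpI F (fun ω => B ω ∧ ¬ B₁ ω) {y} u ⌊d * (J : ℝ)⌋₊ nU (fun p _ => au p) cu := by
      refine DpI.of_dp fun ω hω => ?_
      obtain ⟨h3, h4, h5⟩ := hdu ω hω.1
      have h6 : (2 : ℝ) ^ e ≤ 2 ^ ⌊d * (J : ℝ)⌋₊ := pow_le_pow_right₀ (by norm_num)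
        (he.trans (hfl _ _ (min_le_right _ _)))
      exact ⟨h3.trans h6, h4.trans h6, h5.trans (inv_mono hMu)⟩
    refine k2 (fun ω => B ω ∧ ¬ B₁ ω) nU (fun p _ => au p) cu (fun s _ => -(ga s / al s))
      (fun ω hω => hBA ω hω.1) hdu' (fun ω hω k _ => ?_) le_rfl
    have h3 := hrel ω hω.1
    have hb : be (slam F w ω) = 0 := by
      by_contra hcon
      exact hω.2 (by
        rw [hB₁]
        exact ⟨hω.1, hcon⟩)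
    have ha : al (slam F w ω) ≠ 0 := by
      rcases hne ω hω.1 with h4 | h4
      · exact h4
      · exact absurd hb h4
    rw [hb, abs_zero, zero_div, zero_add, zero_mul, add_zero] at h3
    obtain ⟨a, had⟩ : ∃ a, a = al (slam F w ω) := ⟨_, rfl⟩
    obtain ⟨g, hgd⟩ : ∃ g, g = ga (slam F w ω) := ⟨_, rfl⟩
    show |-(ga (slam F w ω) / al (slam F w ω)) - au (ptr F J ω)| ≤ 1 / 2 ^ nU
    rw [← had] at ha h3 ⊢
    rw [← hgd] at h3 ⊢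
    have ha0 : 0 < |a| := abs_pos.2 ha
    have e1 : -(g / a) - au (ptr F J ω) = -((g + a * au (ptr F J ω)) / a) := by
      field_simp
      ring
    rw [e1, abs_neg, abs_div, div_le_iff₀ ha0]
    refine h3.trans (le_of_eq ?_)
    field_simp
  have h4 := Pe_parts (p := F.p) (B := B) (B' := B₁) s1
  have h5 := mul_le_mul_of_nonneg_right ex1 hpA
  have h6 := mul_le_mul_of_nonneg_right ex2 hpA
  rw [h4]
  linarith

/-- **The relation of the slopes in a zoom**, closed in the window of the class. -/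
theorem rel_cut {S : PCl m} {C₀ : ℝ} (hC₀ : 0 ≤ C₀) (htm : TmC S C₀)
    {L : Finset (Fin m) → Fin m → ℝ → ℝ → ℝ} (hL : LamW S L) (v : Vz m)
    (ε : Fin n → Fin m) {L' : Finset (Fin n) → Fin n → ℝ → ℝ → ℝ} (hL' : LamW (RecV S v ε) L')
    {κ ι k : Fin n} (hκι : κ ≠ ι) (hact : ActZ S v ε κ) (hactF : ActF S (ε κ))
    {w' w r' x q : ℝ} (hw' : w' < w) (hw0 : 0 < w) (hw1 : w < 1) (hx : 0 < x)
    (hxw : x ≤ (1 - v.b) * (1 - v.p) * w) (hqx : x ≤ q)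
    (hLz : q + x ≤ v.sc (L' {κ, ι} k w' r') - v.p * (1 - v.b) - v.tm w)
    (hcont : ContinuousAt (fun W => L {ε κ} (ε ι) W 0) (v.tm w))
    (hUt : v.tm w < L {ε κ} (ε ι) (v.tm w) 0)
    (hUx : L {ε κ} (ε ι) (v.tm w) 0 + v.p * (1 - v.b) + x ≤ 1) :
    ∃ e₀ : ℝ, 0 < e₀ ∧ Bas S (fun J F A => ∀ (au cu av cv th : PtT F → ℝ)
      (e e' Mu Mv : ℕ), e ≤ ⌊e₀ * J⌋₊ → e' ≤ ⌊x / 32 * J⌋₊ →
      ⌊(L {ε κ} (ε ι) (v.tm w) 0 - v.tm w + v.p * (1 - v.b) + x) * J⌋₊ ≤ Mu →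
      ⌊(q + v.p * (1 - v.b) + x) * J⌋₊ ≤ Mv → Dp F A (ε κ) (ε ι) e Mu au cu →
      Cl1 F A ⌊v.tm w * J⌋₊ th →
      (∀ ω, A ω → |th (ptr F J ω)| ≤ 2 ^ e' ∧ |av (ptr F J ω)| ≤ 2 ^ e' ∧
        |F.d ω (ε k) - th (ptr F J ω) * F.d ω (ε ι) - cv (ptr F J ω) -
          av (ptr F J ω) * F.d ω (ε κ)| ≤ 1 / 2 ^ Mv) →
      ∃ B : F.Ω → Prop, Sub B A ∧ Pe F.p A ≤ 8192 * Pe F.p B ∧ ∃ sg tu : LnT F → ℝ, ∀ ω, B ω →
        |tu (slam F ⌊v.tm w * J⌋₊ ω)| ≤ 2 * 2 ^ ⌊x / 32 * J⌋₊ ∧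
        |sg (slam F ⌊v.tm w * J⌋₊ ω) + tu (slam F ⌊v.tm w * J⌋₊ ω) * au (ptr F J ω) -
          av (ptr F J ω)| ≤ 1 / 2 ^ ⌊(q - x) * J⌋₊ + |tu (slam F ⌊v.tm w * J⌋₊ ω)| *
            (1 / 2 ^ ⌊(L {ε κ} (ε ι) (v.tm w) 0 - v.tm w + x / 2) * J⌋₊)) := by
  obtain ⟨e₁, he₁, hrel⟩ := Pool.MIC6.rel_zce hC₀ htm hL v ε hL' hκι hact hactF hw' hw0 hw1 hx hxw
    hqx hLz hcont hUt hUx
  have htm1 : v.tm w < 1 := by
    have h1 := v.b1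
    have h2 := v.p0
    have : 0 ≤ v.p * (1 - v.b) := mul_nonneg h2 (by linarith)
    linarith
  have htm0 : 0 ≤ v.tm w := by
    have h1 := v.b1
    have h2 := v.p1
    have h3 := v.b0
    have : 0 ≤ (1 - v.b) * (1 - v.p) * w :=
      mul_nonneg (mul_nonneg (by linarith) (by linarith)) hw0.le
    unfold Vz.tm
    linarith
  obtain ⟨J₂, hJ₂⟩ := win_fit v hw0.le hw1.le htm0 htm1
  refine ⟨e₁, he₁, Bas.mono J₂ hrel ?_⟩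
  rintro J hJ F A hr au cu av cv th e e' Mu Mv he he' hMu hMv hau hth hav
  obtain ⟨hPJ, hWJ⟩ := hJ₂ J hJ
  have hWle := Pool.MIC6.tm_le v hw0.le hw1.le J
  have hWge := tm_ge v hw0.le hw1.le J
  obtain ⟨Wz, hWz⟩ : ∃ Wz, Wz = v.B J + (⌊w * (v.R J : ℝ)⌋₊ + 4) := ⟨_, rfl⟩
  rw [← hWz] at hWle hWge hWJ
  obtain ⟨th', hth'⟩ := hth
  obtain ⟨B₂, s2, t2, sg, tu, hst⟩ := hr au cu av cv th th' e e' Mu Mv ⌊v.tm w * (J : ℝ)⌋₊ he he'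
    hMu hMv (by rw [← hWz]; exact hWle) hau
    (fun ω hω => ⟨(hav ω hω).1, (hav ω hω).2.1, (hav ω hω).2.2, hth' ω hω⟩) hPJ
  rw [← hWz] at hst
  obtain ⟨B₃, s3, t3, φ, hφ⟩ := cut_sl hWle hWge hWJ B₂
  refine ⟨B₃, fun ω hω => s2 ω (s3 ω hω), ?_, sg ∘ φ, tu ∘ φ, fun ω hω => ?_⟩
  · have h1 : Pe F.p A ≤ 64 * (2 ^ 7 * Pe F.p B₃) :=
      t2.trans (mul_le_mul_of_nonneg_left t3 (by norm_num))
    linarith
  · have h1 := hst ω (s3 ω hω)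
    rw [hφ ω hω] at h1
    exact h1

end Pool.OWN72
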