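import Pool.Agent.H2.GEN.BxS
import Pool.Agent.H6.OWN.NgD
import Pool.Agent.H45.EXA.Lam
import Pool.Agent.H32.KR.Cnt

/-!
# The growth of the numbers with the window

`lb_grow`: a label for the windows of length `2 ^ (-w)` of precision `P` gives, on a large part of
the event, a label for the windows of length `2 ^ (-w')` of precision `P + (w' - w) - 1`: the height
over the graph is rounded, it varies little in the shorter windows. `num_grow`: the numbers of a
class grow at least like the window.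
-/

set_option autoImplicit false

namespace Pool.OWN40

open Finset MvPolynomial
open Pool.Agent.H49.Ent Pool.Agent.H32.Dense Pool.STK Pool.KA Pool.KSAT Pool.K2S Pool.PB Pool.GEN
open Pool.S6C
open Pool.PB.Trl (rt rt_mem t_rt)
open Pool.MIC6 (res_of)

variable {m J : ℕ}

open Classical in
/-- The number of the endpoints below `t` of the intervals where `|q| ≤ c`. -/
noncomputable def idx (q : Polynomial ℝ) (c t : ℝ) : ℕ :=
  ((q * q - Polynomial.C (c * c)).roots.toFinset.filter (· < t)).card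

theorem idx_le {q : Polynomial ℝ} {c t : ℝ} {D : ℕ} (hq : q.natDegree ≤ D) :
    idx q c t ≤ 2 * D := by
  classical
  unfold idx
  refine (Finset.card_le_card (Finset.filter_subset _ _)).trans ?_
  refine (Multiset.toFinset_card_le _).trans ?_
  refine (Polynomial.card_roots' _).trans ?_
  refine (Polynomial.natDegree_sub_le _ _).trans (max_le ?_ ?_)
  · refine Polynomial.natDegree_mul_le.trans ?_
    omega
  · rw [Polynomial.natDegree_C]
    exact Nat.zero_le _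

/-- Two times with the same number lie in one interval. -/
theorem idx_seg {q : Polynomial ℝ} {c t t' : ℝ} (hc : 0 ≤ c) (ht : t ≤ t') (h : |q.eval t| ≤ c)
    (h' : |q.eval t'| ≤ c) (hi : idx q c t = idx q c t') :
    ∀ s ∈ Set.Icc t t', |q.eval s| ≤ c := by
  classical
  intro s hs
  by_contra hcon
  rw [not_le] at hcon
  obtain ⟨p, hp⟩ : ∃ p, p = q * q - Polynomial.C (c * c) := ⟨_, rfl⟩
  have hpe : ∀ x, p.eval x = |q.eval x| * |q.eval x| - c * c := by
    intro x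
    rw [hp, Polynomial.eval_sub, Polynomial.eval_mul, Polynomial.eval_C, abs_mul_abs_self]
  have h2 : 0 < p.eval s := by
    rw [hpe]
    nlinarith
  have hp0 : p ≠ 0 := by
    intro h0
    rw [h0, Polynomial.eval_zero] at h2
    exact lt_irrefl _ h2
  have hst : s < t' := lt_of_le_of_ne hs.2 (by
    intro hh
    rw [hh] at hcon
    linarith)
  have hno : ∀ x, t ≤ x → x < t' → p.eval x ≠ 0 := by
    intro x hx hx' h0
    have hsub : (p.roots.toFinset.filter (· < t)) ⊆ (p.roots.toFinset.filter (· < t')) := by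
      intro y hy
      rw [mem_filter] at hy ⊢
      exact ⟨hy.1, hy.2.trans_le ht⟩
    unfold idx at hi
    rw [← hp] at hi
    have he := Finset.eq_of_subset_of_card_le hsub hi.ge
    have hx1 : x ∈ p.roots.toFinset.filter (· < t') := by
      rw [mem_filter, Multiset.mem_toFinset, Polynomial.mem_roots hp0]
      exact ⟨h0, hx'⟩
    rw [← he, mem_filter] at hx1
    exact absurd hx1.2 (not_lt.2 hx)
  have h1 : p.eval t ≤ 0 := by
    rw [hpe]
    nlinarith [abs_nonneg (q.eval t)]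
  obtain ⟨x, hx, hx0⟩ := intermediate_value_Icc hs.1 (f := fun x => p.eval x)
    p.continuous.continuousOn ⟨h1, h2.le⟩
  exact hno x hx.1 (hx.2.trans_lt hst) hx0

/-- The variation between two times with the same number. -/
theorem idx_var {q : Polynomial ℝ} {c t t' : ℝ} (hc : 0 ≤ c) (h : |q.derivative.eval t| ≤ c)
    (h' : |q.derivative.eval t'| ≤ c) (hi : idx q.derivative c t = idx q.derivative c t') :
    |q.eval t - q.eval t'| ≤ c * |t - t'| := by
  have key : ∀ x y : ℝ, x ≤ y → |q.derivative.eval x| ≤ c → |q.derivative.eval y| ≤ c →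
      idx q.derivative c x = idx q.derivative c y → |q.eval y - q.eval x| ≤ c * |y - x| := by
    intro x y hxy h1 h2 h3
    have h4 := idx_seg hc hxy h1 h2 h3
    have h5 := (convex_Icc x y).norm_image_sub_le_of_norm_hasDerivWithin_le
      (f := fun s => q.eval s) (f' := fun s => q.derivative.eval s) (C := c)
      (fun s _ => (q.hasDerivAt s).hasDerivWithinAt)
      (fun s hs => by rw [Real.norm_eq_abs]; exact h4 s hs) (Set.left_mem_Icc.2 hxy)
      (Set.right_mem_Icc.2 hxy)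
    rw [Real.norm_eq_abs, Real.norm_eq_abs] at h5
    exact h5
  rcases le_total t t' with hle | hle
  · have h3 := key t t' hle h h' hi
    rw [abs_sub_comm (q.eval t), abs_sub_comm t]
    exact h3
  · exact key t' t hle h' h hi.symm

/-- The rounded point. -/
theorem bho_near (F : Fam m J) (ω : F.Ω) (o : Option (Fin m)) :
    |bho J J (ptr F J ω) o - bt F ω o| ≤ 1 / 2 ^ J := by
  cases o with
  | none =>
    have e1 : bho J J (ptr F J ω) none = bt F ω none := rfl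
    rw [e1, sub_self, abs_zero]
    positivity
  | some j =>
    have e1 : bho J J (ptr F J ω) (some j) = (⌊(2 : ℝ) ^ J * F.x ω j⌋ : ℝ) / 2 ^ J := rfl
    have e2 : bt F ω (some j) = F.x ω j := rfl
    have pJ : (0 : ℝ) < 2 ^ J := by positivity
    rw [e1, e2]
    have e3 : (⌊(2 : ℝ) ^ J * F.x ω j⌋ : ℝ) / 2 ^ J - F.x ω j =
        (⌊(2 : ℝ) ^ J * F.x ω j⌋ - 2 ^ J * F.x ω j) / 2 ^ J := by field_simp
    rw [e3, abs_div, abs_of_pos pJ]
    refine div_le_div_of_nonneg_right ?_ pJ.le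
    rw [abs_le]
    constructor <;> linarith [Int.floor_le ((2 : ℝ) ^ J * F.x ω j),
      Int.lt_floor_add_one ((2 : ℝ) ^ J * F.x ω j)]

/-- **The growth of a label with the window.** -/
theorem lb_grow {F : Fam m J} {I : Finset (Fin m)} {k : Fin m} {K e w w' ρ P Q : ℕ}
    {A : F.Ω → Prop} (hw : w ≤ w') (hw' : w' ≤ J) (hQ : Q + 1 + w ≤ P + w')
    (hQe : Q + 1 + e + (m + 1) ≤ J) (hρ : ρ ≤ J) (h : Lb F I k K e J w ρ P A) :
    ∃ B : F.Ω → Prop, Sub B A ∧ Pe F.p A ≤ (9 * (4 * (K + 1) + 1)) * Pe F.p B ∧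
      Lb F I k K e J w' ρ Q B := by
  classical
  obtain ⟨V, z, z', G, h⟩ := h
  obtain ⟨H, hH⟩ : ∃ H : LnT F → Fin m → MvPolynomial (Option (Fin m)) ℝ,
    H = fun s _ => G (z' s) := ⟨_, rfl⟩
  obtain ⟨q, hq⟩ : ∃ q : LnT F → Polynomial ℝ, q = fun s => dv w H k s := ⟨_, rfl⟩
  have hqd : ∀ s, (q s).derivative.natDegree ≤ K + 1 := by
    intro s
    refine (Polynomial.natDegree_derivative_le _).trans ?_
    have h1 : (q s).natDegree ≤ K + 1 := by
      rw [hq]
      exact natDegree_dv w (fun s j => by rw [hH]; exact h.deg _) k s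
    omega
  have pw : (0 : ℝ) < 2 ^ w := by positivity
  have pw' : (0 : ℝ) < 2 ^ w' := by positivity
  have pP : (0 : ℝ) < 2 ^ P := by positivity
  have pQ : (0 : ℝ) < 2 ^ (Q + 1) := by positivity
  have pJ : (0 : ℝ) < 2 ^ J := by positivity
  have hwJ : w ≤ J := hw.trans hw'
  have hqe : ∀ ω, (q (slam F w ω)).eval (rt F w ω) =
      F.x ω k - eval (bt F ω) (G (z' (slam F w ω))) := by
    intro ω
    rw [hq]
    show (dv w H k (slam F w ω)).eval (rt F w ω) = _
    rw [eval_dv F hwJ, hH]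
  have hqv : ∀ ω, A ω → |(q (slam F w ω)).derivative.eval (rt F w ω)| ≤ 1 / 2 ^ P := by
    intro ω hω
    rw [hq]
    show |(dv w H k (slam F w ω)).derivative.eval (rt F w ω)| ≤ _
    rw [der_dv F hwJ, hH, abs_mul, abs_of_pos (by positivity : (0 : ℝ) < 1 / 2 ^ w)]
    calc (1 : ℝ) / 2 ^ w * |F.d ω k - ∑ o, bd F ω o *
          eval (bt F ω) (pderiv o (G (z' (slam F w ω))))| ≤ 1 / 2 ^ w * (2 ^ w / 2 ^ P) :=
          mul_le_mul_of_nonneg_left (h.vel ω hω) (by positivity)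
      _ = 1 / 2 ^ P := by field_simp
  -- the interval of the time
  obtain ⟨B₁, b1, b2, φ₁, b3⟩ := Pool.S6K.exact_label F.isLaw (n := 1) (2 * (K + 1))
    (slam F w') (fun ω _ => (idx (q (slam F w ω)).derivative (1 / 2 ^ P) (rt F w ω) : ℤ)) A
    (by
      intro ω ω' _ _ _ _
      have h1 := idx_le (c := 1 / 2 ^ P) (t := rt F w ω) (hqd (slam F w ω))
      have h2 := idx_le (c := 1 / 2 ^ P) (t := rt F w ω') (hqd (slam F w ω'))
      rw [abs_le]
      constructor <;> push_cast <;> omega)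
  -- the heights in the short windows
  have hvar : ∀ ω ω', B₁ ω → B₁ ω' → slam F w' ω = slam F w' ω' →
      |(F.x ω k - eval (bt F ω) (G (z' (slam F w ω)))) -
        (F.x ω' k - eval (bt F ω') (G (z' (slam F w ω'))))| ≤ 1 / 2 ^ (Q + 1) := by
    intro ω ω' hω hω' hs
    have hsw : slam F w ω = slam F w ω' := by
      rw [slam_coarse F hw hw' ω, slam_coarse F hw hw' ω', hs]
    have h1 := congrFun (b3 ω hω) 0
    have h2 := congrFun (b3 ω' hω') 0
    rw [hs, ← h2] at h1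
    have h3 : idx (q (slam F w ω)).derivative (1 / 2 ^ P) (rt F w ω) =
        idx (q (slam F w ω')).derivative (1 / 2 ^ P) (rt F w ω') := by exact_mod_cast h1
    rw [← hqe, ← hqe]
    have v1 := hqv ω (b1 ω hω)
    have v2 := hqv ω' (b1 ω' hω')
    rw [← hsw] at h3 v2 ⊢
    refine (idx_var (by positivity) v1 v2 h3).trans ?_
    have t1 := t_rt F hwJ ω
    have t2 := t_rt F hwJ ω'
    have t3 := t_rt F hw' ω
    have t4 := t_rt F hw' ω'
    have t5 := rt_mem F w' ω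
    have t6 := rt_mem F w' ω'
    have e1 : rt F w ω - rt F w ω' = 2 ^ w * (F.t ω - F.t ω') := by
      rw [t1, t2, hsw]
      field_simp
      ring
    have e2 : F.t ω - F.t ω' = (rt F w' ω - rt F w' ω') / 2 ^ w' := by
      rw [t3, t4, hs]
      field_simp
      ring
    have e3 : |rt F w ω - rt F w ω'| ≤ 2 ^ w / 2 ^ w' := by
      rw [e1, e2, abs_mul, abs_of_pos pw, abs_div, abs_of_pos pw', mul_div_assoc']
      refine div_le_div_of_nonneg_right ?_ pw'.le
      refine mul_le_of_le_one_right pw.le ?_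
      rw [abs_le]
      constructor <;> linarith [t5.1, t5.2, t6.1, t6.2]
    refine (mul_le_mul_of_nonneg_left e3 (by positivity)).trans ?_
    rw [div_mul_div_comm, one_mul, ← pow_add, div_le_div_iff₀ (by positivity) pQ, one_mul, ← pow_add]
    exact pow_le_pow_right₀ (by norm_num) (by omega)
  -- the heights of the rounded points
  obtain ⟨hh, hhh⟩ : ∃ hh : PtT F → ℝ, hh = fun y => bho J J y (some k) -
    eval (bho J J y) (G (z y)) := ⟨_, rfl⟩
  have hnear : ∀ ω, A ω → |(F.x ω k - eval (bt F ω) (G (z' (slam F w ω)))) -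
      hh (ptr F J ω)| ≤ 1 / 2 ^ (Q + 1) := by
    intro ω hω
    rw [hhh]
    show |(F.x ω k - eval (bt F ω) (G (z' (slam F w ω)))) - (bho J J (ptr F J ω) (some k) -
      eval (bho J J (ptr F J ω)) (G (z (ptr F J ω))))| ≤ _
    rw [h.cls ω hω]
    have h1 := bho_near F ω (some k)
    have e2 : bt F ω (some k) = F.x ω k := rfl
    rw [e2] at h1
    have hn : ‖bho J J (ptr F J ω) - bt F ω‖ ≤ 1 / 2 ^ J := by
      rw [pi_norm_le_iff_of_nonneg (by positivity)]
      intro o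
      rw [Pi.sub_apply, Real.norm_eq_abs]
      exact bho_near F ω o
    have h2 := Pool.GEN.mvt_poly (G (z' (slam F w ω))) (Metric.closedBall (bt F ω) (1 / 2 ^ ρ))
      (convex_closedBall _ _) (2 ^ e) (by positivity) (by
        intro b hb o
        refine h.lip ω hω b (fun o' => ?_) o
        have h3 := (dist_pi_le_iff (by positivity)).1 (Metric.mem_closedBall.1 hb) o'
        rwa [Real.dist_eq] at h3) (bt F ω) (bho J J (ptr F J ω))
      (Metric.mem_closedBall_self (by positivity)) (by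
        rw [Metric.mem_closedBall, dist_eq_norm]
        exact hn.trans (inv_mono hρ))
    have h3 : |eval (bho J J (ptr F J ω)) (G (z' (slam F w ω))) -
        eval (bt F ω) (G (z' (slam F w ω)))| ≤ 2 ^ e * (m + 1) * (1 / 2 ^ J) := by
      refine h2.trans ?_
      rw [Fintype.card_option, Fintype.card_fin]
      push_cast
      exact mul_le_mul_of_nonneg_left hn (by positivity)
    have e4 : F.x ω k - eval (bt F ω) (G (z' (slam F w ω))) - (bho J J (ptr F J ω) (some k) -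
        eval (bho J J (ptr F J ω)) (G (z' (slam F w ω)))) =
        (eval (bho J J (ptr F J ω)) (G (z' (slam F w ω))) - eval (bt F ω) (G (z' (slam F w ω)))) -
        (bho J J (ptr F J ω) (some k) - F.x ω k) := by ring
    rw [e4]
    refine (abs_sub _ _).trans ((add_le_add h3 h1).trans ?_)
    have e5 : (2 : ℝ) ^ e * (m + 1) * (1 / 2 ^ J) + 1 / 2 ^ J =
        (2 ^ e * (m + 1) + 1) / 2 ^ J := by ring
    rw [e5, div_le_div_iff₀ pJ pQ, one_mul]
    have h6 : ((m : ℝ) + 1) + 1 ≤ 2 ^ (m + 1) := by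
      have h7 : m + 1 < 2 ^ (m + 1) := Nat.lt_two_pow_self
      exact_mod_cast h7
    have h8 : (1 : ℝ) ≤ 2 ^ e := one_le_pow₀ (by norm_num)
    calc ((2 : ℝ) ^ e * (m + 1) + 1) * 2 ^ (Q + 1) ≤ (2 ^ e * 2 ^ (m + 1)) * 2 ^ (Q + 1) := by
          refine mul_le_mul_of_nonneg_right ?_ pQ.le
          nlinarith
      _ = 2 ^ (Q + 1 + e + (m + 1)) := by
          rw [← pow_add, ← pow_add]
          congr 1
          omega
      _ ≤ 2 ^ J := pow_le_pow_right₀ (by norm_num) hQe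
  obtain ⟨B, c1, c2, φ, c3⟩ := Pool.S6K.exact_label F.isLaw (n := 1) 4
    (slam F w') (fun ω _ => ⌊(2 : ℝ) ^ (Q + 1) * hh (ptr F J ω)⌋) B₁ (by
      intro ω ω' hω hω' hs _
      have h1 := hvar ω ω' hω hω' hs
      have h2 := hnear ω (b1 ω hω)
      have h3 := hnear ω' (b1 ω' hω')
      obtain ⟨x, hx⟩ : ∃ x, x = F.x ω k - eval (bt F ω) (G (z' (slam F w ω))) := ⟨_, rfl⟩
      obtain ⟨x', hx'⟩ : ∃ x', x' = F.x ω' k - eval (bt F ω') (G (z' (slam F w ω'))) := ⟨_, rfl⟩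
      obtain ⟨y, hy⟩ : ∃ y, y = hh (ptr F J ω) := ⟨_, rfl⟩
      obtain ⟨y', hy'⟩ : ∃ y', y' = hh (ptr F J ω') := ⟨_, rfl⟩
      rw [← hx, ← hx'] at h1
      rw [← hx, ← hy] at h2
      rw [← hx', ← hy'] at h3
      rw [← hy, ← hy']
      have h4 : |y - y'| ≤ 3 / 2 ^ (Q + 1) := by
        have e1 : y - y' = (x - x') - (x - y) + (x' - y') := by ring
        rw [e1]
        refine (abs_add_le _ _).trans ((add_le_add_left (abs_sub _ _) _).trans ?_)
        have e2 : (3 : ℝ) / 2 ^ (Q + 1) = 1 / 2 ^ (Q + 1) + 1 / 2 ^ (Q + 1) + 1 / 2 ^ (Q + 1) := by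
          ring
        rw [e2]
        linarith
      rw [le_div_iff₀ pQ] at h4
      have e3 : |y - y'| * 2 ^ (Q + 1) = |2 ^ (Q + 1) * y - 2 ^ (Q + 1) * y'| := by
        rw [← mul_sub, abs_mul, abs_of_pos pQ, mul_comm]
      rw [e3] at h4
      obtain ⟨h5, h6⟩ := abs_le.1 h4
      have a1 := Int.floor_le ((2 : ℝ) ^ (Q + 1) * y)
      have a2 := Int.lt_floor_add_one ((2 : ℝ) ^ (Q + 1) * y)
      have a3 := Int.floor_le ((2 : ℝ) ^ (Q + 1) * y')
      have a4 := Int.lt_floor_add_one ((2 : ℝ) ^ (Q + 1) * y')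
      have h7 : ((⌊(2 : ℝ) ^ (Q + 1) * y⌋ - ⌊(2 : ℝ) ^ (Q + 1) * y'⌋ : ℤ) : ℝ) ≤ ((4 : ℤ) : ℝ) := by
        push_cast
        linarith
      have h8 : ((-4 : ℤ) : ℝ) ≤ ((⌊(2 : ℝ) ^ (Q + 1) * y⌋ - ⌊(2 : ℝ) ^ (Q + 1) * y'⌋ : ℤ) : ℝ) := by
        push_cast
        linarith
      rw [abs_le]
      exact ⟨by exact_mod_cast h8, by exact_mod_cast h7⟩)
  have hBA : Sub B A := fun ω hω => b1 ω (c1 ω hω)
  have hff : ∀ ω, B ω → ⌊(2 : ℝ) ^ (Q + 1) * hh (ptr F J ω)⌋ = φ (slam F w' ω) 0 := fun ω hω =>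
    congrFun (c3 ω hω) 0
  have hzz : ∀ ω, z' ((slam F w' ω).1, (slam F w' ω).2.1, (slam F w' ω).2.2 / 2 ^ (w' - w)) =
      z' (slam F w ω) := fun ω => by rw [← slam_coarse F hw hw' ω]
  refine ⟨B, hBA, ?_, V × ℤ, fun y => (z y, ⌊(2 : ℝ) ^ (Q + 1) * hh y⌋),
    fun s => (z' (s.1, s.2.1, s.2.2 / 2 ^ (w' - w)), φ s 0),
    fun v => G v.1 + C ((v.2 : ℝ) / 2 ^ (Q + 1)), ?_⟩
  · have hc : (0 : ℝ) ≤ 4 * (K + 1) + 1 := by positivity
    have b2' : Pe F.p A ≤ (4 * (K + 1) + 1) * Pe F.p B₁ := by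
      refine b2.trans (le_of_eq ?_)
      push_cast
      ring
    have c2' : Pe F.p B₁ ≤ 9 * Pe F.p B := by
      refine c2.trans (le_of_eq ?_)
      norm_num
    calc Pe F.p A ≤ (4 * (K + 1) + 1) * Pe F.p B₁ := b2'
      _ ≤ (4 * (K + 1) + 1) * (9 * Pe F.p B) := mul_le_mul_of_nonneg_left c2' hc
      _ = _ := by ring
  · have hpd : ∀ (o : Option (Fin m)) (v : V × ℤ),
        pderiv o (G v.1 + C ((v.2 : ℝ) / 2 ^ (Q + 1))) = pderiv o (G v.1) := by
      intro o v
      rw [map_add, pderiv_C, add_zero]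
    refine ⟨fun v => ?_, fun v b b' hn hb => ?_, fun ω hω => ?_, fun ω hω => ?_, fun ω hω => ?_,
      fun ω hω b hb o => ?_⟩
    · refine (totalDegree_add _ _).trans (max_le (h.deg _) ?_)
      rw [totalDegree_C]
      exact Nat.zero_le _
    · rw [map_add, map_add, eval_C, eval_C, h.dep v.1 b b' hn hb]
    · refine Prod.ext ?_ (hff ω hω)
      show z (ptr F J ω) = z' (_, _, _)
      rw [hzz ω]
      exact h.cls ω (hBA ω hω)
    · show |F.x ω k - eval (bt F ω) (G (z' (_, _, _)) + C (((φ (slam F w' ω) 0 : ℤ) : ℝ) /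
        2 ^ (Q + 1)))| ≤ _
      rw [hzz ω, map_add, eval_C, ← hff ω hω]
      have h1 := hnear ω (hBA ω hω)
      obtain ⟨y, hy⟩ : ∃ y, y = hh (ptr F J ω) := ⟨_, rfl⟩
      rw [← hy] at h1 ⊢
      have a1 := Int.floor_le ((2 : ℝ) ^ (Q + 1) * y)
      have a2 := Int.lt_floor_add_one ((2 : ℝ) ^ (Q + 1) * y)
      have h2 : |y - (⌊(2 : ℝ) ^ (Q + 1) * y⌋ : ℝ) / 2 ^ (Q + 1)| ≤ 1 / 2 ^ (Q + 1) := by
        have e1 : y - (⌊(2 : ℝ) ^ (Q + 1) * y⌋ : ℝ) / 2 ^ (Q + 1) =
            (2 ^ (Q + 1) * y - ⌊(2 : ℝ) ^ (Q + 1) * y⌋) / 2 ^ (Q + 1) := by field_simp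
        rw [e1, abs_div, abs_of_pos pQ]
        refine div_le_div_of_nonneg_right ?_ pQ.le
        rw [abs_le]
        constructor <;> linarith
      have e2 : F.x ω k - (eval (bt F ω) (G (z' (slam F w ω))) +
          (⌊(2 : ℝ) ^ (Q + 1) * y⌋ : ℝ) / 2 ^ (Q + 1)) =
          (F.x ω k - eval (bt F ω) (G (z' (slam F w ω))) - y) +
          (y - (⌊(2 : ℝ) ^ (Q + 1) * y⌋ : ℝ) / 2 ^ (Q + 1)) := by ring
      rw [e2]
      refine (abs_add_le _ _).trans ((add_le_add h1 h2).trans (le_of_eq ?_))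
      rw [pow_succ]
      field_simp
      norm_num
    · show |F.d ω k - ∑ o, bd F ω o * eval (bt F ω) (pderiv o (G (z' (_, _, _)) +
        C (((φ (slam F w' ω) 0 : ℤ) : ℝ) / 2 ^ (Q + 1))))| ≤ _
      have e1 : ∀ o, pderiv o (G (z' ((slam F w' ω).1, (slam F w' ω).2.1,
          (slam F w' ω).2.2 / 2 ^ (w' - w))) + C (((φ (slam F w' ω) 0 : ℤ) : ℝ) / 2 ^ (Q + 1))) =
          pderiv o (G (z' (slam F w ω))) := by
        intro o
        rw [hzz ω, map_add, pderiv_C, add_zero]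
      simp only [e1]
      refine (h.vel ω (hBA ω hω)).trans ?_
      rw [div_le_div_iff₀ pP (by positivity), ← pow_add, ← pow_add]
      exact pow_le_pow_right₀ (by norm_num) (by omega)
    · show |eval b (pderiv o (G (z' (_, _, _)) + C (((φ (slam F w' ω) 0 : ℤ) : ℝ) /
        2 ^ (Q + 1))))| ≤ _
      rw [hzz ω, map_add, pderiv_C, add_zero]
      exact h.lip ω (hBA ω hω) b hb o

/-- **The numbers of a class grow with the window.** -/
theorem num_grow {S : PCl m} (hS : S.Ne) {L : Finset (Fin m) → Fin m → ℝ → ℝ → ℝ}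
    (hL : LamW S L) {I : Finset (Fin m)} {k : Fin m} {w w' r : ℝ} (hw0 : 0 < w) (hww : w < w')
    (hr : r < 1) (hlt : L I k w r + (w' - w) < 1) : L I k w r + (w' - w) ≤ L I k w' r := by
  classical
  by_contra hcon
  push Not at hcon
  obtain ⟨s, hs⟩ : ∃ s, s = (L I k w r + (w' - w) - L I k w' r) / 4 := ⟨_, rfl⟩
  have hs0 : 0 < s := by rw [hs]; linarith
  obtain ⟨h, hh⟩ : ∃ h, h = L I k w r + (w' - w) - 2 * s := ⟨_, rfl⟩
  obtain ⟨d, hd0, hd1, habs⟩ := hL.abs I k w' r h (by rw [hh, hs]; linarith)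
    (by rw [hh]; linarith)
  obtain ⟨d', hd'⟩ : ∃ d', d' = min (min d w) (min s (1 - r)) := ⟨_, rfl⟩
  have h0 : 0 < d' := by
    rw [hd']
    exact lt_min (lt_min hd0 hw0) (lt_min hs0 (by linarith))
  have h1 : d' ≤ d := by rw [hd']; exact (min_le_left _ _).trans (min_le_left _ _)
  have h1' : d' ≤ w := by rw [hd']; exact (min_le_left _ _).trans (min_le_right _ _)
  have h2 : d' ≤ s := by rw [hd']; exact (min_le_right _ _).trans (min_le_left _ _)
  have h3 : d' ≤ 1 - r := by rw [hd']; exact (min_le_right _ _).trans (min_le_right _ _)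
  obtain ⟨K, hK⟩ := hL.att I k w (w + d' / 2) r (d' / 4) (by linarith) (by linarith) (by linarith)
    (by linarith)
  obtain ⟨τ₁, hτ₁, J₁, hb₁⟩ := hK
  obtain ⟨τ₂, hτ₂, J₂, hb₂⟩ := habs d' h1 K
  obtain ⟨C, hC⟩ : ∃ C : ℝ, C = 9 * (4 * (K + 1) + 1) := ⟨_, rfl⟩
  have hC0 : 0 < C := by rw [hC]; positivity
  obtain ⟨τ, hτ⟩ : ∃ τ, τ = min τ₁ (τ₂ / 2) := ⟨_, rfl⟩
  have hτ0 : 0 < τ := by rw [hτ]; exact lt_min hτ₁ (by linarith)
  have t1 : τ ≤ τ₁ := by rw [hτ]; exact min_le_left _ _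
  have t2 : 2 * τ ≤ τ₂ := by
    have : τ ≤ τ₂ / 2 := by rw [hτ]; exact min_le_right _ _
    linarith
  obtain ⟨J₃, hJ₃⟩ := exists_nat_ge (Real.log C / τ)
  obtain ⟨J₄, hJ₄⟩ := exists_nat_ge (3 / s)
  obtain ⟨J₅, hJ₅⟩ := exists_nat_ge (((m : ℝ) + 2) / s)
  obtain ⟨J, hJ, F, A, hA⟩ := hS τ hτ0 (max (max J₁ J₂) (max J₃ (max J₄ J₅)))
  have j1 : J₁ ≤ J := ((le_max_left _ _).trans (le_max_left _ _)).trans hJ
  have j2 : J₂ ≤ J := ((le_max_right _ _).trans (le_max_left _ _)).trans hJ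
  have j3 : (J₃ : ℝ) ≤ J := by
    exact_mod_cast ((le_max_left _ _).trans (le_max_right _ _)).trans hJ
  have j4 : (J₄ : ℝ) ≤ J := by
    exact_mod_cast ((le_max_left _ _).trans ((le_max_right _ _).trans (le_max_right _ _))).trans hJ
  have j5 : (J₅ : ℝ) ≤ J := by
    exact_mod_cast ((le_max_right _ _).trans ((le_max_right _ _).trans (le_max_right _ _))).trans hJ
  have i3 : Real.log C ≤ τ * J := by
    have := hJ₃.trans j3
    rw [div_le_iff₀ hτ0] at this
    linarith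
  have i4 : 3 ≤ s * J := by
    have := hJ₄.trans j4
    rw [div_le_iff₀ hs0] at this
    linarith
  have i5 : (m : ℝ) + 2 ≤ s * J := by
    have := hJ₅.trans j5
    rw [div_le_iff₀ hs0] at this
    linarith
  have hJ0 : (0 : ℝ) ≤ J := Nat.cast_nonneg J
  have flo : ∀ {x : ℝ}, 0 ≤ x → x * J - 1 < ⌊x * J⌋₊ ∧ (⌊x * J⌋₊ : ℝ) ≤ x * J := by
    intro x hx
    have h4 : 0 ≤ x * (J : ℝ) := mul_nonneg hx hJ0
    exact ⟨by linarith [Nat.lt_floor_add_one (x * (J : ℝ))], Nat.floor_le h4⟩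
  have hlow : w ≤ L I k w r := hL.low I k w r (by linarith)
  have hlow' : w' ≤ L I k w' r := hL.low I k w' r (by linarith)
  have hLe : 0 ≤ L I k w r - d' / 4 := by linarith
  have hh0 : 0 ≤ h := by linarith
  obtain ⟨a1, a2⟩ := flo (x := w + d' / 2) (by linarith)
  obtain ⟨b1, b2⟩ := flo (x := w' + d') (by linarith)
  obtain ⟨c1, c2⟩ := flo hLe
  obtain ⟨e1, e2⟩ := flo hh0
  obtain ⟨f1, f2⟩ := flo (x := d' / 4) (by linarith)
  have q1 : ⌊(w + d' / 2) * J⌋₊ ≤ ⌊(w' + d') * J⌋₊ :=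
    Nat.floor_le_floor (mul_le_mul_of_nonneg_right (by linarith) hJ0)
  have q2 : ⌊(w' + d') * J⌋₊ ≤ J := by
    have h5 : (w' + d') * J ≤ 1 * J := mul_le_mul_of_nonneg_right (by linarith) hJ0
    have h6 : (⌊(w' + d') * J⌋₊ : ℝ) ≤ J := by linarith
    exact_mod_cast h6
  have q3 : ⌊h * J⌋₊ + 1 + ⌊(w + d' / 2) * J⌋₊ ≤
      ⌊(L I k w r - d' / 4) * J⌋₊ + ⌊(w' + d') * J⌋₊ := by
    have h5 : h * J + 1 + (w + d' / 2) * J ≤ ((L I k w r - d' / 4) * J - 1) +
        ((w' + d') * J - 1) := by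
      have h6 : 0 ≤ d' * (J : ℝ) := mul_nonneg h0.le hJ0
      have h7 : h * J = (L I k w r + (w' - w) - 2 * s) * J := by rw [hh]
      rw [h7]
      linarith
    have h6 : ((⌊h * J⌋₊ + 1 + ⌊(w + d' / 2) * J⌋₊ : ℕ) : ℝ) ≤
        ((⌊(L I k w r - d' / 4) * J⌋₊ + ⌊(w' + d') * J⌋₊ : ℕ) : ℝ) := by
      push_cast
      linarith
    exact_mod_cast h6
  have q4 : ⌊h * J⌋₊ + 1 + ⌊d' / 4 * J⌋₊ + (m + 1) ≤ J := by
    have h5 : h * J + 1 + d' / 4 * J + (m + 1) ≤ J := by
      have h6 : d' * (J : ℝ) ≤ s * J := mul_le_mul_of_nonneg_right h2 hJ0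
      have h7 : h * J = (L I k w r + (w' - w)) * J - 2 * (s * J) := by rw [hh]; ring
      have h8 : (L I k w r + (w' - w)) * J ≤ 1 * J := mul_le_mul_of_nonneg_right hlt.le hJ0
      rw [h7]
      linarith
    have h6 : ((⌊h * J⌋₊ + 1 + ⌊d' / 4 * J⌋₊ + (m + 1) : ℕ) : ℝ) ≤ (J : ℕ) := by
      push_cast
      linarith
    exact_mod_cast h6
  have q5 : ⌊(r + d' / 4) * J⌋₊ ≤ J := by
    refine (Nat.floor_le_floor (mul_le_mul_of_nonneg_right
      (by linarith : r + d' / 4 ≤ 1) hJ0)).trans ?_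
    rw [one_mul, Nat.floor_natCast]
  obtain ⟨B, g1, g2, g3⟩ := lb_grow q1 q2 q3 q4 q5 (hb₁ J j1 F A (S.mono t1 hA))
  rw [← hC] at g2
  have hB := res_of hτ0.le hA g1 hC0 i3 g2
  refine hb₂ J j2 F B (S.mono t2 hB) ?_
  refine g3.mono (Finset.Subset.refl _) le_rfl ?_ le_rfl le_rfl q2 ?_ le_rfl
  · exact Nat.floor_le_floor (mul_le_mul_of_nonneg_right (by linarith) hJ0)
  · exact Nat.floor_le_floor (mul_le_mul_of_nonneg_right (by linarith) hJ0)

/-- The same without the bound. -/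
theorem num_min {S : PCl m} (hS : S.Ne) {L : Finset (Fin m) → Fin m → ℝ → ℝ → ℝ}
    (hL : LamW S L) {I : Finset (Fin m)} {k : Fin m} {w w' r : ℝ} (hw0 : 0 < w) (hww : w ≤ w')
    (hr : r < 1) : min 1 (L I k w r + (w' - w)) ≤ L I k w' r := by
  rcases hww.eq_or_lt with he | hww
  · rw [← he]
    exact (min_le_right _ _).trans (by linarith)
  rcases lt_or_ge (L I k w r + (w' - w)) 1 with h | h
  · exact (min_le_right _ _).trans (num_grow hS hL hw0 hww hr h)
  have hm := hL.mono I I k w w' r r (Finset.Subset.refl _) hww.le le_rfl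
  refine (min_le_left _ _).trans ?_
  by_contra hcon
  push Not at hcon
  have h1 : L I k w r < 1 := hm.trans_lt hcon
  obtain ⟨x, hx⟩ : ∃ x, x = w + (1 - L I k w r) - (1 - L I k w' r) / 2 := ⟨_, rfl⟩
  have h2 : w < x := by linarith
  have h3 : x ≤ w' := by linarith
  have h4 := num_grow hS hL hw0 h2 hr (by linarith)
  have h5 := hL.mono I I k x w' r r (Finset.Subset.refl _) h3 le_rfl
  linarith

end Pool.OWN40
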