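import Pool.Agent.H40.OWN.C021

/-!
# The size of the slope of `v` over `u`

`alg_one`, `alg_two`, `alg_thr`: the sizes of the coefficients in the three cases. `th_low`: the
closed slope of `v` over `u` has at least its natural size. `th_up`: it has at most its natural size.
-/

set_option autoImplicit false

namespace Pool.OWN72

open Finset MvPolynomial
open Pool.Agent.H49.Ent Pool.Agent.H32.Dense Pool.STK Pool.KA Pool.KSAT Pool.K2S Pool.PB Pool.GEN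
open Pool.S6C
open Pool.JVE (DpI)
open Pool.MIC6 (res_of Dp Dt ActF ActZ)
open Pool.GRW (bas_part)
open Pool.REX

variable {m n J : ℕ}

theorem alg_one {t th : ℝ} {X n1 n2 nD nU : ℕ} (ht : |t| ≤ 2 * 2 ^ X)
    (hth : |th| ≤ 1 / 2 ^ (X + 2)) (h1 : nU + 2 ≤ n1) (h2 : nU + X + 3 ≤ n2) :
    (t * th - 1 ≠ 0 ∨ t + 0 ≠ 0) ∧ 1 / 2 ^ n1 + |t| * (1 / 2 ^ n2) ≤ |t + 0| / 2 ^ nD +
      |t * th - 1| / 2 ^ nU := by
  have k1 : |t * th| ≤ 1 / 2 := by
    rw [abs_mul]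
    have e1 : 2 * (2 : ℝ) ^ X * (1 / 2 ^ (X + 2)) = 1 / 2 := by
      rw [pow_add]
      field_simp
    rw [← e1]
    exact mul_le_mul ht hth (abs_nonneg _) (by positivity)
  have k2 : 1 / 2 ≤ |t * th - 1| := by
    have h3 := abs_le.1 k1
    rw [abs_of_nonpos (by linarith [h3.2])]
    linarith [h3.2]
  refine ⟨Or.inl fun h0 => by
    rw [h0, abs_zero] at k2
    linarith, ?_⟩
  have e2 : (0 : ℝ) < 1 / 2 ^ nU := by positivity
  have k3 : (1 : ℝ) / 2 ^ n1 ≤ 1 / 4 * (1 / 2 ^ nU) := by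
    have h3 : (1 : ℝ) / 2 ^ n1 ≤ 1 / 2 ^ (nU + 2) := inv_mono h1
    refine h3.trans (le_of_eq ?_)
    rw [pow_add]
    field_simp
    norm_num
  have k4 : |t| * (1 / 2 ^ n2) ≤ 1 / 4 * (1 / 2 ^ nU) := by
    have h3 : (1 : ℝ) / 2 ^ n2 ≤ 1 / 2 ^ (nU + X + 3) := inv_mono h2
    refine (mul_le_mul ht h3 (by positivity) (by positivity)).trans (le_of_eq ?_)
    rw [pow_add, pow_add]
    field_simp
    norm_num
  have k5 : 1 / 2 * (1 / 2 ^ nU) ≤ |t * th - 1| / 2 ^ nU := by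
    rw [div_eq_mul_one_div |t * th - 1|]
    exact mul_le_mul_of_nonneg_right k2 e2.le
  have k6 : 0 ≤ |t + 0| / 2 ^ nD := by positivity
  linarith

theorem alg_thr {t th : ℝ} {K E n1 n2 nD nU : ℕ} (hth : |th| ≤ 2 ^ E) (hE : E + 1 ≤ K)
    (h1 : nD + K + 1 ≤ n1) (h2 : nU + 1 ≤ n1) (h3 : nD + 1 ≤ n2) :
    (t * th - 1 ≠ 0 ∨ t + 0 ≠ 0) ∧ 1 / 2 ^ n1 + |t| * (1 / 2 ^ n2) ≤ |t + 0| / 2 ^ nD +
      |t * th - 1| / 2 ^ nU := by
  have e1 : (0 : ℝ) < 1 / 2 ^ nU := by positivity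
  have e2 : (0 : ℝ) < 1 / 2 ^ nD := by positivity
  have k0 : (1 : ℝ) / 2 ^ n2 ≤ 1 / 2 * (1 / 2 ^ nD) := by
    refine (inv_mono h3).trans (le_of_eq ?_)
    rw [pow_succ]
    field_simp
  have k1 : |t| * (1 / 2 ^ n2) ≤ 1 / 2 * (|t| / 2 ^ nD) := by
    have h4 := mul_le_mul_of_nonneg_left k0 (abs_nonneg t)
    have e3 : 1 / 2 * (|t| / 2 ^ nD) = |t| * (1 / 2 * (1 / 2 ^ nD)) := by ring
    rw [e3]
    exact h4
  by_cases hb : 1 / 2 ^ K ≤ |t|
  · have ht0 : 0 < |t| := lt_of_lt_of_le (by positivity) hb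
    refine ⟨Or.inr (by
      rw [add_zero]
      exact abs_pos.1 ht0), ?_⟩
    have k2 : (1 : ℝ) / 2 ^ n1 ≤ 1 / 2 * (|t| / 2 ^ nD) := by
      have h4 : (1 : ℝ) / 2 ^ n1 ≤ 1 / 2 ^ (nD + K + 1) := inv_mono h1
      refine h4.trans ?_
      have h5 : (1 : ℝ) / 2 ^ (nD + K + 1) = 1 / 2 * (1 / 2 ^ K / 2 ^ nD) := by
        rw [pow_add, pow_add]
        field_simp
      rw [h5]
      refine mul_le_mul_of_nonneg_left (div_le_div_of_nonneg_right hb (by positivity))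
        (by norm_num)
    have k3 : 0 ≤ |t * th - 1| / 2 ^ nU := by positivity
    rw [add_zero]
    have k4 : |t| / 2 ^ nD = 1 / 2 * (|t| / 2 ^ nD) + 1 / 2 * (|t| / 2 ^ nD) := by ring
    linarith
  · push Not at hb
    have k2 : |t * th| ≤ 1 / 2 := by
      rw [abs_mul]
      have h4 : (1 : ℝ) / 2 ^ K * 2 ^ E ≤ 1 / 2 := by
        rw [div_mul_eq_mul_div, one_mul, div_le_div_iff₀ (by positivity) (by norm_num), one_mul,
          ← pow_succ]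
        exact pow_le_pow_right₀ (by norm_num) hE
      exact (mul_le_mul hb.le hth (abs_nonneg _) (by positivity)).trans h4
    have k3 : 1 / 2 ≤ |t * th - 1| := by
      have h3 := abs_le.1 k2
      rw [abs_of_nonpos (by linarith [h3.2])]
      linarith [h3.2]
    refine ⟨Or.inl fun h0 => by
      rw [h0, abs_zero] at k3
      linarith, ?_⟩
    have k4 : (1 : ℝ) / 2 ^ n1 ≤ |t * th - 1| / 2 ^ nU := by
      have h4 : (1 : ℝ) / 2 ^ n1 ≤ 1 / 2 ^ (nU + 1) := inv_mono h2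
      refine h4.trans ?_
      have h5 : (1 : ℝ) / 2 ^ (nU + 1) = 1 / 2 / 2 ^ nU := by
        rw [pow_succ]
        field_simp
      rw [h5]
      exact div_le_div_of_nonneg_right k3 (by positivity)
    rw [add_zero]
    have k5 : 0 ≤ |t| / 2 ^ nD := by positivity
    linarith

theorem alg_two {t th : ℝ} {K E T n1 n2 nD nU : ℕ} (hth : |th| ≤ 2 ^ E)
    (hth' : 1 / 2 ^ T ≤ |th|) (hE : E + 1 ≤ K) (h1 : nD + K ≤ n1) (h2 : nU + 2 ≤ n1)
    (h3 : nU + T + 1 ≤ n2) :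
    (t * th - 0 ≠ 0 ∨ t + 1 / th ≠ 0) ∧ 1 / 2 ^ n1 + |t| * (1 / 2 ^ n2) ≤
      |t + 1 / th| / 2 ^ nD + |t * th - 0| / 2 ^ nU := by
  have hth0 : 0 < |th| := lt_of_lt_of_le (by positivity) hth'
  have hne : th ≠ 0 := abs_pos.1 hth0
  have e1 : (0 : ℝ) < 1 / 2 ^ nU := by positivity
  rw [sub_zero]
  have k1 : |t| * (1 / 2 ^ n2) ≤ 1 / 2 * (|t * th| / 2 ^ nU) := by
    have h4 : (1 : ℝ) / 2 ^ n2 ≤ 1 / 2 ^ (nU + T + 1) := inv_mono h3
    have h5 : (1 : ℝ) / 2 ^ (nU + T + 1) = 1 / 2 * (1 / 2 ^ T / 2 ^ nU) := by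
      rw [pow_add, pow_add]
      field_simp
    have h6 : |t| * (1 / 2 ^ T) ≤ |t * th| := by
      rw [abs_mul]
      exact mul_le_mul_of_nonneg_left hth' (abs_nonneg _)
    calc |t| * (1 / 2 ^ n2) ≤ |t| * (1 / 2 ^ (nU + T + 1)) :=
          mul_le_mul_of_nonneg_left h4 (abs_nonneg _)
      _ = 1 / 2 * (|t| * (1 / 2 ^ T) / 2 ^ nU) := by rw [h5]; ring
      _ ≤ _ := mul_le_mul_of_nonneg_left (div_le_div_of_nonneg_right h6 (by positivity))
          (by norm_num)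
  refine ⟨?_, ?_⟩
  · by_cases h0 : t = 0
    · right
      rw [h0, zero_add]
      exact one_div_ne_zero hne
    · left
      exact mul_ne_zero h0 hne
  by_cases hb : 1 / 2 ^ K ≤ |t + 1 / th|
  · have k2 : (1 : ℝ) / 2 ^ n1 ≤ |t + 1 / th| / 2 ^ nD := by
      have h4 : (1 : ℝ) / 2 ^ n1 ≤ 1 / 2 ^ (nD + K) := inv_mono h1
      refine h4.trans ?_
      have h5 : (1 : ℝ) / 2 ^ (nD + K) = 1 / 2 ^ K / 2 ^ nD := by
        rw [pow_add]
        field_simp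
      rw [h5]
      exact div_le_div_of_nonneg_right hb (by positivity)
    have k3 : 0 ≤ |t * th| / 2 ^ nU := by positivity
    linarith
  · push Not at hb
    have k2 : |(t + 1 / th) * th| ≤ 1 / 2 := by
      rw [abs_mul]
      have h4 : (1 : ℝ) / 2 ^ K * 2 ^ E ≤ 1 / 2 := by
        rw [div_mul_eq_mul_div, one_mul, div_le_div_iff₀ (by positivity) (by norm_num), one_mul,
          ← pow_succ]
        exact pow_le_pow_right₀ (by norm_num) hE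
      exact (mul_le_mul hb.le hth (abs_nonneg _) (by positivity)).trans h4
    have k3 : 1 / 2 ≤ |t * th| := by
      have e2 : (t + 1 / th) * th = t * th + 1 := by field_simp
      rw [e2] at k2
      have h3 := abs_le.1 k2
      rw [abs_of_nonpos (by linarith [h3.2])]
      linarith [h3.2]
    have k4 : (1 : ℝ) / 2 ^ n1 ≤ 1 / 2 * (|t * th| / 2 ^ nU) := by
      have h4 : (1 : ℝ) / 2 ^ n1 ≤ 1 / 2 ^ (nU + 2) := inv_mono h2
      refine h4.trans ?_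
      have h5 : (1 : ℝ) / 2 ^ (nU + 2) = 1 / 2 * (1 / 2 / 2 ^ nU) := by
        rw [pow_add]
        field_simp
      rw [h5]
      exact mul_le_mul_of_nonneg_left (div_le_div_of_nonneg_right k3 (by positivity))
        (by norm_num)
    have k5 : 0 ≤ |t + 1 / th| / 2 ^ nD := by positivity
    have k6 : |t * th| / 2 ^ nU = 1 / 2 * (|t * th| / 2 ^ nU) + 1 / 2 * (|t * th| / 2 ^ nU) := by
      ring
    linarith

/-- **The closed slope of `v` over `u` is not too small.** -/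
theorem th_low {S : PCl m} {C₀ : ℝ} (htm : TmC S C₀)
    {L : Finset (Fin m) → Fin m → ℝ → ℝ → ℝ} (hL : LamW S L) {y u v : Fin m}
    (hact : ActF S y) {W D s : ℝ} (hW0 : 0 ≤ W) (hs : 0 < s)
    (hWV : W ≤ L {y} v W 0) (hV1 : L {y} v W 0 + s ≤ 1) (hVD : L {y} v W 0 + s ≤ D)
    (hu : HasA S {y} u W (L {y} u W 0)) :
    ∃ e₁ : ℝ, 0 < e₁ ∧ Bas S (fun J F A => ∀ (B : F.Ω → Prop) (th a0 c0 : PtT F → ℝ) (e : ℕ),
      Sub B A → Pe F.p A ≤ 2 * Pe F.p B → e ≤ ⌊e₁ * J⌋₊ → (∀ ω, B ω → |th (ptr F J ω)| ≤ 2 ^ e) →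
      Cl1 F B ⌊W * J⌋₊ th → Cl1 F B ⌊W * J⌋₊ a0 → Cl1 F B ⌊W * J⌋₊ c0 →
      (∀ ω, B ω → |F.d ω v - c0 (ptr F J ω) - a0 (ptr F J ω) * F.d ω y -
        th (ptr F J ω) * F.d ω u| ≤ 1 / 2 ^ ⌊(D - W - e₁) * J⌋₊) →
      ∃ B' : F.Ω → Prop, Sub B' B ∧ Pe F.p B ≤ 2 * Pe F.p B' ∧ ∀ ω, B' ω →
        1 / 2 ^ ⌊(max (L {y} v W 0 - L {y} u W 0) 0 + s) * J⌋₊ ≤ |th (ptr F J ω)|) := by
  classical
  obtain ⟨U, hU⟩ : ∃ U, U = L {y} u W 0 := ⟨_, rfl⟩
  obtain ⟨V, hV⟩ : ∃ V, V = L {y} v W 0 := ⟨_, rfl⟩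
  obtain ⟨d, hd, hlvl⟩ := lvl_cls hL (I := {y}) (v := v) (W := W) (r := 0) (s := s / 2) hW0
    (by linarith) hWV (by linarith)
  obtain ⟨δ, hδ, hlvl⟩ := hlvl d hd le_rfl
  rw [← hV] at hlvl hWV hV1 hVD ⊢
  rw [← hU] at hu ⊢
  obtain ⟨x, hx⟩ : ∃ x, x = min (d / 8) (s / 8) := ⟨_, rfl⟩
  have hx0 : 0 < x := by rw [hx]; exact lt_min (by linarith) (by linarith)
  have hxd : x ≤ d / 8 := by rw [hx]; exact min_le_left _ _
  have hxs : x ≤ s / 8 := by rw [hx]; exact min_le_right _ _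
  have hcf := cf_zero htm hact W x (1 / 2) hx0 (by norm_num)
  obtain ⟨J₁, hJ₁⟩ := exists_nat_ge (8 / x)
  obtain ⟨J₂, hJ₂⟩ := exists_nat_ge (16 / δ)
  refine ⟨x, hx0, Bas.mono (max J₁ J₂) (((hu x hx0).and (bas_part hcf (c := 4)
    (by norm_num))).and (hlvl.and ⟨1, one_pos, 0, fun J _ F A hA =>
      (htm 1 J F A one_pos hA).1⟩)) ?_⟩
  rintro J hJ F A ⟨⟨⟨a1, c1, hl⟩, hc⟩, ⟨hlv, hA0⟩⟩ B th a0 c0 e hBA hPB he hth hcth hca0 hcc0 hd0
  have j1 : (J₁ : ℝ) ≤ J := by exact_mod_cast (le_max_left _ _).trans hJ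
  have j2 : (J₂ : ℝ) ≤ J := by exact_mod_cast (le_max_right _ _).trans hJ
  have hJ0 : (0 : ℝ) ≤ J := Nat.cast_nonneg J
  have q1 : 8 ≤ x * J := by
    have h1 := hJ₁.trans j1
    rw [div_le_iff₀ hx0] at h1
    linarith
  have q2 : x * J ≤ d / 8 * J := mul_le_mul_of_nonneg_right hxd hJ0
  have q3 : x * J ≤ s / 8 * J := mul_le_mul_of_nonneg_right hxs hJ0
  obtain ⟨w, hw⟩ : ∃ w, w = ⌊W * (J : ℝ)⌋₊ := ⟨_, rfl⟩
  rw [← hw] at hl hc hlv hcth hca0 hcc0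
  obtain ⟨X, hX⟩ : ∃ X, X = ⌊x * (J : ℝ)⌋₊ := ⟨_, rfl⟩
  have f1 : (X : ℝ) ≤ x * J := by rw [hX]; exact Nat.floor_le (by positivity)
  rw [← hX] at hl he
  obtain ⟨T, hT⟩ : ∃ T, T = ⌊(max (V - U) 0 + s) * (J : ℝ)⌋₊ := ⟨_, rfl⟩
  have f2 : (max (V - U) 0 + s) * (J : ℝ) - 1 < T := by rw [hT]; exact Nat.sub_one_lt_floor _
  rw [← hT]
  obtain ⟨M, hM⟩ : ∃ M, M = ⌊(V - W + s / 2) * (J : ℝ)⌋₊ := ⟨_, rfl⟩
  have f3 : (M : ℝ) ≤ (V - W + s / 2) * J := by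
    rw [hM]
    exact Nat.floor_le (mul_nonneg (by linarith) hJ0)
  rw [← hM] at hlv
  obtain ⟨NU, hNU⟩ : ∃ M, M = ⌊(U - W - x) * (J : ℝ)⌋₊ := ⟨_, rfl⟩
  have f4 : (U - W - x) * (J : ℝ) - 1 < NU := by rw [hNU]; exact Nat.sub_one_lt_floor _
  rw [← hNU] at hl
  obtain ⟨ND, hND⟩ : ∃ M, M = ⌊(D - W - x) * (J : ℝ)⌋₊ := ⟨_, rfl⟩
  have f5 : (D - W - x) * (J : ℝ) - 1 < ND := by rw [hND]; exact Nat.sub_one_lt_floor _
  rw [← hND] at hd0
  obtain ⟨G, hG⟩ : ∃ G, G = ⌊(0 + x) * (J : ℝ)⌋₊ := ⟨_, rfl⟩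
  have f6 : (G : ℝ) ≤ x * J := by
    rw [hG, zero_add]
    exact Nat.floor_le (by positivity)
  rw [← hG] at hc
  have f7 : d * (J : ℝ) - 1 < ⌊d * (J : ℝ)⌋₊ := Nat.sub_one_lt_floor _
  have hcast : ∀ a b : ℕ, (a : ℝ) ≤ b → a ≤ b := fun a b h => by exact_mod_cast h
  have fe : (e : ℝ) ≤ x * J := by
    have : (e : ℝ) ≤ X := by exact_mod_cast he
    linarith
  have n1 : e + G + 3 ≤ ⌊d * (J : ℝ)⌋₊ := hcast _ _ (by
    push_cast
    linarith only [fe, f6, f7, q1, q2])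
  have n2 : e + X + 3 ≤ ⌊d * (J : ℝ)⌋₊ := hcast _ _ (by
    push_cast
    linarith only [fe, f1, f7, q1, q2])
  have n3 : M + 1 ≤ ND := hcast _ _ (by
    push_cast
    have : (V + s) * J ≤ D * J := mul_le_mul_of_nonneg_right hVD hJ0
    linarith only [f3, f5, q1, q3, this])
  have n4 : M + 1 ≤ T + NU := hcast _ _ (by
    push_cast
    have : (V - U) * J ≤ max (V - U) 0 * J := mul_le_mul_of_nonneg_right (le_max_left _ _) hJ0
    linarith only [f2, f3, f4, q1, q3, this])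
  obtain ⟨Bd, hBd⟩ : ∃ Bd : F.Ω → Prop, Bd = fun ω => B ω ∧ |th (ptr F J ω)| < 1 / 2 ^ T :=
    ⟨_, rfl⟩
  have sBd : Sub Bd B := fun ω hω => by
    rw [hBd] at hω
    exact hω.1
  have sBdA : Sub Bd A := fun ω hω => hBA ω (sBd ω hω)
  have hPBd : Pe F.p Bd ≤ 1 / 4 * Pe F.p A := by
    by_contra hcon
    push Not at hcon
    have k1 : Pe F.p A ≤ 4 * Pe F.p Bd := by linarith
    have P1 : ∀ k : ℕ, (1 : ℝ) ≤ 2 ^ k := fun k => one_le_pow₀ (by norm_num)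
    have i1 : ∀ k : ℕ, (1 : ℝ) / 2 ^ k ≤ 1 := fun k => by
      rw [div_le_one (by positivity)]
      exact P1 k
    obtain ⟨B₂, b21, b22, b23⟩ := hc Bd sBdA k1 (fun p _ => a0 p) c0 (4 * 2 ^ e) (by positivity)
      (fun k _ => hca0.sub sBd) (hcc0.sub sBd) (fun ω hω => by
        rw [Finset.sum_singleton]
        have h1 := hd0 ω (sBd ω hω)
        have h2 := F.dir ω v
        have h3 := F.dir ω u
        have h4 := hth ω (sBd ω hω)
        have e1 : c0 (ptr F J ω) + a0 (ptr F J ω) * F.d ω y = F.d ω v -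
            th (ptr F J ω) * F.d ω u - (F.d ω v - c0 (ptr F J ω) - a0 (ptr F J ω) * F.d ω y -
              th (ptr F J ω) * F.d ω u) := by ring
        rw [e1]
        have h5 : |th (ptr F J ω) * F.d ω u| ≤ 2 ^ e := by
          rw [abs_mul]
          calc |th (ptr F J ω)| * |F.d ω u| ≤ 2 ^ e * 1 :=
                mul_le_mul h4 h3 (abs_nonneg _) (by positivity)
            _ = 2 ^ e := mul_one _
        refine (abs_sub _ _).trans ?_
        have h6 := abs_sub (F.d ω v) (th (ptr F J ω) * F.d ω u)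
        have h7 := i1 ND
        have h8 := P1 e
        linarith)
    obtain ⟨ta, hta⟩ := hcth.sub (sBd : Sub Bd B)
    have hB₂A : Sub B₂ A := fun ω hω => sBdA ω (b21 ω hω)
    have hpw : ∀ a b c : ℕ, a + b + 3 ≤ c → 8 * ((2 : ℝ) ^ a * 2 ^ b) ≤ 2 ^ c := by
      intro a b c h
      have h1 : (2 : ℝ) ^ (a + b + 3) ≤ 2 ^ c := pow_le_pow_right₀ (by norm_num) h
      have h2 : (2 : ℝ) ^ (a + b + 3) = 8 * (2 ^ a * 2 ^ b) := by
        rw [pow_add, pow_add]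
        ring
      linarith
    have m1 := hpw e G _ n1
    have m2 := hpw e X _ n2
    have hbd : ∀ a b t : ℝ, |a| ≤ 4 * 2 ^ e * 2 ^ G → |b| ≤ 2 ^ X → |t| ≤ 2 ^ e →
        |a + t * b| ≤ 2 ^ ⌊d * (J : ℝ)⌋₊ := by
      intro a b t ha hb ht
      have h1 : |t * b| ≤ 2 ^ e * 2 ^ X := by
        rw [abs_mul]
        exact mul_le_mul ht hb (abs_nonneg _) (by positivity)
      refine (abs_add_le _ _).trans ?_
      have h2 : (0 : ℝ) ≤ 2 ^ e * 2 ^ X := by positivity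
      linarith
    have hdp : DpI F B₂ {y} v ⌊d * (J : ℝ)⌋₊ M (fun p k => a0 p + th p * a1 p k)
        (fun p => c0 p + th p * c1 p) := by
      intro ω hω
      obtain ⟨g1, g2⟩ := b23 ω hω
      obtain ⟨l1, l2, l3⟩ := hl.dp ω (hB₂A ω hω)
      have h4 := hth ω (sBd ω (b21 ω hω))
      refine ⟨fun k hk => hbd _ _ _ (g1 k hk) (l1 k hk) h4, hbd _ _ _ g2 l2 h4, ?_⟩
      rw [Finset.sum_singleton] at l3 ⊢
      have e1 : F.d ω v - (c0 (ptr F J ω) + th (ptr F J ω) * c1 (ptr F J ω)) -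
          (a0 (ptr F J ω) + th (ptr F J ω) * a1 (ptr F J ω) y) * F.d ω y =
          (F.d ω v - c0 (ptr F J ω) - a0 (ptr F J ω) * F.d ω y - th (ptr F J ω) * F.d ω u) +
          th (ptr F J ω) * (F.d ω u - c1 (ptr F J ω) - a1 (ptr F J ω) y * F.d ω y) := by ring
      rw [e1]
      have hB := b21 ω hω
      rw [hBd] at hB
      have h5 : |th (ptr F J ω) * (F.d ω u - c1 (ptr F J ω) - a1 (ptr F J ω) y * F.d ω y)| ≤
          1 / 2 ^ (T + NU) := by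
        rw [abs_mul]
        have e2 : (1 : ℝ) / 2 ^ (T + NU) = 1 / 2 ^ T * (1 / 2 ^ NU) := by
          rw [pow_add]
          field_simp
        rw [e2]
        exact mul_le_mul hB.2.le l3 (abs_nonneg _) (by positivity)
      have h6 := hd0 ω hB.1
      have h7 : (1 : ℝ) / 2 ^ (T + NU) ≤ 1 / 2 ^ (M + 1) := inv_mono n4
      have h8 : (1 : ℝ) / 2 ^ ND ≤ 1 / 2 ^ (M + 1) := inv_mono n3
      have h9 : (1 : ℝ) / 2 ^ (M + 1) + 1 / 2 ^ (M + 1) = 1 / 2 ^ M := by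
        rw [pow_succ]
        field_simp
        norm_num
      refine (abs_add_le _ _).trans ?_
      linarith
    have hcl : Cl1 F Bd w (fun p => a0 p + th p * a1 p y) := by
      have h1 := Cl1.map2 (fun a b => a * b) (hcth.sub sBd)
        ((hl.ca y (Finset.mem_singleton_self _)).sub sBdA)
      exact Cl1.map2 (fun a b => a + b) (hca0.sub sBd) h1
    obtain ⟨f', hf'⟩ := hcl
    have h1 := hlv B₂ M (fun p k => a0 p + th p * a1 p k) (fun p => c0 p + th p * c1 p)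
      (fun s _ => f' s) hB₂A hdp (fun ω hω k hk => by
        rw [Finset.mem_singleton.1 hk]
        have h2 : a0 (ptr F J ω) + th (ptr F J ω) * a1 (ptr F J ω) y = f' (slam F w ω) :=
          hf' ω (b21 ω hω)
        rw [h2, sub_self, abs_zero]
        positivity) le_rfl
    have h2 : Real.exp (-(δ * J)) < 1 / 8 := by
      have h4 : 16 ≤ δ * J := by
        have h1 := hJ₂.trans j2
        rw [div_le_iff₀ hδ] at h1
        linarith
      have h5 : (8 : ℝ) < Real.exp (δ * J) := by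
        have := Real.add_one_le_exp (δ * J)
        linarith
      rw [Real.exp_neg, ← one_div]
      exact one_div_lt_one_div_of_lt (by norm_num) h5
    have h3 : Real.exp (-(δ * J)) * Pe F.p A < 1 / 8 * Pe F.p A :=
      mul_lt_mul_of_pos_right h2 hA0
    linarith
  refine ⟨fun ω => B ω ∧ ¬ Bd ω, fun ω hω => hω.1, ?_, fun ω hω => ?_⟩
  · have h1 := Pe_parts (p := F.p) (B := B) (B' := Bd) sBd
    linarith
  · by_contra hcon
    push Not at hcon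
    exact hω.2 (by
      rw [hBd]
      exact ⟨hω.1, hcon⟩)

/-- **The closed slope of `v` over `u` is not too large.** -/
theorem th_up {S : PCl m} {y u v : Fin m} (hyu : y ≠ u) {W U V D s : ℝ} (hs : 0 < s)
    (hcf : CfP S {y, u} W (U - W)) (hv1 : HasA S {y} v W V) (hVD : V ≤ D) (hWU : W ≤ U) :
    ∃ e₁ : ℝ, 0 < e₁ ∧ Bas S (fun J F A => ∀ (B : F.Ω → Prop) (th a0 c0 : PtT F → ℝ),
      Sub B A → Pe F.p A ≤ 2 * Pe F.p B →
      Cl1 F B ⌊W * J⌋₊ th → Cl1 F B ⌊W * J⌋₊ a0 → Cl1 F B ⌊W * J⌋₊ c0 →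
      (∀ ω, B ω → |F.d ω v - c0 (ptr F J ω) - a0 (ptr F J ω) * F.d ω y -
        th (ptr F J ω) * F.d ω u| ≤ 1 / 2 ^ ⌊(D - W - e₁) * J⌋₊) →
      ∃ B' : F.Ω → Prop, Sub B' B ∧ Pe F.p B ≤ 2 * Pe F.p B' ∧ ∀ ω, B' ω →
        |th (ptr F J ω)| * 2 ^ ⌊(V - W - s) * J⌋₊ ≤ 2 ^ ⌊(U - W + s) * J⌋₊) := by
  classical
  have hcf' := hcf (s / 4) (1 / 2) (by linarith) (by norm_num)
  obtain ⟨J₁, hJ₁⟩ := exists_nat_ge (8 / s)
  refine ⟨s / 2, by linarith, Bas.mono J₁ ((hv1 (s / 4) (by linarith)).and (bas_part hcf' (c := 2)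
    two_pos)) ?_⟩
  rintro J hJ F A ⟨⟨a1, c1, hl⟩, hc⟩ B th a0 c0 hBA hPB hcth hca0 hcc0 hd0
  have j1 : (J₁ : ℝ) ≤ J := by exact_mod_cast hJ
  have hJ0 : (0 : ℝ) ≤ J := Nat.cast_nonneg J
  have q1 : 8 ≤ s * J := by
    have h1 := hJ₁.trans j1
    rw [div_le_iff₀ hs] at h1
    linarith
  obtain ⟨w, hw⟩ : ∃ w, w = ⌊W * (J : ℝ)⌋₊ := ⟨_, rfl⟩
  rw [← hw] at hl hc hcth hca0 hcc0
  obtain ⟨N1, hN1⟩ : ∃ M, M = ⌊(V - W - s / 4) * (J : ℝ)⌋₊ := ⟨_, rfl⟩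
  have f1 : (V - W - s / 4) * (J : ℝ) - 1 < N1 := by rw [hN1]; exact Nat.sub_one_lt_floor _
  rw [← hN1] at hl
  obtain ⟨N2, hN2⟩ : ∃ M, M = ⌊(D - W - s / 2) * (J : ℝ)⌋₊ := ⟨_, rfl⟩
  have f2 : (D - W - s / 2) * (J : ℝ) - 1 < N2 := by rw [hN2]; exact Nat.sub_one_lt_floor _
  rw [← hN2] at hd0
  obtain ⟨N3, hN3⟩ : ∃ M, M = ⌊(V - W - s) * (J : ℝ)⌋₊ := ⟨_, rfl⟩
  rw [← hN3]
  obtain ⟨G, hG⟩ : ∃ G, G = ⌊(U - W + s / 4) * (J : ℝ)⌋₊ := ⟨_, rfl⟩
  have f4 : (G : ℝ) ≤ (U - W + s / 4) * J := by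
    rw [hG]
    exact Nat.floor_le (mul_nonneg (by linarith) hJ0)
  rw [← hG] at hc
  obtain ⟨G', hG'⟩ : ∃ G, G = ⌊(U - W + s) * (J : ℝ)⌋₊ := ⟨_, rfl⟩
  have f5 : (U - W + s) * (J : ℝ) - 1 < G' := by rw [hG']; exact Nat.sub_one_lt_floor _
  rw [← hG']
  have hcast : ∀ a b : ℕ, (a : ℝ) ≤ b → a ≤ b := fun a b h => by exact_mod_cast h
  have hyu' : u ∉ ({y} : Finset (Fin m)) := by
    rw [Finset.mem_singleton]
    exact fun h => hyu h.symm
  have sm : ∀ (f : Fin m → ℝ), ∑ k ∈ ({y, u} : Finset (Fin m)), f k = f y + f u := fun f =>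
    Finset.sum_pair hyu
  -- the exponents
  obtain ⟨N, hN⟩ : ∃ N, N = min N1 N2 := ⟨_, rfl⟩
  have n1 : N ≤ N1 := by rw [hN]; exact min_le_left _ _
  have n2 : N ≤ N2 := by rw [hN]; exact min_le_right _ _
  have n3 : G + 1 + N3 ≤ G' + N := by
    by_cases h0 : 0 ≤ V - W - s
    · have f3 : (N3 : ℝ) ≤ (V - W - s) * J := by
        rw [hN3]
        exact Nat.floor_le (mul_nonneg h0 hJ0)
      have f6 : (V - W - s / 2) * (J : ℝ) - 1 < N := by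
        have h1 : (V - W - s / 2) * (J : ℝ) ≤ (V - W - s / 4) * J :=
          mul_le_mul_of_nonneg_right (by linarith) hJ0
        have h2 : (V - W - s / 2) * (J : ℝ) ≤ (D - W - s / 2) * J :=
          mul_le_mul_of_nonneg_right (by linarith) hJ0
        rw [hN, Nat.cast_min]
        exact lt_min (by linarith) (by linarith)
      refine hcast _ _ ?_
      push_cast
      linarith only [f3, f4, f5, f6, q1]
    · have h1 : N3 = 0 := by
        rw [hN3]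
        refine Nat.floor_of_nonpos (mul_nonpos_of_nonpos_of_nonneg (by linarith) hJ0)
      have h2 : G + 1 ≤ G' := hcast _ _ (by
        push_cast
        linarith only [f4, f5, q1])
      omega
  obtain ⟨δ, hδ⟩ : ∃ δ : PtT F → Fin m → ℝ, δ = fun p k => if k = u then th p else
    a0 p - a1 p y := ⟨_, rfl⟩
  have hδu : ∀ p, δ p u = th p := fun p => by rw [hδ]; exact if_pos rfl
  have hδy : ∀ p, δ p y = a0 p - a1 p y := fun p => by rw [hδ]; exact if_neg hyu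
  obtain ⟨B₂, b21, b22, b23⟩ := hc B hBA hPB δ (fun p => c0 p - c1 p) (2 / 2 ^ N) (by positivity)
    (fun k hk => by
      rcases Finset.mem_insert.1 hk with rfl | hk
      · have h1 : (fun p => δ p k) = fun p => a0 p - a1 p k := by
          funext p
          exact hδy p
        rw [h1]
        exact Cl1.map2 (fun a b => a - b) hca0
          ((hl.ca _ (Finset.mem_singleton_self _)).sub hBA)
      · have hk' := Finset.mem_singleton.1 hk
        rw [hk']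
        have h1 : (fun p => δ p u) = th := by
          funext p
          exact hδu p
        rw [h1]
        exact hcth)
    (Cl1.map2 (fun a b => a - b) hcc0 (hl.cc.sub hBA)) (fun ω hω => by
      rw [sm, hδu, hδy]
      have h1 := hd0 ω hω
      have h2 := (hl.dp ω (hBA ω hω)).2.2
      rw [Finset.sum_singleton] at h2
      have e1 : c0 (ptr F J ω) - c1 (ptr F J ω) + ((a0 (ptr F J ω) - a1 (ptr F J ω) y) *
          F.d ω y + th (ptr F J ω) * F.d ω u) =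
          (F.d ω v - c1 (ptr F J ω) - a1 (ptr F J ω) y * F.d ω y) -
          (F.d ω v - c0 (ptr F J ω) - a0 (ptr F J ω) * F.d ω y - th (ptr F J ω) * F.d ω u) := by
        ring
      rw [e1]
      refine (abs_sub _ _).trans ?_
      have h3 : (1 : ℝ) / 2 ^ N1 ≤ 1 / 2 ^ N := inv_mono n1
      have h4 : (1 : ℝ) / 2 ^ N2 ≤ 1 / 2 ^ N := inv_mono n2
      have h5 : (2 : ℝ) / 2 ^ N = 1 / 2 ^ N + 1 / 2 ^ N := by ring
      linarith)
  refine ⟨B₂, b21, by linarith, fun ω hω => ?_⟩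
  have h1 := (b23 ω hω).1 u (by simp)
  rw [hδu] at h1
  have h2 : (2 : ℝ) ^ (G + 1 + N3) ≤ 2 ^ (G' + N) := pow_le_pow_right₀ (by norm_num) n3
  have h3 : |th (ptr F J ω)| * 2 ^ N3 ≤ 2 / 2 ^ N * 2 ^ G * 2 ^ N3 :=
    mul_le_mul_of_nonneg_right h1 (by positivity)
  refine h3.trans ?_
  rw [pow_add, pow_succ, pow_add] at h2
  have h4 : 2 / 2 ^ N * (2 : ℝ) ^ G * 2 ^ N3 = (2 ^ G * 2 * 2 ^ N3) / 2 ^ N := by ring
  rw [h4, div_le_iff₀ (by positivity)]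
  exact h2

end Pool.OWN72
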